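import Mathlib

set_option autoImplicit false
set_option linter.unusedSectionVars false

namespace Pool.Agent.BraidSliding

open FreeGroup (of toWord)

section Blocks

variable {ι : Type} [DecidableEq ι] (c : ι → Bool)

/-- elements all of whose letters have colour `b` -/
def Col (b : Bool) : Subgroup (FreeGroup ι) where
  carrier := {g | ∀ p ∈ g.toWord, c p.1 = b}
  one_mem' := by simp
  mul_mem' := by
    intro g h hg hh p hp
    have := (FreeGroup.toWord_mul_sublist g h).subset hp
    rcases List.mem_append.mp this with h1 | h1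
    · exact hg p h1
    · exact hh p h1
  inv_mem' := by
    intro g hg p hp
    rw [FreeGroup.toWord_inv] at hp
    unfold FreeGroup.invRev at hp
    rw [List.mem_reverse, List.mem_map] at hp
    obtain ⟨q, hq, rfl⟩ := hp
    exact hg q hq

variable {c}

lemma mem_col {b : Bool} {g : FreeGroup ι} : g ∈ Col c b ↔ ∀ p ∈ g.toWord, c p.1 = b := Iff.rfl

lemma of_mem_col {b : Bool} {i : ι} (h : c i = b) : of i ∈ Col c b := by
  rw [mem_col]
  simp [h]

lemma col_induction {b : Bool} {S : Subgroup (FreeGroup ι)} (h : ∀ i, c i = b → of i ∈ S) :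
    Col c b ≤ S := by
  intro g hg
  rw [mem_col] at hg
  rw [← FreeGroup.mk_toWord (x := g)]
  generalize g.toWord = L at hg
  induction L with
  | nil => exact one_mem _
  | cons p L ih =>
    have e : FreeGroup.mk (p :: L) = FreeGroup.mk [p] * FreeGroup.mk L := by
      rw [FreeGroup.mul_mk]; rfl
    rw [e]
    refine mul_mem ?_ (ih fun q hq => hg q (by simp [hq]))
    obtain ⟨i, d⟩ := p
    have hi := h i (hg (i, d) (by simp))
    cases d with
    | true => exact hi
    | false =>
      have e2 : FreeGroup.mk [(i, false)] = (of i)⁻¹ := by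
        rw [FreeGroup.of, FreeGroup.inv_mk]; rfl
      rw [e2]
      exact inv_mem hi

lemma toWord_mul_of_ne {g h : FreeGroup ι}
    (hne : ∀ p ∈ g.toWord.getLast?, ∀ q ∈ h.toWord.head?, p.1 ≠ q.1) :
    (g * h).toWord = g.toWord ++ h.toWord := by
  rw [FreeGroup.toWord_mul]
  apply FreeGroup.IsReduced.reduce_eq
  unfold FreeGroup.IsReduced
  rw [List.isChain_append]
  exact ⟨FreeGroup.isReduced_toWord, FreeGroup.isReduced_toWord,
    fun p hp q hq he => absurd he (hne p hp q hq)⟩

/-- `h` does not start with colour `b` -/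
def NS (c : ι → Bool) (b : Bool) (h : FreeGroup ι) : Prop := ∀ q ∈ h.toWord.head?, c q.1 ≠ b

lemma toWord_mul_col {b : Bool} {g h : FreeGroup ι} (hg : g ∈ Col c b) (hh : NS c b h) :
    (g * h).toWord = g.toWord ++ h.toWord := by
  apply toWord_mul_of_ne
  intro p hp q hq he
  have h1 := (mem_col.mp hg) p (List.mem_of_getLast? hp)
  exact hh q hq (by rw [← he, h1])

lemma NS_mul {b : Bool} {g h : FreeGroup ι} (hg : g ∈ Col c b) (hg1 : g ≠ 1) (hh : NS c b h) :
    NS c (!b) (g * h) := by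
  intro q hq
  rw [toWord_mul_col hg hh] at hq
  have hne : g.toWord ≠ [] := fun h0 => hg1 (FreeGroup.toWord_eq_nil_iff.mp h0)
  obtain ⟨p, L, hL⟩ := List.exists_cons_of_ne_nil hne
  rw [hL] at hq
  simp only [List.cons_append, List.head?_cons, Option.mem_def, Option.some.injEq] at hq
  subst hq
  have := (mem_col.mp hg) p (by rw [hL]; simp)
  rw [this]
  cases b <;> simp

lemma NS_of_col {b : Bool} {g : FreeGroup ι} (hg : g ∈ Col c b) : NS c (!b) g := by
  intro q hq
  have := (mem_col.mp hg) q (List.mem_of_head? hq)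
  rw [this]
  cases b <;> simp

/-- product of the pairs -/
def evP (l : List (FreeGroup ι × FreeGroup ι)) : FreeGroup ι := (l.map fun p => p.1 * p.2).prod

@[simp] lemma evP_nil : evP ([] : List (FreeGroup ι × FreeGroup ι)) = 1 := rfl
@[simp] lemma evP_cons (p : FreeGroup ι × FreeGroup ι) (l : List (FreeGroup ι × FreeGroup ι)) :
    evP (p :: l) = p.1 * p.2 * evP l := by simp [evP]
@[simp] lemma evP_append (l l' : List (FreeGroup ι × FreeGroup ι)) :
    evP (l ++ l') = evP l * evP l' := by simp [evP]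

/-- all the pairs are nontrivial of the two colours -/
def Good (c : ι → Bool) (l : List (FreeGroup ι × FreeGroup ι)) : Prop :=
  ∀ p ∈ l, (p.1 ∈ Col c true ∧ p.1 ≠ 1) ∧ (p.2 ∈ Col c false ∧ p.2 ≠ 1)

lemma Good.cons {p : FreeGroup ι × FreeGroup ι} {l : List (FreeGroup ι × FreeGroup ι)}
    (h1 : p.1 ∈ Col c true ∧ p.1 ≠ 1) (h2 : p.2 ∈ Col c false ∧ p.2 ≠ 1) (hl : Good c l) :
    Good c (p :: l) := by
  intro q hq
  rcases List.mem_cons.mp hq with rfl | hq
  · exact ⟨h1, h2⟩
  · exact hl q hq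

lemma Good.nil : Good c ([] : List (FreeGroup ι × FreeGroup ι)) := fun p hp => by simp at hp

lemma Good.tail {p : FreeGroup ι × FreeGroup ι} {l : List (FreeGroup ι × FreeGroup ι)}
    (h : Good c (p :: l)) : Good c l := fun q hq => h q (by simp [hq])

lemma Good.append {l l' : List (FreeGroup ι × FreeGroup ι)}
    (h : Good c l) (h' : Good c l') : Good c (l ++ l') := by
  intro q hq
  rcases List.mem_append.mp hq with hq | hq
  · exact h q hq
  · exact h' q hq

lemma Good.left {l l' : List (FreeGroup ι × FreeGroup ι)} (h : Good c (l ++ l')) : Good c l :=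
  fun q hq => h q (by simp [hq])

lemma Good.right {l l' : List (FreeGroup ι × FreeGroup ι)} (h : Good c (l ++ l')) : Good c l' :=
  fun q hq => h q (by simp [hq])

lemma evP_word {l : List (FreeGroup ι × FreeGroup ι)} (hl : Good c l) {r : FreeGroup ι}
    (hr : r ∈ Col c true) :
    (evP l * r).toWord = (l.flatMap fun p => p.1.toWord ++ p.2.toWord) ++ r.toWord ∧
      NS c false (evP l * r) := by
  induction l with
  | nil => exact ⟨by simp, by rw [evP_nil, one_mul]; exact NS_of_col hr⟩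
  | cons p l ih =>
    obtain ⟨i1, i2⟩ := ih hl.tail
    obtain ⟨⟨h1, h2⟩, h3, h4⟩ := hl p (by simp)
    have e : evP (p :: l) * r = p.1 * (p.2 * (evP l * r)) := by rw [evP_cons]; group
    have n1 : NS c true (p.2 * (evP l * r)) := NS_mul h3 h4 i2
    rw [e, toWord_mul_col h1 n1, toWord_mul_col h3 i2, i1]
    exact ⟨by simp, NS_mul h1 h2 n1⟩

/-- the leading block of colour `false` -/
def lead (c : ι → Bool) (g : FreeGroup ι) : List (ι × Bool) := g.toWord.takeWhile fun p => !(c p.1)

lemma lead_mul {v z : FreeGroup ι} (hv : v ∈ Col c false) (hz : NS c false z) :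
    lead c (v * z) = v.toWord := by
  unfold lead
  rw [toWord_mul_col hv hz, List.takeWhile_append_of_pos]
  · have : z.toWord.takeWhile (fun p => !(c p.1)) = [] := by
      cases hzw : z.toWord with
      | nil => rfl
      | cons q L =>
        have h1 := hz q (by rw [hzw]; rfl)
        rw [List.takeWhile_cons_of_neg]
        simpa using h1
    rw [this, List.append_nil]
  · intro p hp
    have := (mem_col.mp hv) p hp
    simp [this]

/-- block form -/
def BF (c : ι → Bool) (g : FreeGroup ι) : Prop :=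
  ∃ v ∈ Col c false, ∃ l, Good c l ∧ ∃ r ∈ Col c true, g = v * (evP l * r)

lemma BF_mul_left {b : Bool} {x g : FreeGroup ι} (hx : x ∈ Col c b) (hg : BF c g) :
    BF c (x * g) := by
  obtain ⟨v, hv, l, hl, r, hr, rfl⟩ := hg
  cases b with
  | false => exact ⟨x * v, mul_mem hx hv, l, hl, r, hr, by group⟩
  | true =>
    by_cases hx1 : x = 1
    · subst hx1; exact ⟨v, hv, l, hl, r, hr, by group⟩
    by_cases hv1 : v = 1
    · subst hv1
      cases l with
      | nil => exact ⟨1, one_mem _, [], hl, x * r, mul_mem hx hr, by simp⟩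
      | cons p l =>
        obtain ⟨⟨h1, h2⟩, h3, h4⟩ := hl p (by simp)
        by_cases h5 : x * p.1 = 1
        · refine ⟨p.2, h3, l, hl.tail, r, hr, ?_⟩
          rw [evP_cons, one_mul]
          have : x * (p.1 * p.2 * evP l * r) = (x * p.1) * (p.2 * (evP l * r)) := by group
          rw [this, h5, one_mul]
        · refine ⟨1, one_mem _, (x * p.1, p.2) :: l, Good.cons ⟨mul_mem hx h1, h5⟩ ⟨h3, h4⟩ hl.tail,
            r, hr, ?_⟩
          rw [evP_cons, evP_cons]; group
    · refine ⟨1, one_mem _, (x, v) :: l, Good.cons ⟨hx, hx1⟩ ⟨hv, hv1⟩ hl, r, hr, ?_⟩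
      rw [evP_cons]; group

lemma exists_BF (g : FreeGroup ι) : BF c g := by
  rw [← FreeGroup.mk_toWord (x := g)]
  generalize g.toWord = L
  induction L with
  | nil => exact ⟨1, one_mem _, [], by intro p hp; simp at hp, 1, one_mem _, by simp; rfl⟩
  | cons p L ih =>
    have e : FreeGroup.mk (p :: L) = FreeGroup.mk [p] * FreeGroup.mk L := by
      rw [FreeGroup.mul_mk]; rfl
    rw [e]
    refine BF_mul_left (b := c p.1) ?_ ih
    rw [mem_col]
    intro q hq
    rw [FreeGroup.toWord_mk, FreeGroup.reduce_singleton] at hq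
    simp at hq
    rw [hq]

/-- conjugate normal form -/
def CF (c : ι → Bool) (g : FreeGroup ι) : Prop :=
  ∃ h, IsConj g h ∧ (h ∈ Col c true ∨ h ∈ Col c false ∨ ∃ l, Good c l ∧ l ≠ [] ∧ h = evP l)

lemma CF_of_isConj {g g' : FreeGroup ι} (h : IsConj g g') (hg : CF c g') : CF c g := by
  obtain ⟨z, hz, h1⟩ := hg
  exact ⟨z, h.trans hz, h1⟩

lemma isConj_mul_comm {G : Type} [Group G] (a b : G) : IsConj (a * b) (b * a) :=
  isConj_iff.mpr ⟨b, by group⟩

lemma CF_aux (n : ℕ) : ∀ (l : List (FreeGroup ι × FreeGroup ι)), l.length = n → Good c l →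
    ∀ g, (g ∈ Col c true ∨ g ∈ Col c false) → CF c (g * evP l) := by
  induction n with
  | zero =>
    intro l hl _ g hg
    have : l = [] := List.length_eq_zero_iff.mp hl
    subst this
    refine ⟨g, by rw [evP_nil, mul_one], ?_⟩
    rcases hg with hg | hg
    · exact Or.inl hg
    · exact Or.inr (Or.inl hg)
  | succ n ih =>
    intro l hl hG g hg
    rcases hg with hg | hg
    · obtain ⟨p, l', rfl⟩ : ∃ p l', l = p :: l' := by
        cases l with
        | nil => simp at hl
        | cons p l' => exact ⟨p, l', rfl⟩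
      obtain ⟨⟨h1, h2⟩, h3, h4⟩ := hG p (by simp)
      by_cases h5 : g * p.1 = 1
      · have e : g * evP (p :: l') = p.2 * evP l' := by
          rw [evP_cons]
          have : g * (p.1 * p.2 * evP l') = (g * p.1) * (p.2 * evP l') := by group
          rw [this, h5, one_mul]
        rw [e]
        exact ih l' (by simpa using hl) hG.tail _ (Or.inr h3)
      · refine ⟨evP ((g * p.1, p.2) :: l'), ?_, Or.inr (Or.inr ⟨(g * p.1, p.2) :: l',
          Good.cons ⟨mul_mem hg h1, h5⟩ ⟨h3, h4⟩ hG.tail, by simp, rfl⟩)⟩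
        have e : g * evP (p :: l') = evP ((g * p.1, p.2) :: l') := by
          rw [evP_cons, evP_cons]; group
        rw [e]
    · have hne : l ≠ [] := by rintro rfl; simp at hl
      obtain ⟨l', p, rfl⟩ : ∃ l' p, l = l' ++ [p] :=
        ⟨l.dropLast, l.getLast hne, (List.dropLast_append_getLast hne).symm⟩
      obtain ⟨⟨h1, h2⟩, h3, h4⟩ := hG p (by simp)
      by_cases h5 : p.2 * g = 1
      · have e1 : IsConj (g * evP (l' ++ [p])) (p.1 * evP l') := by
          have hg' : g = p.2⁻¹ := by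
            rw [eq_comm, inv_eq_iff_mul_eq_one]; exact h5
          refine isConj_iff.mpr ⟨p.1 * p.2, ?_⟩
          rw [evP_append, evP_cons, evP_nil, hg']; group
        refine CF_of_isConj e1 (ih l' (by simpa using hl) hG.left _ (Or.inl h1))
      · refine ⟨evP (l' ++ [(p.1, p.2 * g)]), ?_, Or.inr (Or.inr ⟨l' ++ [(p.1, p.2 * g)],
          hG.left.append (Good.cons ⟨h1, h2⟩ ⟨mul_mem h3 hg, h5⟩ Good.nil),
          by simp, rfl⟩)⟩
        refine isConj_iff.mpr ⟨g⁻¹, ?_⟩
        rw [evP_append, evP_append, evP_cons, evP_cons, evP_nil]; group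

lemma exists_CF (g : FreeGroup ι) : CF c g := by
  obtain ⟨v, hv, l, hl, r, hr, rfl⟩ := exists_BF (c := c) g
  have e : IsConj (v * (evP l * r)) (r * v * evP l) := isConj_iff.mpr ⟨r, by group⟩
  refine CF_of_isConj e ?_
  by_cases h1 : r = 1
  · subst h1
    rw [one_mul]
    exact CF_aux _ l rfl hl v (Or.inr hv)
  by_cases h2 : v = 1
  · subst h2
    rw [mul_one]
    exact CF_aux _ l rfl hl r (Or.inl hr)
  refine ⟨evP ((r, v) :: l), by rw [evP_cons], Or.inr (Or.inr ⟨(r, v) :: l,
    Good.cons ⟨hr, h1⟩ ⟨hv, h2⟩ hl, by simp, rfl⟩)⟩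

/-! ### lengths -/

lemma norm_evP {l : List (FreeGroup ι × FreeGroup ι)} (hl : Good c l) :
    FreeGroup.norm (evP l) = (l.map fun p => FreeGroup.norm p.1 + FreeGroup.norm p.2).sum := by
  have h := (evP_word hl (one_mem (Col c true))).1
  rw [mul_one] at h
  unfold FreeGroup.norm
  rw [h, FreeGroup.toWord_one, List.append_nil, List.length_flatMap]
  simp

lemma norm_pow_le (z : FreeGroup ι) (n : ℕ) : FreeGroup.norm (z ^ n) ≤ n * FreeGroup.norm z := by
  induction n with
  | zero => simp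
  | succ n ih =>
    rw [pow_succ]
    refine (FreeGroup.norm_mul_le _ _).trans ?_
    rw [Nat.succ_mul]
    omega

lemma evP_pow (l : List (FreeGroup ι × FreeGroup ι)) (n : ℕ) :
    evP l ^ n = evP (List.replicate n l).flatten := by
  induction n with
  | zero => simp
  | succ n ih => rw [pow_succ', List.replicate_succ, List.flatten_cons, evP_append, ih]

lemma norm_evP_pow {l : List (FreeGroup ι × FreeGroup ι)} (hl : Good c l) (n : ℕ) :
    FreeGroup.norm (evP l ^ n) = n * FreeGroup.norm (evP l) := by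
  have hG : Good c (List.replicate n l).flatten := by
    intro p hp
    rw [List.mem_flatten] at hp
    obtain ⟨l', hl', hp⟩ := hp
    rw [List.eq_of_mem_replicate hl'] at hp
    exact hl p hp
  rw [evP_pow, norm_evP hG, norm_evP hl, List.map_flatten, List.sum_flatten]
  simp

lemma norm_le_of_isConj {l : List (FreeGroup ι × FreeGroup ι)} (hl : Good c l)
    {z : FreeGroup ι} (h : IsConj z (evP l)) : FreeGroup.norm (evP l) ≤ FreeGroup.norm z := by
  obtain ⟨g, hg⟩ := isConj_iff.mp h
  by_contra hlt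
  rw [not_le] at hlt
  have key : ∀ n : ℕ, n * FreeGroup.norm (evP l) ≤ n * FreeGroup.norm z + 2 * FreeGroup.norm g := by
    intro n
    rw [← norm_evP_pow hl, ← hg, conj_pow]
    have h1 := FreeGroup.norm_mul_le (g * z ^ n) g⁻¹
    have h2 := FreeGroup.norm_mul_le g (z ^ n)
    have h3 := norm_pow_le z n
    rw [FreeGroup.norm_inv_eq] at h1
    omega
  have h1 := key (2 * FreeGroup.norm g + 1)
  have h2 : (2 * FreeGroup.norm g + 1) * (FreeGroup.norm z + 1) ≤
      (2 * FreeGroup.norm g + 1) * FreeGroup.norm (evP l) :=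
    Nat.mul_le_mul_left _ hlt
  rw [Nat.mul_add] at h2
  omega

/-! ### periodicity -/

lemma periodic_of_bounded [Finite ι] {φ : MulAut (FreeGroup ι)} {a : FreeGroup ι} {L : ℕ}
    (h : ∀ n : ℕ, FreeGroup.norm ((φ ^ n) a) ≤ L) : ∃ k : ℕ, 0 < k ∧ (φ ^ k) a = a := by
  have hfin : {g : FreeGroup ι | FreeGroup.norm g ≤ L}.Finite := by
    have h1 : {l : List (ι × Bool) | l.length ≤ L}.Finite := List.finite_length_le _ L
    exact Set.Finite.preimage (f := toWord) (FreeGroup.toWord_injective.injOn) h1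
  have hmaps : Set.MapsTo (fun n : ℕ => (φ ^ n) a) Set.univ
      {g : FreeGroup ι | FreeGroup.norm g ≤ L} :=
    fun n _ => h n
  obtain ⟨m, _, n, _, hmn, he⟩ := Set.infinite_univ.exists_ne_map_eq_of_mapsTo hmaps hfin
  have key : ∀ m n : ℕ, m < n → (φ ^ m) a = (φ ^ n) a → ∃ k : ℕ, 0 < k ∧ (φ ^ k) a = a := by
    intro m n hlt he
    refine ⟨n - m, Nat.sub_pos_of_lt hlt, ?_⟩
    have h2 : φ ^ n = φ ^ m * φ ^ (n - m) := by rw [← pow_add]; congr 1; omega
    rw [h2, MulAut.mul_apply] at he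
    exact ((φ ^ m).injective he).symm
  rcases lt_or_gt_of_ne hmn with hlt | hlt
  · exact key m n hlt he
  · exact key n m hlt he.symm

lemma pow_mem_col {b : Bool} {φ : MulAut (FreeGroup ι)} (h : ∀ a ∈ Col c b, φ a ∈ Col c b)
    (n : ℕ) {a : FreeGroup ι} (ha : a ∈ Col c b) : (φ ^ n) a ∈ Col c b := by
  induction n with
  | zero => simpa using ha
  | succ n ih => rw [pow_succ', MulAut.mul_apply]; exact h _ ih

lemma aut_evP (φ : MulAut (FreeGroup ι)) (l : List (FreeGroup ι × FreeGroup ι)) :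
    φ (evP l) = evP (l.map fun p => (φ p.1, φ p.2)) := by
  induction l with
  | nil => simp
  | cons p l ih => rw [evP_cons, List.map_cons, evP_cons, map_mul, map_mul, ih]

lemma Good.map {φ : MulAut (FreeGroup ι)} (hT : ∀ a ∈ Col c true, φ a ∈ Col c true)
    (hF : ∀ a ∈ Col c false, φ a ∈ Col c false) {l : List (FreeGroup ι × FreeGroup ι)}
    (hl : Good c l) : Good c (l.map fun p => (φ p.1, φ p.2)) := by
  intro q hq
  obtain ⟨p, hp, rfl⟩ := List.mem_map.mp hq
  obtain ⟨⟨h1, h2⟩, h3, h4⟩ := hl p hp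
  exact ⟨⟨hT _ h1, fun h => h2 ((MulEquiv.map_eq_one_iff φ).mp h)⟩,
    hF _ h3, fun h => h4 ((MulEquiv.map_eq_one_iff φ).mp h)⟩

lemma isConj_pow_aut {φ : MulAut (FreeGroup ι)} {w : FreeGroup ι} (h : IsConj w (φ w)) (n : ℕ) :
    IsConj w ((φ ^ n) w) := by
  induction n with
  | zero => rw [pow_zero, MulAut.one_apply]
  | succ n ih =>
    rw [pow_succ, MulAut.mul_apply]
    exact ih.trans (MonoidHom.map_isConj (φ ^ n).toMonoidHom h)

/-- Lemma A -/
lemma blocks_periodic [Finite ι] {φ : MulAut (FreeGroup ι)}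
    (hT : ∀ a ∈ Col c true, φ a ∈ Col c true) (hF : ∀ a ∈ Col c false, φ a ∈ Col c false)
    {l : List (FreeGroup ι × FreeGroup ι)} (hl : Good c l) (h : IsConj (evP l) (φ (evP l))) :
    ∀ p ∈ l, (∃ k : ℕ, 0 < k ∧ (φ ^ k) p.1 = p.1) ∧ (∃ k : ℕ, 0 < k ∧ (φ ^ k) p.2 = p.2) := by
  have key : ∀ n : ℕ, ∀ p ∈ l, FreeGroup.norm ((φ ^ n) p.1) + FreeGroup.norm ((φ ^ n) p.2) ≤
      FreeGroup.norm (evP l) := by
    intro n p hp
    have h1 := isConj_pow_aut h n
    rw [aut_evP] at h1
    have hG : Good c (l.map fun p => ((φ ^ n) p.1, (φ ^ n) p.2)) :=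
      hl.map (fun a ha => pow_mem_col hT n ha) (fun a ha => pow_mem_col hF n ha)
    have h2 := norm_le_of_isConj hG h1
    rw [norm_evP hG, List.map_map] at h2
    refine le_trans ?_ h2
    refine List.single_le_sum (by simp) _ ?_
    rw [List.mem_map]
    exact ⟨p, hp, rfl⟩
  intro p hp
  refine ⟨periodic_of_bounded (L := FreeGroup.norm (evP l)) fun n => ?_,
    periodic_of_bounded (L := FreeGroup.norm (evP l)) fun n => ?_⟩
  · have := key n p hp; omega
  · have := key n p hp; omega

/-! ### Lemma B -/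

/-- exponent sum -/
def esum : FreeGroup ι →* Multiplicative ℤ := FreeGroup.lift fun _ => Multiplicative.ofAdd 1

lemma esum_of (i : ι) : esum (of i) = Multiplicative.ofAdd 1 := FreeGroup.lift_apply_of

lemma esum_zpow (i : ι) (K : ℤ) : esum (of i ^ K) = Multiplicative.ofAdd K := by
  rw [map_zpow, esum_of, ← ofAdd_zsmul, smul_eq_mul, mul_one]

lemma zpow_of_ne_one (y : ι) {K : ℤ} (hK : K ≠ 0) : (of y) ^ K ≠ (1 : FreeGroup ι) := by
  intro h
  have h1 := congrArg esum h
  rw [esum_zpow, map_one] at h1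
  exact hK (Multiplicative.ofAdd.injective h1)

/-- Lemma B -/
lemma lemmaB {y : ι} (hy : c y = false) (hc : ∀ i, c i = false → i = y)
    (Θ : FreeGroup ι →* FreeGroup ι) (hinj : Function.Injective Θ)
    (hΘ : ∀ a ∈ Col c true, Θ a ∈ Col c true) (hΘy : Θ (of y) = of y) {u : FreeGroup ι} {K : ℤ}
    (hK : K ≠ 0) (hu : u = of y ^ K * Θ u * (of y ^ K)⁻¹) : u ∈ Subgroup.zpowers (of y) := by
  have hcol : ∀ g ∈ Col c false, g ∈ Subgroup.zpowers (of y) :=
    col_induction fun i hi => by rw [hc i hi]; exact Subgroup.mem_zpowers _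
  have hfix : ∀ g ∈ Col c false, Θ g = g := by
    intro g hg
    obtain ⟨n, rfl⟩ := Subgroup.mem_zpowers_iff.mp (hcol g hg)
    rw [map_zpow, hΘy]
  have hyc : ∀ n : ℤ, of y ^ n ∈ Col c false := fun n => zpow_mem (of_mem_col hy) n
  have hneq : ∀ {a : FreeGroup ι}, a ≠ 1 → Θ a ≠ 1 := fun h h' => h (hinj (by rw [h', map_one]))
  have hmap1 : ∀ l : List (FreeGroup ι × FreeGroup ι), Good c l →
      Good c (l.map fun p => (Θ p.1, p.2)) ∧ Θ (evP l) = evP (l.map fun p => (Θ p.1, p.2)) := by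
    intro l hl
    constructor
    · intro q hq
      obtain ⟨p, hp, rfl⟩ := List.mem_map.mp hq
      obtain ⟨⟨h1, h2⟩, h3, h4⟩ := hl p hp
      exact ⟨⟨hΘ _ h1, hneq h2⟩, h3, h4⟩
    · induction l with
      | nil => simp
      | cons p l ih =>
        rw [evP_cons, List.map_cons, evP_cons, map_mul, map_mul, ih hl.tail,
          hfix p.2 (hl p (by simp)).2.1]
  obtain ⟨v, hv, l, hl, r, hr, he⟩ := exists_BF (c := c) u
  by_cases htriv : l = [] ∧ r = 1
  · obtain ⟨rfl, rfl⟩ := htriv
    rw [he]; simpa using hcol v hv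
  exfalso
  have hlead : lead c u = v.toWord := by
    rw [he]; exact lead_mul hv (evP_word hl hr).2
  have hKy : (of y ^ K)⁻¹ ≠ (1 : FreeGroup ι) := by
    rw [ne_eq, inv_eq_one]; exact zpow_of_ne_one y hK
  have hKc : (of y ^ K)⁻¹ ∈ Col c false := inv_mem (hyc K)
  -- block form of the right hand side
  obtain ⟨l', hl', r', hr', he'⟩ : ∃ l', Good c l' ∧ ∃ r' ∈ Col c true,
      Θ (evP l * r) * (of y ^ K)⁻¹ = evP l' * r' := by
    by_cases hr1 : r = 1
    · subst hr1
      have hne : l ≠ [] := fun h => htriv ⟨h, rfl⟩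
      obtain ⟨l0, p, rfl⟩ : ∃ l' p, l = l' ++ [p] :=
        ⟨l.dropLast, l.getLast hne, (List.dropLast_append_getLast hne).symm⟩
      obtain ⟨⟨h1, h2⟩, h3, h4⟩ := hl p (by simp)
      obtain ⟨g1, g2⟩ := hmap1 l0 hl.left
      have hp1 : Θ p.1 ∈ Col c true ∧ Θ p.1 ≠ 1 :=
        ⟨hΘ _ h1, hneq h2⟩
      by_cases h5 : p.2 * (of y ^ K)⁻¹ = 1
      · refine ⟨_, g1, Θ p.1, hp1.1, ?_⟩
        rw [evP_append, evP_cons, evP_nil, mul_one, mul_one, map_mul, g2, map_mul, hfix p.2 h3]
        have : ∀ a b d e : FreeGroup ι, a * (b * d) * e = a * b * (d * e) := by intros; group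
        rw [this, h5, mul_one]
      · refine ⟨_ ++ [(Θ p.1, p.2 * (of y ^ K)⁻¹)], g1.append (Good.cons hp1
          ⟨mul_mem h3 hKc, h5⟩ Good.nil), 1, one_mem _, ?_⟩
        rw [evP_append, evP_cons, evP_nil, mul_one, mul_one, map_mul, g2, map_mul, hfix p.2 h3,
          evP_append, evP_cons, evP_nil]
        group
    · obtain ⟨g1, g2⟩ := hmap1 l hl
      refine ⟨_ ++ [(Θ r, (of y ^ K)⁻¹)], g1.append (Good.cons
        ⟨hΘ _ hr, hneq hr1⟩ ⟨hKc, hKy⟩ Good.nil), 1, one_mem _, ?_⟩
      rw [map_mul, g2, evP_append, evP_cons, evP_nil]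
      group
  have hlead' : lead c u = (of y ^ K * v).toWord := by
    have e : u = (of y ^ K * v) * (evP l' * r') := by
      rw [← he']
      conv_lhs => rw [hu, he]
      rw [map_mul, hfix v hv]
      group
    rw [e]
    exact lead_mul (mul_mem (hyc K) hv) (evP_word hl' hr').2
  rw [hlead] at hlead'
  have h6 := FreeGroup.toWord_injective hlead'
  have h7 : of y ^ K = (1 : FreeGroup ι) := by
    have : 1 * v = of y ^ K * v := by rw [one_mul]; exact h6
    exact (mul_right_cancel this).symm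
  exact zpow_of_ne_one y hK h7

end Blocks

end Pool.Agent.BraidSliding
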