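import Pool.Agent.BraidSliding.Twists

set_option autoImplicit false

namespace Pool.Agent.BraidSliding

open FreeGroup (of lift lift_apply_of)

/-! ### centralisers -/

/-- change of basis sending `x_a x_b` to `x_a` -/
def ηf (a b : Fin 5) : FreeGroup (Fin 5) →* FreeGroup (Fin 5) :=
  lift fun i => if i = a then of a * (of b)⁻¹ else of i
def ηg (a b : Fin 5) : FreeGroup (Fin 5) →* FreeGroup (Fin 5) :=
  lift fun i => if i = a then of a * of b else of i

lemma ηf_of (a b i : Fin 5) : ηf a b (of i) = if i = a then of a * (of b)⁻¹ else of i :=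
  lift_apply_of
lemma ηg_of (a b i : Fin 5) : ηg a b (of i) = if i = a then of a * of b else of i :=
  lift_apply_of

lemma ηfg {a b : Fin 5} (hab : a ≠ b) : (ηf a b).comp (ηg a b) = MonoidHom.id _ := by
  ext i
  rw [MonoidHom.comp_apply, MonoidHom.id_apply, ηg_of]
  by_cases h : i = a
  · subst h
    rw [if_pos rfl, map_mul, ηf_of, ηf_of, if_pos rfl, if_neg hab.symm, inv_mul_cancel_right]
  · rw [if_neg h, ηf_of, if_neg h]

lemma ηgf {a b : Fin 5} (hab : a ≠ b) : (ηg a b).comp (ηf a b) = MonoidHom.id _ := by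
  ext i
  rw [MonoidHom.comp_apply, MonoidHom.id_apply, ηf_of]
  by_cases h : i = a
  · subst h
    rw [if_pos rfl, map_mul, map_inv, ηg_of, ηg_of, if_pos rfl, if_neg hab.symm,
      mul_inv_cancel_right]
  · rw [if_neg h, ηg_of, if_neg h]

lemma centr {a b : Fin 5} (hab : a ≠ b) {g : FreeGroup (Fin 5)} {k : ℤ} (hk : k ≠ 0)
    (h : g = (of a * of b) ^ k * g * ((of a * of b) ^ k)⁻¹) :
    g ∈ Subgroup.zpowers (of a * of b) := by
  have e : ηf a b (of a * of b) = of a := by
    rw [map_mul, ηf_of, ηf_of, if_pos rfl, if_neg hab.symm, inv_mul_cancel_right]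
  have h1 : ηf a b g ∈ Subgroup.zpowers (of a) := by
    refine lemmaB (c := fun i => decide (i ≠ a)) (y := a) (by simp) (by simp) (MonoidHom.id _)
      (fun _ _ h => h) (fun _ h => h) rfl hk ?_
    have := congrArg (ηf a b) h
    rw [map_mul, map_mul, map_inv, map_zpow, e] at this
    exact this
  obtain ⟨n, hn⟩ := Subgroup.mem_zpowers_iff.mp h1
  refine Subgroup.mem_zpowers_iff.mpr ⟨n, ?_⟩
  have h2 : ηg a b (ηf a b g) = g := DFunLike.congr_fun (ηgf hab) g
  rw [← h2, ← hn, map_zpow, ηg_of, if_pos rfl]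

/-- change of basis sending `δ` to `x_2` -/
def κf : FreeGroup (Fin 5) →* FreeGroup (Fin 5) :=
  lift fun i => if i = 2 then (of 0 * of 1)⁻¹ * of 2 else of i
def κg : FreeGroup (Fin 5) →* FreeGroup (Fin 5) :=
  lift fun i => if i = 2 then of 0 * of 1 * of 2 else of i

lemma κf_of (i : Fin 5) : κf (of i) = if i = 2 then (of 0 * of 1)⁻¹ * of 2 else of i :=
  lift_apply_of
lemma κg_of (i : Fin 5) : κg (of i) = if i = 2 then of 0 * of 1 * of 2 else of i :=
  lift_apply_of

lemma κfg : κf.comp κg = MonoidHom.id _ := by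
  ext i
  rw [MonoidHom.comp_apply, MonoidHom.id_apply, κg_of]
  by_cases h : i = 2
  · subst h
    rw [if_pos rfl, map_mul, map_mul, κf_of, κf_of, κf_of, if_neg (by decide),
      if_neg (by decide), if_pos rfl, mul_inv_cancel_left]
  · rw [if_neg h, κf_of, if_neg h]

lemma κgf : κg.comp κf = MonoidHom.id _ := by
  ext i
  rw [MonoidHom.comp_apply, MonoidHom.id_apply, κf_of]
  by_cases h : i = 2
  · subst h
    rw [if_pos rfl, map_mul, map_inv, map_mul, κg_of, κg_of, κg_of, if_neg (by decide),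
      if_neg (by decide), if_pos rfl, inv_mul_cancel_left]
  · rw [if_neg h, κg_of, if_neg h]

def c2 (i : Fin 5) : Bool := decide (i ≠ 2)

lemma κf_fix : ∀ g ∈ Col c2 true, κf g = g := by
  have h : Col c2 true ≤ MonoidHom.eqLocus κf (MonoidHom.id _) := by
    refine col_induction fun i hi => ?_
    change κf (of i) = of i
    rw [κf_of, if_neg]
    revert i; decide
  exact fun g hg => h hg

lemma colB_le_c2 : Col cB true ≤ Col c2 true := by
  refine col_induction fun i hi => of_mem_col ?_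
  revert i; decide

lemma per_δ {g : FreeGroup (Fin 5)} (hg : g ∈ Col cA true) {n : ℕ} (hn : 0 < n)
    (h : (φ ^ n) g = g) : g ∈ Subgroup.zpowers δ := by
  rw [φ_pow_true n g hg] at h
  have hf : ∀ z, κf (κg z) = z := fun z => DFunLike.congr_fun κfg z
  have hf' : ∀ z, κg (κf z) = z := fun z => DFunLike.congr_fun κgf z
  have e : κf δ = of 2 := by
    have := hf (of 2)
    rw [κg_of, if_pos rfl] at this
    exact this
  have e' : κg (of 2) = δ := by rw [κg_of, if_pos rfl]; rfl
  let Θ : FreeGroup (Fin 5) →* FreeGroup (Fin 5) := (κf.comp (τ ^ n).toMonoidHom).comp κg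
  have hΘ : ∀ z, Θ z = κf ((τ ^ n) (κg z)) := fun z => rfl
  have h1 : κf g ∈ Subgroup.zpowers (of (2 : Fin 5)) := by
    refine lemmaB (c := c2) (y := 2) (by decide) (by decide) Θ ?_ ?_ ?_
      (K := 4 * n) (by omega) ?_
    · intro z z' hz
      rw [hΘ, hΘ] at hz
      have h2 := congrArg κg hz
      rw [hf', hf'] at h2
      have h3 := (τ ^ n).injective h2
      have h4 := congrArg κf h3
      rwa [hf, hf] at h4
    · have : Col c2 true ≤ Subgroup.comap Θ (Col c2 true) := by
        refine col_induction fun i hi => ?_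
        rw [Subgroup.mem_comap, hΘ]
        have hi2 : i ≠ 2 := by simpa [c2] using hi
        rw [κg_of, if_neg hi2]
        by_cases hB : cB i = true
        · have h5 : (τ ^ n) (of i) ∈ Col cB true := by
            have h6 := conj_pow_on (inv_mem γ_mem) τ_true n (of i) (of_mem_col hB)
            rw [h6]
            have h7 : (γ⁻¹) ^ n ∈ Col cB true := pow_mem (inv_mem γ_mem) n
            exact mul_mem (mul_mem h7 (of_mem_col hB)) (inv_mem h7)
          rw [κf_fix _ (colB_le_c2 h5)]
          exact colB_le_c2 h5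
        · rw [id_pow_on τ_false n (of i) (of_mem_col (by simpa using hB)), κf_of, if_neg hi2]
          exact of_mem_col hi
      exact fun a ha => this ha
    · rw [hΘ, e', τ_pow_δ, e]
    · have h2 : (of (2 : Fin 5)) ^ (4 * (n : ℤ)) = κf ((δ ^ 4) ^ n) := by
        rw [map_pow, map_pow, e, zpow_mul, zpow_natCast]
        rfl
      rw [h2, hΘ, hf', ← map_mul, ← map_inv, ← map_mul, h]
  obtain ⟨m, hm⟩ := Subgroup.mem_zpowers_iff.mp h1
  refine Subgroup.mem_zpowers_iff.mpr ⟨m, ?_⟩
  rw [← hf' g, ← hm, map_zpow, e']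

lemma per_ε {g : FreeGroup (Fin 5)} (hg : g ∈ Col cA false) {n : ℕ} (hn : 0 < n)
    (h : (φ ^ n) g = g) : g ∈ Subgroup.zpowers ε := by
  rw [φ_pow_false n g hg] at h
  refine centr (a := 3) (b := 4) (by decide) (k := 7 * n) (by omega) ?_
  have e : (of (3 : Fin 5) * of 4) ^ (7 * (n : ℤ)) = (ε ^ 7) ^ n := by
    rw [zpow_mul, zpow_natCast]
    rfl
  rw [e, h]

lemma per_γ {g : FreeGroup (Fin 5)} (hg : g ∈ Col cB true) {n : ℕ} (hn : 0 < n)
    (h : (τ ^ n) g = g) : g ∈ Subgroup.zpowers γ := by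
  rw [conj_pow_on (inv_mem γ_mem) τ_true n g hg] at h
  refine centr (a := 0) (b := 1) (by decide) (k := -(n : ℤ)) (by omega) ?_
  have e : (of (0 : Fin 5) * of 1) ^ (-(n : ℤ)) = (γ⁻¹) ^ n := by
    rw [zpow_neg, zpow_natCast, inv_pow]
    rfl
  rw [e, h]

/-! ### inner level -/

/-- inclusion and retraction for the first three punctures -/
def j3 : FreeGroup (Fin 3) →* FreeGroup (Fin 5) := lift fun i => of (Fin.castLE (by omega) i)
def r3 : FreeGroup (Fin 5) →* FreeGroup (Fin 3) :=
  lift fun i => if h : i.val < 3 then of ⟨i.val, h⟩ else 1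

lemma j3_of (i : Fin 3) : j3 (of i) = of (Fin.castLE (by omega) i) := lift_apply_of
lemma r3_of (i : Fin 5) : r3 (of i) = if h : i.val < 3 then of ⟨i.val, h⟩ else 1 := lift_apply_of

lemma r3_j3 (g : FreeGroup (Fin 3)) : r3 (j3 g) = g := by
  have : r3.comp j3 = MonoidHom.id _ := by
    ext i
    rw [MonoidHom.comp_apply, j3_of, r3_of]
    simp
  exact DFunLike.congr_fun this g

lemma j3_r3 : ∀ g ∈ Col cA true, j3 (r3 g) = g := by
  have h : Col cA true ≤ MonoidHom.eqLocus (j3.comp r3) (MonoidHom.id _) := by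
    refine col_induction fun i hi => ?_
    change j3 (r3 (of i)) = of i
    have hi3 : i.val < 3 := by
      unfold cA at hi
      have := of_decide_eq_true hi
      omega
    rw [r3_of, dif_pos hi3, j3_of]
    rfl
  exact fun g hg => h hg

lemma j3_mem (g : FreeGroup (Fin 3)) : j3 g ∈ Col cA true := by
  have h : Col (fun _ : Fin 3 => true) true ≤ Subgroup.comap j3 (Col cA true) := by
    refine col_induction fun i _ => ?_
    rw [Subgroup.mem_comap, j3_of]
    refine of_mem_col ?_
    revert i; decide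
  exact h (mem_col.mpr fun _ _ => rfl)

/-- artin automorphism of rank three -/
def B3 : MulAut (FreeGroup (Fin 3)) := artinAut (n := 3) (0 : Fin 2)

lemma j3_B3 (g : FreeGroup (Fin 3)) : j3 (B3 g) = artin 5 (s 0) (j3 g) := by
  have : j3.comp B3.toMonoidHom = (artin 5 (s 0)).toMonoidHom.comp j3 := by
    ext i
    change j3 (B3 (of i)) = artin 5 (s 0) (j3 (of i))
    unfold B3
    rw [artinAut_apply, lift_apply_of, j3_of, artin_s_of]
    fin_cases i
    · simp [artinFun, lo, hi, j3_of]
    · simp [artinFun, lo, hi, j3_of]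
    · simp [artinFun, lo, hi, j3_of]
  exact DFunLike.congr_fun this g

/-- inner factor in rank three -/
def τ3 : MulAut (FreeGroup (Fin 3)) := (B3 ^ 2)⁻¹

lemma j3_τ3 (g : FreeGroup (Fin 3)) : j3 (τ3 g) = τ (j3 g) := by
  apply T0.injective
  unfold τ τ3
  rw [MulAut.apply_inv_self, T0_apply, ← j3_B3, ← j3_B3]
  have : B3 (B3 ((B3 ^ 2)⁻¹ g)) = (B3 ^ 2 * (B3 ^ 2)⁻¹) g := by
    rw [pow_two, MulAut.mul_apply, MulAut.mul_apply]
  rw [this, mul_inv_cancel, MulAut.one_apply]

lemma j3_τ3_pow (n : ℕ) (g : FreeGroup (Fin 3)) : j3 ((τ3 ^ n) g) = (τ ^ n) (j3 g) := by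
  induction n generalizing g with
  | zero => simp
  | succ n ih => rw [pow_succ, MulAut.mul_apply, ih, j3_τ3, pow_succ, MulAut.mul_apply]

def cB3 (i : Fin 3) : Bool := decide (i.val ≤ 1)

lemma j3_true : ∀ g ∈ Col cB3 true, j3 g ∈ Col cB true := by
  have h : Col cB3 true ≤ Subgroup.comap j3 (Col cB true) := by
    refine col_induction fun i hi => ?_
    rw [Subgroup.mem_comap, j3_of]
    refine of_mem_col ?_
    revert i; decide
  exact fun g hg => h hg

lemma j3_false : ∀ g ∈ Col cB3 false, ∃ m : ℤ, j3 g = of 2 ^ m := by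
  have h : Col cB3 false ≤ Subgroup.comap j3 (Subgroup.zpowers (of 2)) := by
    refine col_induction fun i hi => ?_
    rw [Subgroup.mem_comap, j3_of]
    have : i = 2 := by revert i; decide
    subst this
    exact Subgroup.mem_zpowers _
  intro g hg
  obtain ⟨m, hm⟩ := Subgroup.mem_zpowers_iff.mp (h hg)
  exact ⟨m, hm.symm⟩

lemma colB_range : Col cB true ≤ (J 0 1).range := by
  refine col_induction fun i hi => ?_
  have : i = 0 ∨ i = 1 := by revert i; decide
  rcases this with rfl | rfl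
  · exact ⟨of 0, J_0 0 1⟩
  · exact ⟨of 1, J_1 0 1⟩

lemma colA_range : Col cA false ≤ (J 3 4).range := by
  refine col_induction fun i hi => ?_
  have : i = 3 ∨ i = 4 := by revert i; decide
  rcases this with rfl | rfl
  · exact ⟨of 0, J_0 3 4⟩
  · exact ⟨of 1, J_1 3 4⟩

/-- artin automorphism of rank three and the colours -/
lemma B3_true : ∀ g ∈ Col cB3 true, B3 g ∈ Col cB3 true := by
  have h : Col cB3 true ≤ Subgroup.comap B3.toMonoidHom (Col cB3 true) := by
    refine col_induction fun i hi => ?_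
    change B3 (of i) ∈ Col cB3 true
    unfold B3
    rw [artinAut_apply, lift_apply_of]
    have : i = 0 ∨ i = 1 := by revert i; decide
    rcases this with rfl | rfl
    · exact mul_mem (mul_mem (of_mem_col (by decide)) (of_mem_col (by decide)))
        (inv_mem (of_mem_col (by decide)))
    · exact of_mem_col (i := (0 : Fin 3)) (by decide)
  exact fun g hg => h hg

lemma B3_inv_true : ∀ g ∈ Col cB3 true, B3⁻¹ g ∈ Col cB3 true := by
  have h : Col cB3 true ≤ Subgroup.comap (B3⁻¹).toMonoidHom (Col cB3 true) := by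
    refine col_induction fun i hi => ?_
    change B3⁻¹ (of i) ∈ Col cB3 true
    unfold B3
    rw [artinAut_inv_apply, lift_apply_of]
    have : i = 0 ∨ i = 1 := by revert i; decide
    rcases this with rfl | rfl
    · exact of_mem_col (i := (1 : Fin 3)) (by decide)
    · exact mul_mem (mul_mem (inv_mem (of_mem_col (by decide))) (of_mem_col (by decide)))
        (of_mem_col (by decide))
  exact fun g hg => h hg

lemma B3_inv_false : ∀ g ∈ Col cB3 false, B3⁻¹ g = g := by
  have h : Col cB3 false ≤ MonoidHom.eqLocus (B3⁻¹).toMonoidHom (MonoidHom.id _) := by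
    refine col_induction fun i hi => ?_
    change B3⁻¹ (of i) = of i
    unfold B3
    rw [artinAut_inv_apply, lift_apply_of]
    have : i = 2 := by revert i; decide
    subst this
    rfl
  exact fun g hg => h hg

lemma τ3_apply (g : FreeGroup (Fin 3)) : τ3 g = B3⁻¹ (B3⁻¹ g) := by
  unfold τ3
  rw [pow_two, mul_inv_rev, MulAut.mul_apply]

lemma τ3_true : ∀ g ∈ Col cB3 true, τ3 g ∈ Col cB3 true := by
  intro g hg
  rw [τ3_apply]
  exact B3_inv_true _ (B3_inv_true _ hg)

lemma τ3_false : ∀ g ∈ Col cB3 false, τ3 g ∈ Col cB3 false := by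
  intro g hg
  rw [τ3_apply, B3_inv_false _ hg, B3_inv_false _ hg]
  exact hg

lemma j3_inj : Function.Injective j3 := fun a b h => by
  rw [← r3_j3 a, h, r3_j3]

lemma K_γ : K 0 2 γ = of 0 := by
  unfold γ; rw [map_mul, K_of, K_of]; simp
lemma K_δ : K 0 3 δ = of 0 := by
  unfold δ; rw [map_mul, map_mul, K_of, K_of, K_of]; simp
lemma K_ε : K 0 3 ε = of 1 := by
  unfold ε; rw [map_mul, K_of, K_of]; simp

lemma of_zpow_inj {ι : Type} [DecidableEq ι] {i : ι} {n m : ℤ} (h : (of i) ^ n = (of i : FreeGroup ι) ^ m) :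
    n = m := by
  have h1 := congrArg esum h
  rw [esum_zpow, esum_zpow] at h1
  exact Multiplicative.ofAdd.injective h1

lemma inner_level {h : FreeGroup (Fin 5)} (hh : h ∈ Col cA true) (hP : P h) (hM : Mid h) {N : ℕ}
    (hN : 0 < N) (hc : IsConj h ((τ ^ N) h)) : IsConj h γ ∨ IsConj h δ := by
  have hr : IsConj (r3 h) ((τ3 ^ N) (r3 h)) := by
    have h1 := MonoidHom.map_isConj r3 hc
    have h2 : r3 ((τ ^ N) h) = (τ3 ^ N) (r3 h) := by
      conv_lhs => rw [← j3_r3 h hh]
      rw [← j3_τ3_pow, r3_j3]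
    rwa [h2] at h1
  obtain ⟨z, hz, hcase⟩ := exists_CF (c := cB3) (r3 h)
  have hz' : IsConj h (j3 z) := by
    have := MonoidHom.map_isConj j3 hz
    rwa [j3_r3 h hh] at this
  have hPz : P (j3 z) := P_conj hz'.symm hP
  have hMz : Mid (j3 z) := Mid_conj hz'.symm hM
  rcases hcase with hz1 | hz1 | ⟨l, hl, hne, rfl⟩
  · left
    exact hz'.trans (two_letter (by decide) (colB_range (j3_true z hz1)) hPz hMz)
  · exfalso
    obtain ⟨m, hm⟩ := j3_false z hz1
    have hQ := hPz 0 2 (by decide)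
    have e : K 0 2 (of 2 : FreeGroup (Fin 5)) = of 1 := by rw [K_of]; simp
    rw [hm, map_zpow, e] at hQ
    have hm01 : m = 0 ∨ m = 1 := by
      rcases hQ with hq | hq | hq | hq
      · left
        have := esum_isConj hq
        rw [esum_zpow, map_one] at this
        exact Multiplicative.ofAdd.injective this
      · right
        have := esum_isConj hq
        rw [esum_zpow, esum_of] at this
        exact Multiplicative.ofAdd.injective this
      · right
        have := esum_isConj hq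
        rw [esum_zpow, esum_of] at this
        exact Multiplicative.ofAdd.injective this
      · exfalso
        have := e2_conj 0 hq
        rw [map_zpow, e2_ne (by decide), one_zpow, map_mul, e2_same, e2_ne (by decide),
          mul_one] at this
        have h3 : (0 : ℤ) = 1 := Multiplicative.ofAdd.injective this
        omega
    refine not_Mid (n := m) ?_ ?_ hMz
    · rw [hm, esum_zpow]
    · omega
  · right
    have hper : ∀ p ∈ l, (∃ n : ℤ, n ≠ 0 ∧ j3 p.1 = γ ^ n) ∧
        (∃ m : ℤ, m ≠ 0 ∧ j3 p.2 = of 2 ^ m) := by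
      have hT : ∀ a ∈ Col cB3 true, (τ3 ^ N) a ∈ Col cB3 true := fun a ha =>
        pow_mem_col τ3_true N ha
      have hF : ∀ a ∈ Col cB3 false, (τ3 ^ N) a ∈ Col cB3 false := fun a ha =>
        pow_mem_col τ3_false N ha
      have hcl : IsConj (evP l) ((τ3 ^ N) (evP l)) := by
        refine hz.symm.trans (hr.trans ?_)
        exact MonoidHom.map_isConj (τ3 ^ N).toMonoidHom hz
      have := blocks_periodic hT hF hl hcl
      intro p hp
      obtain ⟨⟨k, hk, h1⟩, -⟩ := this p hp
      obtain ⟨⟨g1, g2⟩, g3, g4⟩ := hl p hp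
      constructor
      · rw [← pow_mul] at h1
        have h2 : (τ ^ (N * k)) (j3 p.1) = j3 p.1 := by rw [← j3_τ3_pow, h1]
        obtain ⟨n, hn⟩ := Subgroup.mem_zpowers_iff.mp
          (per_γ (j3_true _ g1) (Nat.mul_pos hN hk) h2)
        refine ⟨n, ?_, hn.symm⟩
        rintro rfl
        apply g2
        apply j3_inj
        rw [← hn, zpow_zero, map_one]
      · obtain ⟨m, hm⟩ := j3_false _ g3
        refine ⟨m, ?_, hm⟩
        rintro rfl
        apply g4
        apply j3_inj
        rw [hm, zpow_zero, map_one]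
    have hev : j3 (evP l) = evP (l.map fun p => (j3 p.1, j3 p.2)) := by
      clear hper hPz hMz hz' hz hl hne
      induction l with
      | nil => simp
      | cons p l ih => rw [evP_cons, List.map_cons, evP_cons, map_mul, map_mul, ih]
    have e2' : K 0 2 (of 2 : FreeGroup (Fin 5)) = of 1 := by rw [K_of]; simp
    obtain ⟨p', hp', k1, k2⟩ := mixed (l := l.map fun p => (j3 p.1, j3 p.2)) (by simpa using hne)
      (a := 0) (b := 2) (by decide) (by rw [← hev]; exact hPz) (by
        intro q hq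
        obtain ⟨p, hp, rfl⟩ := List.mem_map.mp hq
        obtain ⟨⟨n, hn, h1⟩, m, hm, h2⟩ := hper p hp
        dsimp only
        rw [h1, h2, map_zpow, map_zpow, K_γ, e2']
        exact ⟨⟨n, hn, rfl⟩, m, hm, rfl⟩)
    have hmem : p' ∈ l.map fun p => (j3 p.1, j3 p.2) := by rw [hp']; simp
    obtain ⟨p, hp, rfl⟩ := List.mem_map.mp hmem
    obtain ⟨⟨n, hn, h1⟩, m, hm, h2⟩ := hper p hp
    dsimp only at k1 k2
    rw [h1, map_zpow, K_γ] at k1
    rw [h2, map_zpow, e2'] at k2
    have hn1 : n = 1 := of_zpow_inj (k1.trans (zpow_one _).symm)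
    have hm1 : m = 1 := of_zpow_inj (k2.trans (zpow_one _).symm)
    have : j3 (evP l) = δ := by
      rw [hev, hp', evP_cons, evP_nil, mul_one, h1, h2, hn1, hm1, zpow_one, zpow_one]
      rfl
    rw [this] at hz'
    exact hz'

/-- classification of the classes fixed by a power of `φ` -/
theorem classify {w : FreeGroup (Fin 5)} (hP : P w) (hM : Mid w) {N : ℕ} (hN : 0 < N)
    (hc : IsConj w ((φ ^ N) w)) : IsConj w γ ∨ IsConj w δ ∨ IsConj w ε := by
  obtain ⟨h, hh, hcase⟩ := exists_CF (c := cA) w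
  have hPh : P h := P_conj hh.symm hP
  have hMh : Mid h := Mid_conj hh.symm hM
  have hch : IsConj h ((φ ^ N) h) :=
    hh.symm.trans (hc.trans (MonoidHom.map_isConj (φ ^ N).toMonoidHom hh))
  rcases hcase with h1 | h1 | ⟨l, hl, hne, rfl⟩
  · have h2 : IsConj h ((τ ^ N) h) := by
      rw [φ_pow_true N h h1] at hch
      exact hch.trans (isConj_iff.mpr ⟨((δ ^ 4) ^ N)⁻¹, by group⟩)
    rcases inner_level h1 hPh hMh hN h2 with h3 | h3
    · exact Or.inl (hh.trans h3)
    · exact Or.inr (Or.inl (hh.trans h3))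
  · exact Or.inr (Or.inr (hh.trans (two_letter (by decide) (colA_range h1) hPh hMh)))
  · exfalso
    have hT : ∀ a ∈ Col cA true, (φ ^ N) a ∈ Col cA true := fun a ha =>
      pow_mem_col φ_cA_true N ha
    have hF : ∀ a ∈ Col cA false, (φ ^ N) a ∈ Col cA false := fun a ha =>
      pow_mem_col φ_cA_false N ha
    have hper : ∀ p ∈ l, (∃ n : ℤ, n ≠ 0 ∧ p.1 = δ ^ n) ∧ (∃ m : ℤ, m ≠ 0 ∧ p.2 = ε ^ m) := by
      intro p hp
      obtain ⟨⟨k, hk, e1⟩, k', hk', e2⟩ := blocks_periodic hT hF hl hch p hp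
      obtain ⟨⟨g1, g2⟩, g3, g4⟩ := hl p hp
      rw [← pow_mul] at e1 e2
      obtain ⟨n, hn⟩ := Subgroup.mem_zpowers_iff.mp (per_δ g1 (Nat.mul_pos hN hk) e1)
      obtain ⟨m, hm⟩ := Subgroup.mem_zpowers_iff.mp (per_ε g3 (Nat.mul_pos hN hk') e2)
      refine ⟨⟨n, ?_, hn.symm⟩, m, ?_, hm.symm⟩
      · rintro rfl; exact g2 (by rw [← hn, zpow_zero])
      · rintro rfl; exact g4 (by rw [← hm, zpow_zero])
    obtain ⟨p, rfl, k1, k2⟩ := mixed hne (a := 0) (b := 3) (by decide) hPh (by
      intro p hp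
      obtain ⟨⟨n, hn, h1⟩, m, hm, h2⟩ := hper p hp
      rw [h1, h2, map_zpow, map_zpow, K_δ, K_ε]
      exact ⟨⟨n, hn, rfl⟩, m, hm, rfl⟩)
    obtain ⟨⟨n, hn, h1⟩, m, hm, h2⟩ := hper p (by simp)
    rw [h1, map_zpow, K_δ] at k1
    rw [h2, map_zpow, K_ε] at k2
    have hn1 : n = 1 := of_zpow_inj (k1.trans (zpow_one _).symm)
    have hm1 : m = 1 := of_zpow_inj (k2.trans (zpow_one _).symm)
    refine not_Mid (n := 5) ?_ (by omega) hMh
    rw [evP_cons, evP_nil, mul_one, h1, h2, hn1, hm1, zpow_one, zpow_one]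
    unfold δ ε
    simp only [map_mul, esum_of]
    rfl

end Pool.Agent.BraidSliding
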