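import Mathlib

set_option autoImplicit false

namespace Pool.Agent.BraidSliding

/-- integral two by two matrices -/
abbrev Q4 : Type := ℤ × ℤ × ℤ × ℤ

def qm (A B : Q4) : Q4 :=
  (A.1 * B.1 + A.2.1 * B.2.2.1, A.1 * B.2.1 + A.2.1 * B.2.2.2,
    A.2.2.1 * B.1 + A.2.2.2 * B.2.2.1, A.2.2.1 * B.2.1 + A.2.2.2 * B.2.2.2)

def qi (A : Q4) : Q4 := (A.2.2.2, -A.2.1, -A.2.2.1, A.1)

def qt (A : Q4) : ℤ := A.1 + A.2.2.2

/-- Hurwitz move on labelled matrices -/
def stp : ℕ → List (ℕ × Q4) → List (ℕ × Q4)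
  | 0, (l, A) :: (l', B) :: t => (l', B) :: (l, qm (qi B) (qm A B)) :: t
  | k + 1, a :: t => a :: stp k t
  | _, t => t

/-- are the labels at the positions `k`, `k+1` increasing? -/
def alw : ℕ → List (ℕ × Q4) → Bool
  | 0, (l, _) :: (l', _) :: _ => decide (l < l')
  | k + 1, _ :: t => alw k t
  | _, _ => false

def get : ℕ → List (ℕ × Q4) → Q4
  | 0, (_, A) :: _ => A
  | k + 1, _ :: t => get k t
  | _, _ => (1, 0, 0, 1)

/-- value of a word -/
def vl (e : List (ℕ × Q4)) : List (ℕ × Bool) → Q4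
  | [] => (1, 0, 0, 1)
  | (i, true) :: w => qm (get i e) (vl e w)
  | (i, false) :: w => qm (qi (get i e)) (vl e w)

def M0 : List (ℕ × Q4) :=
  [(0, 3, 1, 11, 4), (1, 1, -2, 2, -3), (2, 3, 2, 1, 1), (3, 5, -7, -2, 3), (4, -2, 3, 5, -8)]

def w1 : List (ℕ × Bool) := [(0, true), (1, true), (2, true), (1, true), (2, false), (1, false)]
def w2 : List (ℕ × Bool) := [(2, true), (3, true), (2, false), (4, true)]
def w3 : List (ℕ × Bool) := [(0, true), (1, true), (0, false), (2, true)]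
def w4 : List (ℕ × Bool) := [(3, true), (4, false), (3, false), (2, true), (3, true), (4, true)]

def targets : List ℤ := [-29, 10, -121, 2, -13, 138, 7, -56, -75]

def okw (e : List (ℕ × Q4)) (w : List (ℕ × Bool)) : Bool := !(targets.contains (qt (vl e w)))

def chk (e : List (ℕ × Q4)) : Bool := okw e w1 && okw e w2 && okw e w3 && okw e w4

def ins (e : List (ℕ × Q4)) (L : List (List (ℕ × Q4))) : List (List (ℕ × Q4)) :=
  if L.contains e then L else e :: L

def one (k : ℕ) (e : List (ℕ × Q4)) (L : List (List (ℕ × Q4))) : List (List (ℕ × Q4)) :=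
  if alw k e then ins (stp k e) L else L

def nxt : List (List (ℕ × Q4)) → List (List (ℕ × Q4))
  | [] => []
  | e :: L => one 0 e (one 1 e (one 2 e (one 3 e (nxt L))))

def chkAll : ℕ → List (List (ℕ × Q4)) → Bool
  | 0, L => L.all chk
  | n + 1, L => L.all chk && chkAll n (nxt L)

theorem t10 : chkAll 10 [M0] = true := by decide +kernel

end Pool.Agent.BraidSliding
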