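import Pool.Agent.BraidSliding.Curves
import Pool.Agent.BraidSliding.Table

set_option autoImplicit false
set_option linter.unusedSimpArgs false

namespace Pool.Agent.BraidSliding

open FreeGroup (of lift lift_apply_of)
open Matrix (SpecialLinearGroup)

/-! ### a representation -/

/-- entries of a matrix -/
def Qm (g : SpecialLinearGroup (Fin 2) ℤ) : Q4 := (g.1 0 0, g.1 0 1, g.1 1 0, g.1 1 1)

lemma Qm_mul (g h : SpecialLinearGroup (Fin 2) ℤ) : Qm (g * h) = qm (Qm g) (Qm h) := by
  unfold Qm qm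
  simp [Matrix.mul_apply, Fin.sum_univ_two]

lemma Qm_inv (g : SpecialLinearGroup (Fin 2) ℤ) : Qm g⁻¹ = qi (Qm g) := by
  unfold Qm qi
  simp [SpecialLinearGroup.coe_inv, Matrix.adjugate_fin_two]

lemma Qm_one : Qm 1 = (1, 0, 0, 1) := by
  unfold Qm
  simp

lemma qt_conj (g h : SpecialLinearGroup (Fin 2) ℤ) : qt (Qm (h * g * h⁻¹)) = qt (Qm g) := by
  have key : ∀ g : SpecialLinearGroup (Fin 2) ℤ, qt (Qm g) = g.1.trace := by
    intro g
    unfold qt Qm
    rw [Matrix.trace_fin_two]
  rw [key, key]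
  have e : (h * g * h⁻¹ : SpecialLinearGroup (Fin 2) ℤ).1 = h.1 * g.1 * (h⁻¹).1 := by
    simp [SpecialLinearGroup.coe_mul]
  rw [e, Matrix.trace_mul_comm, ← mul_assoc]
  have e2 : (h⁻¹).1 * h.1 = 1 := congrArg Subtype.val (inv_mul_cancel h)
  rw [e2, one_mul]

def m0 : SpecialLinearGroup (Fin 2) ℤ := ⟨!![3, 1; 11, 4], by decide +kernel⟩
def m1 : SpecialLinearGroup (Fin 2) ℤ := ⟨!![1, -2; 2, -3], by decide +kernel⟩
def m2 : SpecialLinearGroup (Fin 2) ℤ := ⟨!![3, 2; 1, 1], by decide +kernel⟩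
def m3 : SpecialLinearGroup (Fin 2) ℤ := ⟨!![5, -7; -2, 3], by decide +kernel⟩
def m4 : SpecialLinearGroup (Fin 2) ℤ := ⟨!![-2, 3; 5, -8], by decide +kernel⟩

/-- the representation -/
def ρ : FreeGroup (Fin 5) →* SpecialLinearGroup (Fin 2) ℤ := lift ![m0, m1, m2, m3, m4]

lemma qt_isConj {g h : FreeGroup (Fin 5)} (hc : IsConj g h) : qt (Qm (ρ g)) = qt (Qm (ρ h)) := by
  obtain ⟨x, rfl⟩ := isConj_iff.mp hc
  rw [map_mul, map_mul, map_inv, qt_conj]

/-! ### states -/

/-- matrix at a position -/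
def mt (w : List (Fin 4)) (p : Fin 5) : Q4 := Qm (ρ ((artin 5 (ev w))⁻¹ (of p)))
/-- label at a position -/
def lb (w : List (Fin 4)) (p : Fin 5) : ℕ := ((wp w).symm p).val

/-- the state of a word -/
def st (w : List (Fin 4)) : List (ℕ × Q4) :=
  [(lb w 0, mt w 0), (lb w 1, mt w 1), (lb w 2, mt w 2), (lb w 3, mt w 3), (lb w 4, mt w 4)]

lemma mt_cons (k : Fin 4) (w : List (Fin 4)) (p : Fin 5) :
    mt (k :: w) p = Qm (ρ ((artin 5 (ev w))⁻¹ (artinInvFun (n := 5) k p))) := by
  unfold mt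
  rw [ev_cons, map_mul, mul_inv_rev, MulAut.mul_apply]
  have : (artin 5 (s k))⁻¹ (of p) = artinInvFun (n := 5) k p := by
    rw [artin_s, artinAut_inv_apply, lift_apply_of]
  rw [this]

lemma lb_cons (k : Fin 4) (w : List (Fin 4)) (p : Fin 5) :
    lb (k :: w) p = lb w ((CG.g k).perm p) := by
  unfold lb
  congr 1
  rw [Equiv.symm_apply_eq, wp_cons, Equiv.apply_symm_apply]
  have : ∀ k : Fin 4, ∀ p : Fin 5, p = (CG.g k).perm ((CG.g k).perm p) := by decide
  exact this k p

lemma mt_lo (k : Fin 4) (w : List (Fin 4)) :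
    mt (k :: w) (lo (n := 5) k) = mt w (hi (n := 5) k) := by
  rw [mt_cons]
  unfold artinInvFun mt
  rw [if_pos rfl]

lemma mt_hi (k : Fin 4) (w : List (Fin 4)) :
    mt (k :: w) (hi (n := 5) k) =
      qm (qi (mt w (hi (n := 5) k))) (qm (mt w (lo (n := 5) k)) (mt w (hi (n := 5) k))) := by
  rw [mt_cons]
  unfold artinInvFun mt
  rw [if_neg (lo_ne_hi (n := 5) k).symm, if_pos rfl, mul_assoc, map_mul, map_mul, map_mul, map_mul,
    map_inv, map_inv, Qm_mul, Qm_mul, Qm_inv]

lemma mt_ne (k : Fin 4) (w : List (Fin 4)) {p : Fin 5} (h1 : p ≠ lo (n := 5) k)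
    (h2 : p ≠ hi (n := 5) k) : mt (k :: w) p = mt w p := by
  rw [mt_cons]
  unfold artinInvFun mt
  rw [if_neg h1, if_neg h2]

lemma lb_cons_eq (k : Fin 4) (w : List (Fin 4)) (p q : Fin 5) (h : (CG.g k).perm p = q) :
    lb (k :: w) p = lb w q := by rw [lb_cons, h]

lemma st_cons0 (w : List (Fin 4)) : st (0 :: w) = stp 0 (st w) := by
  have h1 : mt (0 :: w) 0 = mt w 1 := mt_lo 0 w
  have h2 : mt (0 :: w) 1 = qm (qi (mt w 1)) (qm (mt w 0) (mt w 1)) := mt_hi 0 w
  unfold st
  rw [lb_cons_eq 0 w 0 1 (by decide), lb_cons_eq 0 w 1 0 (by decide),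
    lb_cons_eq 0 w 2 2 (by decide), lb_cons_eq 0 w 3 3 (by decide),
    lb_cons_eq 0 w 4 4 (by decide), mt_ne 0 w (p := 2) (by decide) (by decide),
    mt_ne 0 w (p := 3) (by decide) (by decide), mt_ne 0 w (p := 4) (by decide) (by decide), h1, h2]
  rfl

lemma st_cons1 (w : List (Fin 4)) : st (1 :: w) = stp 1 (st w) := by
  have h1 : mt (1 :: w) 1 = mt w 2 := mt_lo 1 w
  have h2 : mt (1 :: w) 2 = qm (qi (mt w 2)) (qm (mt w 1) (mt w 2)) := mt_hi 1 w
  unfold st
  rw [lb_cons_eq 1 w 0 0 (by decide), lb_cons_eq 1 w 1 2 (by decide),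
    lb_cons_eq 1 w 2 1 (by decide), lb_cons_eq 1 w 3 3 (by decide),
    lb_cons_eq 1 w 4 4 (by decide), mt_ne 1 w (p := 0) (by decide) (by decide),
    mt_ne 1 w (p := 3) (by decide) (by decide), mt_ne 1 w (p := 4) (by decide) (by decide), h1, h2]
  rfl

lemma st_cons2 (w : List (Fin 4)) : st (2 :: w) = stp 2 (st w) := by
  have h1 : mt (2 :: w) 2 = mt w 3 := mt_lo 2 w
  have h2 : mt (2 :: w) 3 = qm (qi (mt w 3)) (qm (mt w 2) (mt w 3)) := mt_hi 2 w
  unfold st
  rw [lb_cons_eq 2 w 0 0 (by decide), lb_cons_eq 2 w 1 1 (by decide),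
    lb_cons_eq 2 w 2 3 (by decide), lb_cons_eq 2 w 3 2 (by decide),
    lb_cons_eq 2 w 4 4 (by decide), mt_ne 2 w (p := 0) (by decide) (by decide),
    mt_ne 2 w (p := 1) (by decide) (by decide), mt_ne 2 w (p := 4) (by decide) (by decide), h1, h2]
  rfl

lemma st_cons3 (w : List (Fin 4)) : st (3 :: w) = stp 3 (st w) := by
  have h1 : mt (3 :: w) 3 = mt w 4 := mt_lo 3 w
  have h2 : mt (3 :: w) 4 = qm (qi (mt w 4)) (qm (mt w 3) (mt w 4)) := mt_hi 3 w
  unfold st
  rw [lb_cons_eq 3 w 0 0 (by decide), lb_cons_eq 3 w 1 1 (by decide),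
    lb_cons_eq 3 w 2 2 (by decide), lb_cons_eq 3 w 3 4 (by decide),
    lb_cons_eq 3 w 4 3 (by decide), mt_ne 3 w (p := 0) (by decide) (by decide),
    mt_ne 3 w (p := 1) (by decide) (by decide), mt_ne 3 w (p := 2) (by decide) (by decide), h1, h2]
  rfl

lemma st_cons (k : Fin 4) (w : List (Fin 4)) : st (k :: w) = stp k.val (st w) := by
  match k with
  | 0 => exact st_cons0 w
  | 1 => exact st_cons1 w
  | 2 => exact st_cons2 w
  | 3 => exact st_cons3 w

lemma st_nil : st [] = M0 := by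
  have h : ∀ p : Fin 5, lb [] p = p.val := by
    intro p
    unfold lb
    have h0 : (wp []).symm p = p := by rw [Equiv.symm_apply_eq, wp_nil]
    rw [h0]
  have h2 : ∀ p : Fin 5, mt [] p = Qm (![m0, m1, m2, m3, m4] p) := by
    intro p
    unfold mt ρ
    rw [ev_nil, map_one, inv_one, MulAut.one_apply, lift_apply_of]
  unfold st
  simp only [h, h2]
  decide +kernel

lemma order {w : List (Fin 4)} {i j : Fin 5} (hij : i < j) (h : wc w i j = 0) :
    wp w i < wp w j := by
  induction w with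
  | nil => simpa [wp_nil] using hij
  | cons a w ih =>
    rw [wc_cons] at h
    have n1 := wc_nonneg w i j
    have n2 := g_cnt_nonneg a (wp w i) (wp w j)
    have h1 := ih (by omega)
    have h2 : (CG.g a).cnt (wp w i) (wp w j) = 0 := by omega
    rw [wp_cons, wp_cons]
    have key : ∀ a : Fin 4, ∀ x y : Fin 5, x < y → (CG.g a).cnt x y = 0 →
        (CG.g a).perm x < (CG.g a).perm y := by decide
    exact key a _ _ h1 h2

lemma wc_symm (w : List (Fin 4)) (i j : Fin 5) : wc w i j = wc w j i := by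
  induction w with
  | nil => rw [wc_nil, wc_nil]
  | cons a w ih =>
    rw [wc_cons, wc_cons, ih]
    have key : ∀ a : Fin 4, ∀ x y : Fin 5, (CG.g a).cnt x y = (CG.g a).cnt y x := by decide
    rw [key]

/-- if the crossing numbers stay at most one then the labels are increasing -/
lemma label_lt {k : Fin 4} {w : List (Fin 4)} (h : ∀ x y, wc (k :: w) x y ≤ 1) :
    lb w (lo (n := 5) k) < lb w (hi (n := 5) k) := by
  unfold lb
  set i := (wp w).symm (lo (n := 5) k) with hi_def
  set j := (wp w).symm (hi (n := 5) k) with hj_def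
  have ei : wp w i = lo (n := 5) k := by rw [hi_def, Equiv.apply_symm_apply]
  have ej : wp w j = hi (n := 5) k := by rw [hj_def, Equiv.apply_symm_apply]
  have h1 := h i j
  rw [wc_cons, ei, ej] at h1
  have h2 : (CG.g k).cnt (lo (n := 5) k) (hi (n := 5) k) = 1 := by simp [CG.g]
  have h3 := wc_nonneg w i j
  have h4 : wc w i j = 0 := by omega
  by_contra hlt
  rw [not_lt] at hlt
  rcases lt_or_eq_of_le hlt with hlt | heq
  · have h5 : j < i := hlt
    have h6 := order h5 (by rw [wc_symm]; exact h4)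
    rw [ei, ej] at h6
    have h7 : (hi (n := 5) k).val < (lo (n := 5) k).val := h6
    simp [lo, hi] at h7
  · have h5 : j = i := Fin.ext heq
    rw [h5, ei] at ej
    exact lo_ne_hi (n := 5) k ej

lemma alw_st {k : Fin 4} {w : List (Fin 4)} (h : ∀ x y, wc (k :: w) x y ≤ 1) :
    alw k.val (st w) = true := by
  have h1 := label_lt h
  match k, h1 with
  | 0, h1 => exact decide_eq_true h1
  | 1, h1 => exact decide_eq_true h1
  | 2, h1 => exact decide_eq_true h1
  | 3, h1 => exact decide_eq_true h1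

lemma mem_ins {e e' : List (ℕ × Q4)} {L : List (List (ℕ × Q4))} (h : e' = e ∨ e' ∈ L) :
    e' ∈ ins e L := by
  unfold ins
  split_ifs with hc
  · rcases h with rfl | h
    · simpa using hc
    · exact h
  · rcases h with rfl | h
    · simp
    · simp [h]

lemma mem_one_of_mem (k : ℕ) (e : List (ℕ × Q4)) {e' : List (ℕ × Q4)}
    {L : List (List (ℕ × Q4))} (h : e' ∈ L) : e' ∈ one k e L := by
  unfold one
  split_ifs
  · exact mem_ins (Or.inr h)
  · exact h

lemma mem_one {k : ℕ} {e : List (ℕ × Q4)} (ha : alw k e = true) (L : List (List (ℕ × Q4))) :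
    stp k e ∈ one k e L := by
  unfold one
  rw [if_pos ha]
  exact mem_ins (Or.inl rfl)

lemma mem_nxt {k : Fin 4} {e : List (ℕ × Q4)} {L : List (List (ℕ × Q4))} (he : e ∈ L)
    (ha : alw k.val e = true) : stp k.val e ∈ nxt L := by
  induction L with
  | nil => simp at he
  | cons e0 L ih =>
    unfold nxt
    rcases List.mem_cons.mp he with rfl | he
    · match k, ha with
      | 0, ha => exact mem_one ha _
      | 1, ha => exact mem_one_of_mem _ _ (mem_one ha _)
      | 2, ha => exact mem_one_of_mem _ _ (mem_one_of_mem _ _ (mem_one ha _))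
      | 3, ha =>
        exact mem_one_of_mem _ _ (mem_one_of_mem _ _ (mem_one_of_mem _ _ (mem_one ha _)))
    · exact mem_one_of_mem _ _ (mem_one_of_mem _ _ (mem_one_of_mem _ _ (mem_one_of_mem _ _ (ih he))))

lemma st_mem (w : List (Fin 4)) (h : ∀ x y, wc w x y ≤ 1) : st w ∈ nxt^[w.length] [M0] := by
  induction w with
  | nil => rw [st_nil]; simp
  | cons k w ih =>
    have h1 : ∀ x y, wc w x y ≤ 1 := by
      intro x y
      have h2 := h x y
      rw [wc_cons] at h2
      have := g_cnt_nonneg k (wp w x) (wp w y)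
      omega
    rw [st_cons, List.length_cons, Function.iterate_succ_apply']
    exact mem_nxt (ih h1) (alw_st h)

lemma chkAll_iter {n : ℕ} {L : List (List (ℕ × Q4))} (h : chkAll n L = true) :
    ∀ m ≤ n, ∀ e ∈ nxt^[m] L, chk e = true := by
  induction n generalizing L with
  | zero =>
    intro m hm e he
    have : m = 0 := by omega
    subst this
    exact (List.all_eq_true.mp h) e he
  | succ n ih =>
    unfold chkAll at h
    rw [Bool.and_eq_true] at h
    intro m hm e he
    cases m with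
    | zero => exact (List.all_eq_true.mp h.1) e he
    | succ m =>
      rw [Function.iterate_succ_apply] at he
      exact ih h.2 m (by omega) e he

lemma length_le_of_pre {w : List (Fin 4)} (h : Pre (ev w) (Δ 5)) : w.length ≤ 10 := by
  obtain ⟨v, hv⟩ := pre_iff.mp h
  rw [Δ_eq, ← ev_append] at hv
  have := length_eq_of_ev hv
  simp at this
  omega

lemma chk_simple {w : List (Fin 4)} (h : Pre (ev w) (Δ 5)) : chk (st w) = true :=
  chkAll_iter t10 _ (length_le_of_pre h) _ (st_mem w (wc_le_one_of_pre_Δ h))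

/-! ### evaluation of words -/

/-- letters -/
def lt (i : ℕ) : FreeGroup (Fin 5) := if h : i < 5 then of ⟨i, h⟩ else 1

/-- element of a word -/
def el : List (ℕ × Bool) → FreeGroup (Fin 5)
  | [] => 1
  | (i, true) :: w => lt i * el w
  | (i, false) :: w => (lt i)⁻¹ * el w

lemma get_st (w : List (Fin 4)) (i : ℕ) :
    get i (st w) = Qm (ρ ((artin 5 (ev w))⁻¹ (lt i))) := by
  unfold lt
  split_ifs with h
  · match i, h with
    | 0, _ => rfl
    | 1, _ => rfl
    | 2, _ => rfl
    | 3, _ => rfl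
    | 4, _ => rfl
  · obtain ⟨j, rfl⟩ : ∃ j, i = j + 5 := ⟨i - 5, by omega⟩
    rw [map_one, map_one, Qm_one]
    simp [st, get]

lemma vl_st (w : List (Fin 4)) (u : List (ℕ × Bool)) :
    vl (st w) u = Qm (ρ ((artin 5 (ev w))⁻¹ (el u))) := by
  induction u with
  | nil => unfold vl el; rw [map_one, map_one, Qm_one]
  | cons p u ih =>
    obtain ⟨i, b⟩ := p
    cases b with
    | true => unfold vl el; rw [ih, get_st, map_mul, map_mul, Qm_mul]
    | false => unfold vl el; rw [ih, get_st, map_mul, map_mul, Qm_mul, map_inv, map_inv, Qm_inv]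

/-- round words -/
def rwd (i j : ℕ) : List (ℕ × Bool) := (List.range' i (j + 1 - i)).map fun k => (k, true)

lemma round_trace {i j : ℕ} (h : IsInterval 5 i j) :
    ∃ r, roundCurve 5 i j = ConjClasses.mk r ∧ qt (Qm (ρ r)) ∈ targets := by
  obtain ⟨h1, h2, h3⟩ := h
  have key : roundCurve 5 i j = ConjClasses.mk (el (rwd i j)) := by
    unfold roundCurve
    congr 1
    have hi : i < 5 := by omega
    interval_cases j <;> interval_cases i <;> first | omega | rfl
  refine ⟨_, key, ?_⟩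
  have e : Qm (ρ (el (rwd i j))) = vl M0 (rwd i j) := by
    rw [← st_nil, vl_st, ev_nil, map_one, inv_one, MulAut.one_apply]
  rw [e]
  have hi : i < 5 := by omega
  interval_cases j <;> interval_cases i <;> first | omega | decide +kernel

/-- classes that are never round after a simple braid -/
def NR (C : Loop 5) : Prop := ∀ a : Braid 5, IsSimple a → ¬ IsRound (act C a)

lemma NR_of {u : List (ℕ × Bool)} (h : ∀ e, chk e = true → okw e u = true) :
    NR (ConjClasses.mk (el u)) := by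
  rintro a ⟨ha1, ha2⟩ ⟨i, j, hij, he⟩
  obtain ⟨w, rfl⟩ := exists_word ha1
  obtain ⟨r, hr, ht⟩ := round_trace hij
  rw [hr, act_mk, ConjClasses.mk_eq_mk_iff_isConj] at he
  have h1 := qt_isConj he
  rw [← vl_st] at h1
  have h2 := h _ (chk_simple ha2)
  unfold okw at h2
  rw [h1] at h2
  simp only [Bool.not_eq_true', List.contains_eq_mem, decide_eq_false_iff_not] at h2
  exact h2 ht

end Pool.Agent.BraidSliding
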