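import Pool.Agent.BraidSliding.Slide

set_option autoImplicit false

namespace Pool.Agent.BraidSliding

/-- the six simple words -/
abbrev six : List (List (Fin 4)) := [[], [0], [1], [0, 1], [1, 0], [0, 1, 0]]

lemma pre_head {c : Fin 4} {t : List (Fin 4)} {X : Braid 5} (h : Pre (ev (c :: t)) X) :
    Pre (s c) X :=
  pre_trans (pre_iff.mpr ⟨t, by rw [ev_cons]⟩) h

lemma block_mul {a b : List (Fin 4)} (hb : L2 b) (j : ℕ) :
    ev a * s 3 * (ev b * s 3 ^ j) = ev (a ++ b) * s 3 ^ (j + 1) := by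
  rw [ev_append, pow_succ', mul_assoc, ← mul_assoc (s 3), s3_comm hb]
  simp only [mul_assoc]

lemma gcd_lemma {a b : List (Fin 4)} (ha : L2 a) (hb : L2 b) (j : ℕ)
    (hs : Pre (ev a * s 3) (Δ 5))
    (hbad : ∀ t ∈ six, Pre (ev t) (ev (a ++ b) * s 3 ^ (j + 1)) →
      ∃ t', L2 t' ∧ ev t * ev t' = ev a) :
    IsGcd (Δ 5) (ev a * s 3 * (ev b * s 3 ^ j)) (ev a * s 3) := by
  refine ⟨hs, ?_, ?_⟩
  · exact pre_iff.mpr ⟨b ++ List.replicate j 3, by rw [ev_append, ev_replicate]⟩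
  · intro c hc h1 h2
    rw [block_mul hb] at h2
    obtain ⟨t, ht, i, hi, rfl⟩ := common_prefix hc (ha.append hb) (j + 1) h1 h2
    have h3 : Pre (ev t) (ev t * s 3 ^ i) :=
      pre_iff.mpr ⟨List.replicate i 3, by rw [ev_replicate]⟩
    obtain ⟨t', ht', he⟩ := hbad t ht (pre_trans h3 h2)
    refine pre_iff.mpr ⟨t' ++ List.replicate (1 - i) 3, ?_⟩
    rw [ev_append, ev_replicate, ← he]
    have h4 : s 3 = s 3 ^ i * s 3 ^ (1 - i) := by
      rw [← pow_add, Nat.add_sub_cancel' hi, pow_one]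
    conv_lhs => rw [h4]
    rw [mul_assoc (ev t) (s 3 ^ i), ← mul_assoc (s 3 ^ i), s3_pow_comm ht']
    simp only [mul_assoc]

/-- list of factors -/
def fac (L : List (List (Fin 4))) : List (Braid 5) := L.map fun a => ev a * s 3

lemma fac_prod {L : List (List (Fin 4))} (hL : ∀ a ∈ L, L2 a) :
    (fac L).prod = ev L.flatten * s 3 ^ L.length ∧ L2 L.flatten := by
  induction L with
  | nil => exact ⟨by simp [fac], by intro x hx; simp at hx⟩
  | cons a L ih =>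
    obtain ⟨i1, i2⟩ := ih fun b hb => hL b (by simp [hb])
    have ha := hL a (by simp)
    refine ⟨?_, ?_⟩
    · have : (fac (a :: L)).prod = ev a * s 3 * (fac L).prod := by simp [fac]
      rw [this, i1, block_mul i2, List.flatten_cons, List.length_cons]
    · rw [List.flatten_cons]; exact ha.append i2

lemma chain_fac_cons {a : List (Fin 4)} {L : List (List (Fin 4))} (ha : L2 a)
    (hL : ∀ b ∈ L, L2 b) (hs : Pre (ev a * s 3) (Δ 5))
    (hbad : ∀ t ∈ six, Pre (ev t) (ev (a ++ L.flatten) * s 3 ^ (L.length + 1)) →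
      ∃ t', L2 t' ∧ ev t * ev t' = ev a) (hc : Chain (fac L)) : Chain (fac (a :: L)) := by
  have h : fac (a :: L) = ev a * s 3 :: fac L := rfl
  rw [h, chain_cons]
  refine ⟨?_, hc⟩
  rw [(fac_prod hL).1]
  exact gcd_lemma ha (fac_prod hL).2 _ hs hbad

/-! simple elements -/

lemma simple_D : Pre (ev [0, 1, 0] * s 3) (Δ 5) := by
  refine pre_iff.mpr ⟨[2, 3, 1, 2, 0, 1], ?_⟩
  rw [Δ_eq]
  have h := ev_eq_of_mvs (v := [0, 1, 2, 3, 0, 1, 2, 0, 1, 0])
    (w := [0, 1, 0, 3] ++ [2, 3, 1, 2, 0, 1]) [3, 2, 7, 5, 3] (by decide)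
  rw [h, ev_append]
  simp [mul_assoc]

lemma simple_of_D {a a' : List (Fin 4)} (ha' : L2 a') (h : ev a * ev a' = ev [0, 1, 0]) :
    Pre (ev a * s 3) (Δ 5) := by
  refine pre_trans (pre_iff.mpr ⟨a', ?_⟩) simple_D
  rw [← h, mul_assoc, mul_assoc, s3_comm ha']

lemma d1 : ev [1] * ev [0, 1] = ev [0, 1, 0] := by
  rw [← ev_append]; exact ev_eq_of_mvs [0] (by decide)
lemma d10 : ev [1, 0] * ev [1] = ev [0, 1, 0] := by
  rw [← ev_append]; exact ev_eq_of_mvs [0] (by decide)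
lemma d0 : ev [0] * ev [1, 0] = ev [0, 1, 0] := by rw [← ev_append]; rfl
lemma d01 : ev [0, 1] * ev [0] = ev [0, 1, 0] := by rw [← ev_append]; rfl
lemma dn : ev [] * ev [0, 1, 0] = ev [0, 1, 0] := by rw [← ev_append]; rfl
lemma dd : ev [0, 1, 0] * ev [] = ev [0, 1, 0] := by rw [← ev_append]; rfl

lemma good_D (X : Braid 5) : ∀ t ∈ six, Pre (ev t) X → ∃ t', L2 t' ∧ ev t * ev t' = ev [0, 1, 0] := by
  intro t ht _
  simp only [six, List.mem_cons, List.not_mem_nil, or_false] at ht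
  rcases ht with rfl | rfl | rfl | rfl | rfl | rfl
  · exact ⟨_, by decide, dn⟩
  · exact ⟨_, by decide, d0⟩
  · exact ⟨_, by decide, d1⟩
  · exact ⟨_, by decide, d01⟩
  · exact ⟨_, by decide, d10⟩
  · exact ⟨_, by decide, dd⟩

/-- `t` for a single letter `a`, the other letter being `b` -/
lemma good_single {a b : Fin 4} (hab : (a = 1 ∧ b = 0) ∨ (a = 0 ∧ b = 1)) {W : List (Fin 4)} (j : ℕ)
    (h1 : Bad b (a :: W)) (h2 : Bad b W) :
    ∀ t ∈ six, Pre (ev t) (ev ([a] ++ W) * s 3 ^ j) → ∃ t', L2 t' ∧ ev t * ev t' = ev [a] := by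
  intro t ht hp
  have n1 : ¬ Pre (s b) (ev ([a] ++ W) * s 3 ^ j) := not_pre_of_bad h1 j
  have n2 : ¬ Pre (s b) (ev W * s 3 ^ j) := not_pre_of_bad h2 j
  have n3 : ∀ t', ¬ Pre (ev (b :: t')) (ev ([a] ++ W) * s 3 ^ j) := fun t' h => n1 (pre_head h)
  have n4 : ∀ t', ¬ Pre (ev (a :: b :: t')) (ev ([a] ++ W) * s 3 ^ j) := by
    intro t' h
    have e : ev ([a] ++ W) * s 3 ^ j = s a * (ev W * s 3 ^ j) := by
      rw [ev_append, mul_assoc]; simp
    rw [e, ev_cons a, pre_mul_left] at h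
    exact n2 (pre_head h)
  have g0 : ∃ t', L2 t' ∧ ev ([] : List (Fin 4)) * ev t' = ev [a] := by
    refine ⟨[a], ?_, by simp⟩
    intro x hx
    rcases hab with ⟨rfl, _⟩ | ⟨rfl, _⟩ <;> simp at hx <;> simp [hx]
  have g1 : ∃ t', L2 t' ∧ ev [a] * ev t' = ev [a] := ⟨[], by intro x hx; simp at hx, by simp⟩
  have e101 : ev [0, 1, 0] = ev [1, 0, 1] := ev_eq_of_mvs [0] (by decide)
  simp only [six, List.mem_cons, List.not_mem_nil, or_false] at ht
  rcases hab with ⟨rfl, rfl⟩ | ⟨rfl, rfl⟩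
  · rcases ht with rfl | rfl | rfl | rfl | rfl | rfl
    · exact g0
    · exact absurd hp (n3 _)
    · exact g1
    · exact absurd hp (n3 _)
    · exact absurd hp (n4 _)
    · exact absurd hp (n3 _)
  · rcases ht with rfl | rfl | rfl | rfl | rfl | rfl
    · exact g0
    · exact g1
    · exact absurd hp (n3 _)
    · exact absurd hp (n4 _)
    · exact absurd hp (n3 _)
    · rw [e101] at hp; exact absurd hp (n3 _)

lemma good_double {a b : Fin 4} (hab : (a = 1 ∧ b = 0) ∨ (a = 0 ∧ b = 1)) (j : ℕ)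
    (h1 : Bad b [a, b]) :
    ∀ t ∈ six, Pre (ev t) (ev ([a, b] ++ []) * s 3 ^ j) →
      ∃ t', L2 t' ∧ ev t * ev t' = ev [a, b] := by
  intro t ht hp
  have n1 : ¬ Pre (s b) (ev ([a, b] ++ []) * s 3 ^ j) := not_pre_of_bad h1 j
  have n3 : ∀ t', ¬ Pre (ev (b :: t')) (ev ([a, b] ++ []) * s 3 ^ j) :=
    fun t' h => n1 (pre_head h)
  have hl : L2 [a, b] ∧ L2 [b] := by
    rcases hab with ⟨rfl, rfl⟩ | ⟨rfl, rfl⟩ <;> decide
  have g0 : ∃ t', L2 t' ∧ ev ([] : List (Fin 4)) * ev t' = ev [a, b] := ⟨[a, b], hl.1, by simp⟩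
  have g1 : ∃ t', L2 t' ∧ ev [a] * ev t' = ev [a, b] := ⟨[b], hl.2, by simp⟩
  have g2 : ∃ t', L2 t' ∧ ev [a, b] * ev t' = ev [a, b] :=
    ⟨[], by intro x hx; simp at hx, by simp⟩
  have e101 : ev [0, 1, 0] = ev [1, 0, 1] := ev_eq_of_mvs [0] (by decide)
  simp only [six, List.mem_cons, List.not_mem_nil, or_false] at ht
  rcases hab with ⟨rfl, rfl⟩ | ⟨rfl, rfl⟩
  · rcases ht with rfl | rfl | rfl | rfl | rfl | rfl
    · exact g0
    · exact absurd hp (n3 _)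
    · exact g1
    · exact absurd hp (n3 _)
    · exact g2
    · exact absurd hp (n3 _)
  · rcases ht with rfl | rfl | rfl | rfl | rfl | rfl
    · exact g0
    · exact g1
    · exact absurd hp (n3 _)
    · exact g2
    · exact absurd hp (n3 _)
    · rw [e101] at hp; exact absurd hp (n3 _)

lemma good_nil (j : ℕ) :
    ∀ t ∈ six, Pre (ev t) (ev (([] : List (Fin 4)) ++ []) * s 3 ^ j) →
      ∃ t', L2 t' ∧ ev t * ev t' = ev [] := by
  intro t ht hp
  have n0 : ¬ Pre (s 0) (ev (([] : List (Fin 4)) ++ []) * s 3 ^ j) :=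
    not_pre_of_bad (by decide) j
  have n1 : ¬ Pre (s 1) (ev (([] : List (Fin 4)) ++ []) * s 3 ^ j) :=
    not_pre_of_bad (by decide) j
  simp only [six, List.mem_cons, List.not_mem_nil, or_false] at ht
  rcases ht with rfl | rfl | rfl | rfl | rfl | rfl
  · exact ⟨[], by decide, by simp⟩
  · exact absurd (pre_head hp) n0
  · exact absurd (pre_head hp) n1
  · exact absurd (pre_head hp) n0
  · exact absurd (pre_head hp) n1
  · exact absurd (pre_head hp) n0

/-- factors of `x` (for `a = 1, b = 0`) and of its conjugate (for `a = 0, b = 1`) -/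
def Lx (a b : Fin 4) : List (List (Fin 4)) :=
  [[0, 1, 0], [0, 1, 0], [a], [a], [a], [a, b], []]

/-- the braids `x` and `x'` -/
def X (a b : Fin 4) : Braid 5 := ev [0, 1, 0, 0, 1, 0, a, a, a, a, b] * s 3 ^ 7

lemma chain_X {a b : Fin 4} (hab : (a = 1 ∧ b = 0) ∨ (a = 0 ∧ b = 1)) :
    Chain (fac (Lx a b)) := by
  have hD : L2 [0, 1, 0] := by decide
  have ha : L2 [a] := by rcases hab with ⟨rfl, rfl⟩ | ⟨rfl, rfl⟩ <;> decide
  have hb : L2 [a, b] := by rcases hab with ⟨rfl, rfl⟩ | ⟨rfl, rfl⟩ <;> decide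
  have hn : L2 [] := by decide
  have sa : Pre (ev [a] * s 3) (Δ 5) := by
    rcases hab with ⟨rfl, rfl⟩ | ⟨rfl, rfl⟩
    · exact simple_of_D (by decide) d1
    · exact simple_of_D (by decide) d0
  have sab : Pre (ev [a, b] * s 3) (Δ 5) := by
    rcases hab with ⟨rfl, rfl⟩ | ⟨rfl, rfl⟩
    · exact simple_of_D (by decide) d10
    · exact simple_of_D (by decide) d01
  have sn : Pre (ev [] * s 3) (Δ 5) := simple_of_D hD dn
  unfold Lx
  refine chain_fac_cons hD (by simp [hD, ha, hb, hn]) simple_D (good_D _) ?_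
  refine chain_fac_cons hD (by simp [ha, hb, hn]) simple_D (good_D _) ?_
  refine chain_fac_cons ha (by simp [ha, hb, hn]) sa (good_single hab _ ?_ ?_) ?_
  · rcases hab with ⟨rfl, rfl⟩ | ⟨rfl, rfl⟩ <;> decide
  · rcases hab with ⟨rfl, rfl⟩ | ⟨rfl, rfl⟩ <;> decide
  refine chain_fac_cons ha (by simp [ha, hb, hn]) sa (good_single hab _ ?_ ?_) ?_
  · rcases hab with ⟨rfl, rfl⟩ | ⟨rfl, rfl⟩ <;> decide
  · rcases hab with ⟨rfl, rfl⟩ | ⟨rfl, rfl⟩ <;> decide
  refine chain_fac_cons ha (by simp [hb, hn]) sa (good_single hab _ ?_ ?_) ?_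
  · rcases hab with ⟨rfl, rfl⟩ | ⟨rfl, rfl⟩ <;> decide
  · rcases hab with ⟨rfl, rfl⟩ | ⟨rfl, rfl⟩ <;> decide
  refine chain_fac_cons hb (by simp [hn]) sab (good_double hab _ ?_) ?_
  · rcases hab with ⟨rfl, rfl⟩ | ⟨rfl, rfl⟩ <;> decide
  refine chain_fac_cons hn (by simp) sn (good_nil _) ?_
  exact chain_nil

lemma ev_ne_Δ {w : List (Fin 4)} (h : w.length ≠ 10) : ev w ≠ Δ 5 := by
  intro he
  rw [Δ_eq] at he
  exact h (length_eq_of_ev he)

lemma fac_simple {L : List (List (Fin 4))} (h : ∀ a ∈ L, a.length ≤ 3 ∧ Pre (ev a * s 3) (Δ 5)) :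
    ∀ c ∈ fac L, IsSimple c ∧ c ≠ 1 ∧ c ≠ Δ 5 := by
  intro c hc
  unfold fac at hc
  obtain ⟨a, ha, rfl⟩ := List.mem_map.mp hc
  obtain ⟨h1, h2⟩ := h a ha
  have e : ev a * s 3 = ev (a ++ [3]) := by simp
  refine ⟨⟨by rw [e]; exact ev_mem _, h2⟩, ?_, ?_⟩
  · rw [e]; intro he
    have := ev_eq_one he
    simp at this
  · rw [e]; apply ev_ne_Δ; simp; omega

lemma lnf_X {a b : Fin 4} (hab : (a = 1 ∧ b = 0) ∨ (a = 0 ∧ b = 1)) :
    IsLNF (X a b) 0 (fac (Lx a b)) := by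
  have hD : L2 [0, 1, 0] := by decide
  have ha : L2 [a] := by rcases hab with ⟨rfl, rfl⟩ | ⟨rfl, rfl⟩ <;> decide
  have hb : L2 [a, b] := by rcases hab with ⟨rfl, rfl⟩ | ⟨rfl, rfl⟩ <;> decide
  have hn : L2 [] := by decide
  refine ⟨?_, ?_, chain_X hab⟩
  · rw [zpow_zero, one_mul, (fac_prod (by simp [Lx, hD, ha, hb, hn])).1]
    rfl
  · have sa : Pre (ev [a] * s 3) (Δ 5) := by
      rcases hab with ⟨rfl, rfl⟩ | ⟨rfl, rfl⟩
      · exact simple_of_D (by decide) d1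
      · exact simple_of_D (by decide) d0
    have sab : Pre (ev [a, b] * s 3) (Δ 5) := by
      rcases hab with ⟨rfl, rfl⟩ | ⟨rfl, rfl⟩
      · exact simple_of_D (by decide) d10
      · exact simple_of_D (by decide) d01
    have sn : Pre (ev [] * s 3) (Δ 5) := simple_of_D hD dn
    refine fac_simple ?_
    intro c hc
    simp only [Lx, List.mem_cons, List.not_mem_nil, or_false] at hc
    rcases hc with rfl | rfl | rfl | rfl | rfl | rfl | rfl
    · exact ⟨by simp, simple_D⟩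
    · exact ⟨by simp, simple_D⟩
    · exact ⟨by simp, sa⟩
    · exact ⟨by simp, sa⟩
    · exact ⟨by simp, sa⟩
    · exact ⟨by simp, sab⟩
    · exact ⟨by simp, sn⟩

/-- the half twist of the first three strands -/
def D3 : Braid 5 := ev [0, 1, 0]

lemma gcd_pref : IsGcd (ev [0, 1, 0] * s 3) ((ev [] * s 3)⁻¹ * Δ 5) D3 := by
  refine ⟨pre_iff.mpr ⟨[3], by simp [D3]⟩, ?_, ?_⟩
  · unfold Pre D3
    obtain ⟨w, hw⟩ := pre_iff.mp simple_D
    have : (ev [0, 1, 0])⁻¹ * ((ev [] * s 3)⁻¹ * Δ 5) = ev w := by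
      rw [hw, ← s3_comm (by decide : L2 [0, 1, 0])]
      simp [mul_assoc]
    rw [this]
    exact ev_mem w
  · intro c hc h1 h2
    have h3 : Pre c (ev [0, 1, 0] * s 3 ^ 1) := by rw [pow_one]; exact h1
    have h4 : Pre c (Δ 5) := pre_trans h1 simple_D
    obtain ⟨t, ht, i, hi, rfl⟩ := common_prefix hc (by decide) 1 h4 h3
    have hi0 : i = 0 := by
      by_contra hne
      have hi1 : i = 1 := by omega
      subst hi1
      have h5 : Pre (ev (3 :: (t ++ [3]))) (Δ 5) := by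
        unfold Pre at h2 ⊢
        have e : (ev (3 :: (t ++ [3])))⁻¹ * Δ 5
            = (ev t * s 3 ^ 1)⁻¹ * ((ev [] * s 3)⁻¹ * Δ 5) := by
          rw [ev_cons, ev_append]
          simp [mul_assoc]
        rw [e]
        exact h2
      have h6 := wc_le_one_of_pre_Δ h5
      simp only [List.mem_cons, List.not_mem_nil, or_false] at ht
      rcases ht with rfl | rfl | rfl | rfl | rfl | rfl
      all_goals
        have h7 := h6 3 4
        rw [wc_eq] at h7
        revert h7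
        decide
    subst hi0
    rw [pow_zero, mul_one]
    obtain ⟨t', ht', he⟩ := good_D (ev t) t ht (pre_refl _)
    exact pre_iff.mpr ⟨t', by rw [he]; rfl⟩

lemma pref_X {a b : Fin 4} (hab : (a = 1 ∧ b = 0) ∨ (a = 0 ∧ b = 1)) :
    IsPreferredPrefix (X a b) D3 := by
  refine ⟨0, fac (Lx a b), lnf_X hab, Or.inr ⟨ev [0, 1, 0] * s 3, ev [] * s 3, rfl, rfl, ?_⟩⟩
  simpa using gcd_pref

lemma pref_X_unique {a b : Fin 4} (hab : (a = 1 ∧ b = 0) ∨ (a = 0 ∧ b = 1)) {d : Braid 5}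
    (h : IsPreferredPrefix (X a b) d) : d = D3 := by
  obtain ⟨p, l, hl, h1⟩ := h
  obtain ⟨rfl, rfl⟩ := lnf_unique (lnf_X hab) hl
  rcases h1 with ⟨h1, _⟩ | ⟨u, v, hu, hv, hg⟩
  · exact absurd h1 (by simp [fac, Lx])
  · have e1 : ev [0, 1, 0] * s 3 = u := by
      have : (fac (Lx a b)).head? = some (ev [0, 1, 0] * s 3) := rfl
      rw [this] at hu
      exact Option.some.inj hu
    have e2 : ev [] * s 3 = v := by
      have : (fac (Lx a b)).getLast? = some (ev [] * s 3) := rfl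
      rw [this] at hv
      exact Option.some.inj hv
    subst e1 e2
    have hg' : IsGcd (ev [0, 1, 0] * s 3) ((ev [] * s 3)⁻¹ * Δ 5) d := by simpa using hg
    have p1 : ev [0, 1, 0] * s 3 ∈ Pos 5 := mul_mem (ev_mem _) (s_mem _)
    have p2 : (ev [] * s 3)⁻¹ * Δ 5 ∈ Pos 5 := simple_of_D (by decide) dn
    exact gcd_unique (gcd_pos p1 p2 hg') (ev_mem _) hg' gcd_pref

lemma ev_single (a : Fin 4) : ev [a] = s a := by simp

lemma semi {a b : Fin 4} (hab : (a = 1 ∧ b = 0) ∨ (a = 0 ∧ b = 1)) : D3 * s a = s b * D3 := by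
  unfold D3
  rw [← ev_single a, ← ev_single b, ← ev_append, ← ev_append]
  rcases hab with ⟨rfl, rfl⟩ | ⟨rfl, rfl⟩
  · exact ev_eq_of_mvs [1] (by decide)
  · exact ev_eq_of_mvs [0] (by decide)

lemma X_eq (a b : Fin 4) : X a b = D3 ^ 2 * s a ^ 4 * s b * s 3 ^ 7 := by
  unfold X D3
  simp [pow_succ, mul_assoc]

lemma conj_X {a b : Fin 4} (hab : (a = 1 ∧ b = 0) ∨ (a = 0 ∧ b = 1)) :
    D3⁻¹ * X a b * D3 = X b a := by
  have hba : (b = 1 ∧ a = 0) ∨ (b = 0 ∧ a = 1) := by tauto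
  have h1 : SemiconjBy D3 (s b) (s a) := semi hba
  have h2 : SemiconjBy D3 (s a) (s b) := semi hab
  have h3 : SemiconjBy D3 (s 3) (s 3) := (s3_comm (by decide : L2 [0, 1, 0])).symm
  have h4 : SemiconjBy D3 (D3 ^ 2) (D3 ^ 2) := (Commute.refl D3).pow_right 2
  have h5 : SemiconjBy D3 (X b a) (X a b) := by
    rw [X_eq, X_eq]
    exact ((h4.mul_right (h1.pow_right 4)).mul_right h2).mul_right (h3.pow_right 7)
  rw [mul_assoc, ← h5.eq, inv_mul_cancel_left]

end Pool.Agent.BraidSliding
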