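import Pool.Agent.BraidSliding.Forget
import Pool.Agent.BraidSliding.Orbit

set_option autoImplicit false

namespace Pool.Agent.BraidSliding

open FreeGroup (of lift lift_apply_of)

/-! ### classes carried by two punctures -/

/-- inclusion of the two-puncture group -/
def J (a b : Fin 5) : FreeGroup (Fin 2) →* FreeGroup (Fin 5) :=
  lift fun i => if i = 0 then of a else of b

lemma J_0 (a b : Fin 5) : J a b (of 0) = of a := lift_apply_of
lemma J_1 (a b : Fin 5) : J a b (of 1) = of b := lift_apply_of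

lemma K_J {a b : Fin 5} (h : a ≠ b) (z : FreeGroup (Fin 2)) : K a b (J a b z) = z := by
  have : (K a b).comp (J a b) = MonoidHom.id _ := by
    ext i
    fin_cases i
    · simp [J_0, K_of]
    · simp [J_1, K_of, h.symm]
  exact DFunLike.congr_fun this z

lemma esum_J (a b : Fin 5) (z : FreeGroup (Fin 2)) : esum (J a b z) = esum z := by
  have : (esum (ι := Fin 5)).comp (J a b) = esum := by
    ext i
    fin_cases i
    · simp [J_0, esum_of]
    · simp [J_1, esum_of]
  exact DFunLike.congr_fun this z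

lemma esum_isConj {ι : Type} {g h : FreeGroup ι} (hc : IsConj g h) : esum g = esum h := by
  obtain ⟨x, rfl⟩ := isConj_iff.mp hc
  rw [map_mul, map_mul, map_inv, mul_comm, inv_mul_cancel_left]

/-- the exponent sum is `2`, `3` or `4` -/
def Mid (w : FreeGroup (Fin 5)) : Prop :=
  esum w = Multiplicative.ofAdd 2 ∨ esum w = Multiplicative.ofAdd 3 ∨
    esum w = Multiplicative.ofAdd 4

lemma Mid_conj {w w' : FreeGroup (Fin 5)} (h : IsConj w w') (hw : Mid w') : Mid w := by
  unfold Mid at *
  rw [esum_isConj h]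
  exact hw

lemma not_Mid {w : FreeGroup (Fin 5)} {n : ℤ} (h : esum w = Multiplicative.ofAdd n)
    (hn : n < 2 ∨ 4 < n) : ¬ Mid w := by
  rintro (h1 | h1 | h1) <;> rw [h] at h1 <;>
    · have := Multiplicative.ofAdd.injective h1
      omega

lemma two_letter {a b : Fin 5} (hab : a < b) {g : FreeGroup (Fin 5)} (hg : g ∈ (J a b).range)
    (hP : P g) (hM : Mid g) : IsConj g (of a * of b) := by
  obtain ⟨z, rfl⟩ := hg
  have hQ := hP a b hab
  rw [K_J hab.ne] at hQ
  have key : ∀ q, IsConj z q → IsConj (J a b z) (J a b q) := fun q h =>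
    MonoidHom.map_isConj (J a b) h
  have hs : ∀ q, IsConj z q → esum (J a b z) = esum q := fun q h => by
    rw [esum_J, esum_isConj h]
  rcases hQ with h | h | h | h
  · exact absurd hM (not_Mid (n := 0) (by rw [hs _ h, map_one]; rfl) (by omega))
  · exact absurd hM (not_Mid (n := 1) (by rw [hs _ h, esum_of]) (by omega))
  · exact absurd hM (not_Mid (n := 1) (by rw [hs _ h, esum_of]) (by omega))
  · have := key _ h
    rwa [map_mul, J_0, J_1] at this

/-- exponent of one letter -/
def e2 (i : Fin 2) : FreeGroup (Fin 2) →* Multiplicative ℤ :=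
  lift fun j => if j = i then Multiplicative.ofAdd 1 else 1

lemma e2_conj (i : Fin 2) {g h : FreeGroup (Fin 2)} (hc : IsConj g h) : e2 i g = e2 i h := by
  obtain ⟨x, rfl⟩ := isConj_iff.mp hc
  rw [map_mul, map_mul, map_inv, mul_comm, inv_mul_cancel_left]

lemma e2_same (i : Fin 2) : e2 i (of i) = Multiplicative.ofAdd 1 := by
  unfold e2; rw [lift_apply_of, if_pos rfl]
lemma e2_ne {i j : Fin 2} (h : j ≠ i) : e2 i (of j) = 1 := by
  unfold e2; rw [lift_apply_of, if_neg h]

/-- colours in rank two -/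
def c01 (i : Fin 2) : Bool := decide (i = 0)

lemma norm_pos_of_ne {ι : Type} [DecidableEq ι] {g : FreeGroup ι} (h : g ≠ 1) :
    1 ≤ FreeGroup.norm g := by
  by_contra hlt
  exact h (FreeGroup.norm_eq_zero.mp (by omega))

lemma mixed {l : List (FreeGroup (Fin 5) × FreeGroup (Fin 5))} (hl : l ≠ []) {a b : Fin 5}
    (hab : a < b) (hP : P (evP l))
    (h : ∀ p ∈ l, (∃ n : ℤ, n ≠ 0 ∧ K a b p.1 = of 0 ^ n) ∧
      (∃ m : ℤ, m ≠ 0 ∧ K a b p.2 = of 1 ^ m)) :
    ∃ p, l = [p] ∧ K a b p.1 = of 0 ∧ K a b p.2 = of 1 := by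
  have hev : K a b (evP l) = evP (l.map fun p => (K a b p.1, K a b p.2)) := by
    clear hP h hl
    induction l with
    | nil => simp
    | cons p l ih => rw [evP_cons, List.map_cons, evP_cons, map_mul, map_mul, ih]
  have hG : Good c01 (l.map fun p => (K a b p.1, K a b p.2)) := by
    intro q hq
    obtain ⟨p, hp, rfl⟩ := List.mem_map.mp hq
    obtain ⟨⟨n, hn, h1⟩, m, hm, h2⟩ := h p hp
    dsimp only
    rw [h1, h2]
    exact ⟨⟨zpow_mem (of_mem_col (by decide)) n, zpow_of_ne_one _ hn⟩,
      zpow_mem (of_mem_col (by decide)) m, zpow_of_ne_one _ hm⟩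
  have hQ := hP a b hab
  have hlen : 2 * l.length ≤ FreeGroup.norm (evP (l.map fun p => (K a b p.1, K a b p.2))) := by
    rw [norm_evP hG, List.map_map]
    have : (2 * l.length) = (l.map fun _ => 2).sum := by simp [mul_comm]
    rw [this]
    refine List.sum_le_sum fun p hp => ?_
    have h3 := hG (K a b p.1, K a b p.2) (List.mem_map.mpr ⟨p, hp, rfl⟩)
    have h4 := norm_pos_of_ne h3.1.2
    have h5 := norm_pos_of_ne h3.2.2
    simp only [Function.comp] at *
    omega
  have hpos : 1 ≤ l.length := by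
    cases l with
    | nil => exact absurd rfl hl
    | cons p l => simp
  rw [hev] at hQ
  have hle : ∀ q, IsConj (evP (l.map fun p => (K a b p.1, K a b p.2))) q →
      FreeGroup.norm (evP (l.map fun p => (K a b p.1, K a b p.2))) ≤ FreeGroup.norm q :=
    fun q hq => norm_le_of_isConj hG hq.symm
  have n0 : FreeGroup.norm (of 0 : FreeGroup (Fin 2)) = 1 := FreeGroup.norm_of _
  have n1 : FreeGroup.norm (of 1 : FreeGroup (Fin 2)) = 1 := FreeGroup.norm_of _
  rcases hQ with hq | hq | hq | hq
  · have := hle _ hq; rw [FreeGroup.norm_one] at this; omega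
  · have := hle _ hq; rw [n0] at this; omega
  · have := hle _ hq; rw [n1] at this; omega
  · have h3 := hle _ hq
    have h4 := FreeGroup.norm_mul_le (of 0 : FreeGroup (Fin 2)) (of 1)
    rw [n0, n1] at h4
    have h5 : l.length = 1 := by omega
    obtain ⟨p, rfl⟩ := List.length_eq_one_iff.mp h5
    obtain ⟨⟨n, hn, h6⟩, m, hm, h7⟩ := h p (by simp)
    have h8 : IsConj (of 0 ^ n * of 1 ^ m : FreeGroup (Fin 2)) (of 0 * of 1) := by
      have := hq
      simp only [List.map_cons, List.map_nil, evP_cons, evP_nil, mul_one] at this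
      rwa [h6, h7] at this
    have h9 := e2_conj 0 h8
    have h10 := e2_conj 1 h8
    rw [map_mul, map_mul, map_zpow, map_zpow, e2_same, e2_ne (by decide), one_zpow, mul_one,
      mul_one, ← ofAdd_zsmul, smul_eq_mul, mul_one] at h9
    rw [map_mul, map_mul, map_zpow, map_zpow, e2_same, e2_ne (by decide), one_zpow, one_mul,
      one_mul, ← ofAdd_zsmul, smul_eq_mul, mul_one] at h10
    have h11 : n = 1 := Multiplicative.ofAdd.injective h9
    have h12 : m = 1 := Multiplicative.ofAdd.injective h10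
    exact ⟨p, rfl, by rw [h6, h11, zpow_one], by rw [h7, h12, zpow_one]⟩

end Pool.Agent.BraidSliding
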