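import Pool.Agent.BraidSliding.Defs3

set_option autoImplicit false

namespace Pool.Agent.BraidSliding

open FreeGroup (of lift lift_apply_of)

/-- Permutation together with crossing numbers (strands are labelled by their final positions). -/
@[ext] structure CG where
  perm : Equiv.Perm (Fin 5)
  cnt : Fin 5 → Fin 5 → ℤ

namespace CG

instance : Mul CG := ⟨fun a b => ⟨a.perm * b.perm, fun i j => b.cnt i j + a.cnt (b.perm i) (b.perm j)⟩⟩
instance : One CG := ⟨⟨1, fun _ _ => 0⟩⟩
instance : Inv CG := ⟨fun a => ⟨a.perm⁻¹, fun i j => - a.cnt (a.perm⁻¹ i) (a.perm⁻¹ j)⟩⟩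

@[simp] lemma mul_perm (a b : CG) : (a * b).perm = a.perm * b.perm := rfl
@[simp] lemma mul_cnt (a b : CG) (i j : Fin 5) :
    (a * b).cnt i j = b.cnt i j + a.cnt (b.perm i) (b.perm j) := rfl
@[simp] lemma one_perm : (1 : CG).perm = 1 := rfl
@[simp] lemma one_cnt (i j : Fin 5) : (1 : CG).cnt i j = 0 := rfl
@[simp] lemma inv_perm (a : CG) : (a⁻¹).perm = a.perm⁻¹ := rfl
@[simp] lemma inv_cnt (a : CG) (i j : Fin 5) :
    (a⁻¹).cnt i j = - a.cnt (a.perm⁻¹ i) (a.perm⁻¹ j) := rfl

instance : Group CG where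
  mul_assoc a b c := by
    apply CG.ext
    · simp [mul_assoc]
    · funext i j; simp; ring
  one_mul a := by apply CG.ext <;> [simp; (funext i j; simp)]
  mul_one a := by apply CG.ext <;> [simp; (funext i j; simp)]
  inv_mul_cancel a := by apply CG.ext <;> [simp; (funext i j; simp)]

/-- image of a generator -/
def g (k : Fin 4) : CG :=
  ⟨Equiv.swap (lo (n := 5) k) (hi (n := 5) k), fun i j =>
    if (i = lo (n := 5) k ∧ j = hi (n := 5) k) ∨ (i = hi (n := 5) k ∧ j = lo (n := 5) k)
    then 1 else 0⟩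

lemma ext' {a b : CG} (h1 : ∀ x, a.perm x = b.perm x) (h2 : ∀ i j, a.cnt i j = b.cnt i j) :
    a = b := CG.ext (Equiv.ext h1) (funext fun i => funext fun j => h2 i j)

lemma g_far (i j : Fin 4) (hij : i.val + 1 < j.val) : g i * g j = g j * g i := by
  refine ext' ?_ ?_ <;> revert i j <;> decide

lemma g_braid (i j : Fin 4) (hij : i.val + 1 = j.val) : g i * g j * g i = g j * g i * g j := by
  refine ext' ?_ ?_ <;> revert i j <;> decide

end CG

/-- crossing numbers -/
def cross : Braid 5 →* CG :=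
  PresentedGroup.toGroup (f := CG.g) (by
    rintro r ⟨i, j, ⟨hij, rfl⟩ | ⟨hij, rfl⟩⟩
    · simp only [map_mul, map_inv, lift_apply_of]
      rw [CG.g_far i j hij, mul_inv_cancel]
    · simp only [map_mul, map_inv, lift_apply_of]
      rw [CG.g_braid i j hij, mul_inv_cancel])

lemma cross_σ (i : Fin 4) : cross (σ (n := 5) i) = CG.g i := PresentedGroup.toGroup.of _

end Pool.Agent.BraidSliding
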