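import Pool.Agent.BraidSliding.Classify

set_option autoImplicit false
set_option linter.unusedSimpArgs false

namespace Pool.Agent.BraidSliding

open FreeGroup (of lift lift_apply_of)

/-! ### the action on classes -/

lemma act_mk (w : FreeGroup (Fin 5)) (β : Braid 5) :
    act (ConjClasses.mk w) β = ConjClasses.mk ((artin 5 β)⁻¹ w) := rfl

lemma act_mul (C : Loop 5) (α β : Braid 5) : act (act C α) β = act C (α * β) := by
  obtain ⟨w, rfl⟩ := ConjClasses.mk_surjective C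
  rw [act_mk, act_mk, act_mk, map_mul, mul_inv_rev, MulAut.mul_apply]

lemma act_one (C : Loop 5) : act C 1 = C := by
  obtain ⟨w, rfl⟩ := ConjClasses.mk_surjective C
  rw [act_mk, map_one, inv_one, MulAut.one_apply]

lemma act_eq_iff {C D : Loop 5} {β : Braid 5} : act C β = D ↔ C = act D β⁻¹ := by
  constructor
  · rintro rfl
    rw [act_mul, mul_inv_cancel, act_one]
  · rintro rfl
    rw [act_mul, inv_mul_cancel, act_one]

lemma act_inj {C D : Loop 5} {β : Braid 5} (h : act C β = act D β) : C = D := by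
  rw [act_eq_iff, act_mul, mul_inv_cancel, act_one] at h
  exact h

/-- The class of `w` is mapped to that of `z` if `artin β z` is conjugate to `w`. -/
lemma act_mk_eq {w z : FreeGroup (Fin 5)} {β : Braid 5} (h : IsConj (artin 5 β z) w) :
    act (ConjClasses.mk w) β = ConjClasses.mk z := by
  rw [act_mk, ConjClasses.mk_eq_mk_iff_isConj]
  have := MonoidHom.map_isConj ((artin 5 β)⁻¹ : MulAut _).toMonoidHom h
  have e : ((artin 5 β)⁻¹ : MulAut _).toMonoidHom (artin 5 β z) = z := MulAut.inv_apply_self _ _ _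
  rw [e] at this
  exact this.symm

lemma round01 : roundCurve 5 0 1 = ConjClasses.mk γ := by
  unfold roundCurve γ
  congr 1
lemma round12 : roundCurve 5 1 2 = ConjClasses.mk (of 1 * of 2) := by
  unfold roundCurve
  congr 1
lemma round02 : roundCurve 5 0 2 = ConjClasses.mk δ := by
  unfold roundCurve δ
  congr 1
lemma round34 : roundCurve 5 3 4 = ConjClasses.mk ε := by
  unfold roundCurve ε
  congr 1

/-- the reduction curve of the example -/
def C0 : Loop 5 := act (roundCurve 5 0 1) (s 1 ^ 2)⁻¹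

lemma D3_apply (g : FreeGroup (Fin 5)) :
    artin 5 D3 g = artin 5 (s 0) (artin 5 (s 1) (artin 5 (s 0) g)) := by
  unfold D3
  simp only [ev_cons, ev_nil, mul_one, map_mul, MulAut.mul_apply]

lemma γ_mem_A : γ ∈ Col cA true := col_mono γ_mem

lemma artin_sq_s0_γ : artin 5 (s 0) γ = γ := by
  unfold γ
  simp [a00, a01]

lemma artin_s3_A : ∀ g ∈ Col cA true, artin 5 (s 3) g = g := by
  refine agree (h := MonoidHom.id _) ?_
  intro i hi
  change artin 5 (s 3) (of i) = of i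
  fin_cases i
  · exact a30
  · exact a31
  · exact a32
  · exact absurd hi (by decide)
  · exact absurd hi (by decide)

lemma act_round_D3sq : act (roundCurve 5 0 1) (D3 ^ 2) = roundCurve 5 0 1 := by
  rw [round01]
  refine act_mk_eq ?_
  have : artin 5 (D3 ^ 2) γ = δ * γ * δ⁻¹ := TD_true γ γ_mem_A
  rw [this]
  exact isConj_iff.mpr ⟨δ⁻¹, by group⟩

lemma act_round_s0 : act (roundCurve 5 0 1) (s 0) = roundCurve 5 0 1 := by
  rw [round01]
  refine act_mk_eq ?_
  rw [artin_sq_s0_γ]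

lemma act_round_s3 : act (roundCurve 5 0 1) (s 3) = roundCurve 5 0 1 := by
  rw [round01]
  refine act_mk_eq ?_
  rw [artin_s3_A γ γ_mem_A]

lemma act_round_D3 : act (roundCurve 5 0 1) D3 = roundCurve 5 1 2 := by
  rw [round01, round12]
  refine act_mk_eq ?_
  have : artin 5 D3 (of 1 * of 2) = γ := by
    rw [D3_apply]; unfold γ; simp [a00, a01, a02, a10, a11, a12]
  rw [this]

/-- stabiliser of a class -/
def Stab (C : Loop 5) : Subgroup (Braid 5) where
  carrier := {β | act C β = C}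
  one_mem' := act_one C
  mul_mem' := by
    intro a b ha hb
    change act C (a * b) = C
    rw [← act_mul, ha, hb]
  inv_mem' := by
    intro a ha
    change act C a⁻¹ = C
    exact (act_eq_iff.mp ha).symm

lemma x0_stab : x0 ∈ Stab (roundCurve 5 0 1) := by
  unfold x0
  have h1 : D3 ^ 2 ∈ Stab (roundCurve 5 0 1) := act_round_D3sq
  have h2 : D3 ^ 4 ∈ Stab (roundCurve 5 0 1) := by
    have : D3 ^ 4 = (D3 ^ 2) ^ 2 := by rw [← pow_mul]
    rw [this]
    exact pow_mem h1 2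
  exact mul_mem (mul_mem h2 (inv_mem act_round_s0)) (pow_mem act_round_s3 7)

lemma D3_sq : D3 ^ 2 = s 1 ^ 2 * s 0 * s 1 ^ 2 * s 0 := by
  have h : ev [1, 1, 0, 1, 1, 0] = ev [0, 1, 0, 0, 1, 0] := ev_eq_of_mvs [1, 0] (by decide)
  unfold D3
  simp only [ev_cons, ev_nil, mul_one] at h
  simp only [ev_cons, ev_nil, mul_one, pow_two]
  simp only [mul_assoc] at h ⊢
  exact h.symm

lemma X_conj : X 1 0 * s 1 ^ 2 = s 1 ^ 2 * x0 := by
  rw [X_eq]
  unfold x0
  have c1 : Commute (s 3 ^ 7) (s 1 ^ 2) := (comm_13.pow_pow 2 7).symm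
  have c2 : Commute (D3 ^ 2) (s 1 ^ 2) := comm_D1.pow_right 2
  have h1 : s 1 ^ 2 * s 0 * s 1 ^ 2 = D3 ^ 2 * (s 0)⁻¹ := by rw [D3_sq]; group
  have h4 : D3 ^ 4 = D3 ^ 2 * D3 ^ 2 := by rw [← pow_add]
  calc D3 ^ 2 * s 1 ^ 4 * s 0 * s 3 ^ 7 * s 1 ^ 2
      = D3 ^ 2 * s 1 ^ 4 * s 0 * (s 3 ^ 7 * s 1 ^ 2) := by group
    _ = D3 ^ 2 * s 1 ^ 4 * s 0 * (s 1 ^ 2 * s 3 ^ 7) := by rw [c1.eq]
    _ = D3 ^ 2 * s 1 ^ 2 * (s 1 ^ 2 * s 0 * s 1 ^ 2) * s 3 ^ 7 := by group
    _ = (D3 ^ 2 * s 1 ^ 2) * (D3 ^ 2 * (s 0)⁻¹) * s 3 ^ 7 := by rw [h1]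
    _ = (s 1 ^ 2 * D3 ^ 2) * (D3 ^ 2 * (s 0)⁻¹) * s 3 ^ 7 := by rw [c2.eq]
    _ = s 1 ^ 2 * (D3 ^ 4 * (s 0)⁻¹ * s 3 ^ 7) := by rw [h4]; group

lemma X_pow_conj (n : ℕ) : X 1 0 ^ n * s 1 ^ 2 = s 1 ^ 2 * x0 ^ n := by
  have h : SemiconjBy (s 1 ^ 2) x0 (X 1 0) := X_conj.symm
  exact (h.pow_right n).eq.symm

lemma C0_act_s1 : act C0 (s 1 ^ 2) = roundCurve 5 0 1 := by
  unfold C0
  rw [act_mul, inv_mul_cancel, act_one]

lemma C0_act_X : act C0 (X 1 0) = C0 := by
  have h : act (act C0 (X 1 0)) (s 1 ^ 2) = act C0 (s 1 ^ 2) := by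
    rw [act_mul, X_conj, ← act_mul, C0_act_s1]
    exact x0_stab
  exact act_inj h

lemma C0_act_D3sq : act (act C0 D3) D3 = C0 := by
  have h : act (act (act C0 D3) D3) (s 1 ^ 2) = act C0 (s 1 ^ 2) := by
    have c2 : Commute (D3 ^ 2) (s 1 ^ 2) := comm_D1.pow_right 2
    rw [act_mul, act_mul, ← mul_assoc, ← pow_two, c2.eq, ← act_mul, C0_act_s1]
    exact act_round_D3sq
  exact act_inj h

/-- Every sliding orbit of the example alternates between two pairs. -/
lemma orbit_alternates {xs : ℕ → Braid 5} {Cs : ℕ → Loop 5}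
    (h : IsSlidingOrbit (X 1 0) C0 xs Cs) (k : ℕ) :
    (xs k = X 1 0 ∧ Cs k = C0) ∨ (xs k = X 0 1 ∧ Cs k = act C0 D3) := by
  obtain ⟨h0, h1, h2⟩ := h
  induction k with
  | zero => exact Or.inl ⟨h0, h1⟩
  | succ k ih =>
    obtain ⟨d, hd, h3, h4⟩ := h2 k
    rcases ih with ⟨i1, i2⟩ | ⟨i1, i2⟩
    · right
      rw [i1] at hd h3
      have hd' := pref_X_unique (Or.inl ⟨rfl, rfl⟩) hd
      subst hd'
      rw [h3, h4, i2, conj_X (Or.inl ⟨rfl, rfl⟩)]
      exact ⟨rfl, rfl⟩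
    · left
      rw [i1] at hd h3
      have hd' := pref_X_unique (Or.inr ⟨rfl, rfl⟩) hd
      subst hd'
      rw [h3, h4, i2, conj_X (Or.inr ⟨rfl, rfl⟩), C0_act_D3sq]
      exact ⟨rfl, rfl⟩

lemma orbit_exists : ∃ xs Cs, IsSlidingOrbit (X 1 0) C0 xs Cs := by
  refine ⟨fun k => if Even k then X 1 0 else X 0 1, fun k => if Even k then C0 else act C0 D3,
    by simp, by simp, fun k => ⟨D3, ?_⟩⟩
  by_cases hk : Even k
  · have hk' : ¬ Even (k + 1) := by rw [Nat.even_add_one]; exact fun h => h hk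
    dsimp only
    rw [if_pos hk, if_pos hk, if_neg hk', if_neg hk']
    exact ⟨pref_X (Or.inl ⟨rfl, rfl⟩), (conj_X (Or.inl ⟨rfl, rfl⟩)).symm, rfl⟩
  · have hk' : Even (k + 1) := by rw [Nat.even_add_one]; exact hk
    dsimp only
    rw [if_neg hk, if_neg hk, if_pos hk', if_pos hk']
    exact ⟨pref_X (Or.inr ⟨rfl, rfl⟩), (conj_X (Or.inr ⟨rfl, rfl⟩)).symm, C0_act_D3sq.symm⟩

/-! ### reduction curves -/

lemma reduction_C0 : IsReductionCurve (X 1 0) C0 := by
  refine ⟨{C0}, Set.finite_singleton _, ?_, ?_, ?_, rfl⟩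
  · rintro D rfl
    exact ⟨s 1 ^ 2, 0, 1, ⟨by omega, by omega, by omega⟩, C0_act_s1⟩
  · rintro D rfl E rfl
    exact ⟨s 1 ^ 2, 0, 1, 0, 1, ⟨by omega, by omega, by omega⟩, ⟨by omega, by omega, by omega⟩,
      C0_act_s1, C0_act_s1, by omega⟩
  · rw [Set.image_singleton, C0_act_X]

/-- no letter `2` -/
lemma no_two (w : List (Fin 4)) (h : (2 : Fin 4) ∉ w) (x y : Fin 5) (hx : x.val ≤ 2)
    (hy : 2 < y.val) : wc w x y = 0 ∧ (wp w x).val ≤ 2 ∧ 2 < (wp w y).val := by
  induction w with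
  | nil => simp [wc_nil, wp_nil, hx, hy]
  | cons a w ih =>
    obtain ⟨i1, i2, i3⟩ := ih (fun hh => h (by simp [hh]))
    have ha : a ≠ 2 := fun hh => h (by simp [hh])
    rw [wc_cons, wp_cons, wp_cons, i1]
    generalize wp w x = x' at *
    generalize wp w y = y' at *
    revert ha i2 i3
    clear ih h i1
    revert a x' y'
    decide

lemma ev_flatten (w : List (Fin 4)) (n : ℕ) : ev w ^ n = ev (List.replicate n w).flatten := by
  induction n with
  | zero => simp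
  | succ n ih => rw [pow_succ', List.replicate_succ, List.flatten_cons, ev_append, ih]

lemma not_periodic : ¬ IsPeriodic (X 1 0) := by
  rintro ⟨k, hk, m, hm⟩
  let W : List (Fin 4) := [0, 1, 0, 0, 1, 0, 1, 1, 1, 1, 0] ++ List.replicate 7 3
  have hW : X 1 0 = ev W := by
    unfold X
    rw [← ev_replicate, ← ev_append]
  have hW2 : (2 : Fin 4) ∉ W := by decide
  -- exponent sums
  have hl : (18 : ℤ) * k = 10 * m := by
    have h1 := congrArg len hm
    rw [map_pow, map_zpow, hW, len_ev, Δ_eq, len_ev, ← ofAdd_nsmul, ← ofAdd_zsmul] at h1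
    have h2 := Multiplicative.ofAdd.injective h1
    simp only [nsmul_eq_mul, smul_eq_mul] at h2
    have h3 : W.length = 18 := by decide
    rw [h3] at h2
    simp only [List.length_cons, List.length_nil] at h2
    push_cast at h2
    omega
  obtain ⟨n, rfl⟩ : ∃ n : ℕ, m = n + 1 := ⟨(m - 1).toNat, by omega⟩
  have h1 : ev (List.replicate k W).flatten =
      ev ((List.replicate n [0, 1, 2, 3, 0, 1, 2, 0, 1, 0]).flatten ++
        [0, 1, 2, 3, 0, 1, 2, 0, 1, 0]) := by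
    rw [← ev_flatten, ← hW, hm, ev_append, ← ev_flatten, ← Δ_eq, zpow_add, zpow_one, zpow_natCast]
  have h2 : (2 : Fin 4) ∉ (List.replicate k W).flatten := by
    intro h
    rw [List.mem_flatten] at h
    obtain ⟨l, hl, h3⟩ := h
    rw [List.eq_of_mem_replicate hl] at h3
    exact hW2 h3
  have h3 := (no_two _ h2 0 4 (by decide) (by decide)).1
  have h4 : wc (List.replicate k W).flatten 0 4 =
      wc ((List.replicate n [0, 1, 2, 3, 0, 1, 2, 0, 1, 0]).flatten ++
        [0, 1, 2, 3, 0, 1, 2, 0, 1, 0]) 0 4 := by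
    unfold wc; rw [h1]
  rw [wc_split, h3] at h4
  have h5 := wc_nonneg (List.replicate n [0, 1, 2, 3, 0, 1, 2, 0, 1, 0]).flatten
    (wp [0, 1, 2, 3, 0, 1, 2, 0, 1, 0] 0) (wp [0, 1, 2, 3, 0, 1, 2, 0, 1, 0] 4)
  have h6 : wc [0, 1, 2, 3, 0, 1, 2, 0, 1, 0] 0 4 = 1 := by rw [wc_eq]; decide
  omega

/-! ### the essential property -/

lemma exists_power {x : Braid 5} {D : Loop 5} (h : IsReductionCurve x D) :
    ∃ N : ℕ, 0 < N ∧ act D (x ^ N) = D := by
  obtain ⟨S, hfin, -, -, himg, hD⟩ := h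
  have hmem : ∀ n : ℕ, act D (x ^ n) ∈ S := by
    intro n
    induction n with
    | zero => rw [pow_zero, act_one]; exact hD
    | succ n ih =>
      rw [pow_succ, ← act_mul, ← himg]
      exact ⟨_, ih, rfl⟩
  obtain ⟨m, _, n, _, hmn, he⟩ := Set.infinite_univ.exists_ne_map_eq_of_mapsTo
    (f := fun n : ℕ => act D (x ^ n)) (fun n _ => hmem n) hfin
  have key : ∀ m n : ℕ, m < n → act D (x ^ m) = act D (x ^ n) →
      ∃ N : ℕ, 0 < N ∧ act D (x ^ N) = D := by
    intro m n hlt he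
    refine ⟨n - m, Nat.sub_pos_of_lt hlt, ?_⟩
    have h2 : x ^ n = x ^ (n - m) * x ^ m := by rw [← pow_add]; congr 1; omega
    rw [h2, ← act_mul] at he
    exact (act_inj he).symm
  rcases lt_or_gt_of_ne hmn with hlt | hlt
  · exact key m n hlt he
  · exact key n m hlt he.symm

lemma round_P {i j : ℕ} (h : IsInterval 5 i j) :
    ∃ r, roundCurve 5 i j = ConjClasses.mk r ∧ P r ∧ Mid r := by
  obtain ⟨h1, h2, h3⟩ := h
  refine ⟨_, rfl, ?_, ?_⟩
  · have key : ∀ j : Fin 5, ∀ i : Fin 5, i < j → ∀ a b : Fin 5, a < b →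
        K a b (((List.finRange 5).filter fun k => i.val ≤ k.val ∧ k.val ≤ j.val).map of).prod = 1 ∨
        K a b (((List.finRange 5).filter fun k => i.val ≤ k.val ∧ k.val ≤ j.val).map of).prod
          = of 0 ∨
        K a b (((List.finRange 5).filter fun k => i.val ≤ k.val ∧ k.val ≤ j.val).map of).prod
          = of 1 ∨
        K a b (((List.finRange 5).filter fun k => i.val ≤ k.val ∧ k.val ≤ j.val).map of).prod
          = of 0 * of 1 := by
      decide +kernel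
    intro a b hab
    rcases key ⟨j, h2⟩ ⟨i, by omega⟩ (by simpa using h1) a b hab with h | h | h | h
    · exact Or.inl (by rw [h])
    · exact Or.inr (Or.inl (by rw [h]))
    · exact Or.inr (Or.inr (Or.inl (by rw [h])))
    · exact Or.inr (Or.inr (Or.inr (by rw [h])))
  · have hi : i < 5 := by omega
    unfold Mid
    interval_cases j <;> interval_cases i <;> first | omega | decide +kernel

lemma curve_P {D : Loop 5} (h : IsCurve D) {w : FreeGroup (Fin 5)} (hw : D = ConjClasses.mk w) :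
    P w ∧ Mid w := by
  obtain ⟨β, i, j, hij, he⟩ := h
  obtain ⟨r, hr, hP, hM⟩ := round_P hij
  rw [hw, hr, act_mk, ConjClasses.mk_eq_mk_iff_isConj] at he
  constructor
  · have h1 := P_conj he hP
    rw [← map_inv, P_braid] at h1
    exact h1
  · have h1 := Mid_conj he hM
    unfold Mid at h1 ⊢
    rwa [← map_inv, esum_braid] at h1

lemma essential_C0 : IsEssential (X 1 0) C0 := by
  refine ⟨reduction_C0, fun D hD => ?_⟩
  obtain ⟨N, hN, hfix⟩ := exists_power hD
  have hcurve : IsCurve D := by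
    obtain ⟨S, -, hS, -, -, hmem⟩ := hD
    exact hS D hmem
  obtain ⟨w, hw⟩ := ConjClasses.mk_surjective (act D (s 1 ^ 2))
  have hcurve' : IsCurve (act D (s 1 ^ 2)) := by
    obtain ⟨β, hβ⟩ := hcurve
    refine ⟨(s 1 ^ 2)⁻¹ * β, ?_⟩
    rw [act_mul, mul_inv_cancel_left]
    exact hβ
  obtain ⟨hP, hM⟩ := curve_P hcurve' hw.symm
  have hfix1 : act (act D (s 1 ^ 2)) (x0 ^ N) = act D (s 1 ^ 2) := by
    rw [act_mul, ← X_pow_conj, ← act_mul, hfix]
  have hfix2 : act (act D (s 1 ^ 2)) ((x0 ^ 2) ^ N) = act D (s 1 ^ 2) := by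
    rw [← pow_mul, mul_comm, pow_mul, pow_two (x0 ^ N), ← act_mul, hfix1, hfix1]
  rw [← hw, act_mk, ConjClasses.mk_eq_mk_iff_isConj, map_pow] at hfix2
  have hc : IsConj w ((φ ^ N) w) := by
    have := MonoidHom.map_isConj (φ ^ N).toMonoidHom hfix2
    have e : (φ ^ N).toMonoidHom ((artin 5 (x0 ^ 2) ^ N)⁻¹ w) = w :=
      MulAut.apply_inv_self _ _ _
    rw [e] at this
    exact this
  have hcases := classify hP hM hN hc
  have hD' : act D (s 1 ^ 2) = roundCurve 5 0 1 ∨ act D (s 1 ^ 2) = roundCurve 5 0 2 ∨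
      act D (s 1 ^ 2) = roundCurve 5 3 4 := by
    rw [← hw, round01, round02, round34]
    simp only [ConjClasses.mk_eq_mk_iff_isConj]
    exact hcases
  have I : IsInterval 5 0 1 := ⟨by omega, by omega, by omega⟩
  rcases hD' with h | h | h
  · exact ⟨s 1 ^ 2, 0, 1, 0, 1, I, I, C0_act_s1, h, by omega⟩
  · exact ⟨s 1 ^ 2, 0, 1, 0, 2, I, ⟨by omega, by omega, by omega⟩, C0_act_s1, h, by omega⟩
  · exact ⟨s 1 ^ 2, 0, 1, 3, 4, I, ⟨by omega, by omega, by omega⟩, C0_act_s1, h, by omega⟩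

end Pool.Agent.BraidSliding
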