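import Mathlib

set_option autoImplicit false

namespace Pool.Agent.BraidSliding

open FreeGroup (of lift)

/-- Artin's relators for the braid group on `n` strands, on the generators
`σ_0, …, σ_{n-2}` (`σ_i` exchanges the positions `i` and `i + 1`, counted from `0`). -/
def artinRels (n : ℕ) : Set (FreeGroup (Fin (n - 1))) :=
  {r | ∃ i j : Fin (n - 1),
    (i.val + 1 < j.val ∧ r = of i * of j * (of j * of i)⁻¹) ∨
    (i.val + 1 = j.val ∧ r = of i * of j * of i * (of j * of i * of j)⁻¹)}

/-- The braid group `B_n`. -/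
abbrev Braid (n : ℕ) : Type := PresentedGroup (artinRels n)

/-- Artin's generators. -/
def σ {n : ℕ} (i : Fin (n - 1)) : Braid n := PresentedGroup.of i

/-- The left position exchanged by `σ_i`. -/
def lo {n : ℕ} (i : Fin (n - 1)) : Fin n := ⟨i.val, by omega⟩

/-- The right position exchanged by `σ_i`. -/
def hi {n : ℕ} (i : Fin (n - 1)) : Fin n := ⟨i.val + 1, by omega⟩

/-- Artin's automorphism attached to `σ_i`, on generators:
`x_i ↦ x_i x_{i+1} x_i⁻¹`, `x_{i+1} ↦ x_i`, `x_k ↦ x_k` otherwise. -/
def artinFun {n : ℕ} (i : Fin (n - 1)) (k : Fin n) : FreeGroup (Fin n) :=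
  if k = lo i then of (lo i) * of (hi i) * (of (lo i))⁻¹
  else if k = hi i then of (lo i) else of k

/-- The inverse of Artin's automorphism, on generators. -/
def artinInvFun {n : ℕ} (i : Fin (n - 1)) (k : Fin n) : FreeGroup (Fin n) :=
  if k = lo i then of (hi i)
  else if k = hi i then (of (hi i))⁻¹ * of (lo i) * of (hi i) else of k

end Pool.Agent.BraidSliding
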