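import Pool.Agent.BraidSliding.Lemmas1

set_option autoImplicit false

namespace Pool.Agent.BraidSliding

open FreeGroup (of lift)

/-- Artin's automorphism attached to `σ_i`. -/
def artinAut {n : ℕ} (i : Fin (n - 1)) : MulAut (FreeGroup (Fin n)) :=
  MonoidHom.toMulEquiv (lift (artinFun i)) (lift (artinInvFun i))
    (artin_left_inv i) (artin_right_inv i)

end Pool.Agent.BraidSliding
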