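import Pool.Agent.BraidSliding.Lemmas2

set_option autoImplicit false

namespace Pool.Agent.BraidSliding

open FreeGroup (of)

/-- Artin's representation `B_n → Aut(π₁(D_n))`, where `π₁(D_n)` is the free group on the loops
`x_0, …, x_{n-1}` around the punctures (based on the boundary of the disc, `x_0 ⋯ x_{n-1}` being
the boundary loop). -/
def artin (n : ℕ) : Braid n →* MulAut (FreeGroup (Fin n)) :=
  PresentedGroup.toGroup (f := artinAut) artin_rels

/-! ### Garside structure -/

/-- The monoid of positive braids. -/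
def Pos (n : ℕ) : Submonoid (Braid n) := Submonoid.closure (Set.range σ)

/-- The prefix order `a ≼ b` on `B_n`. -/
def Pre {n : ℕ} (a b : Braid n) : Prop := a⁻¹ * b ∈ Pos n

/-- `d` is the greatest common prefix `a ∧ b` of the positive braids `a` and `b`. -/
def IsGcd {n : ℕ} (a b d : Braid n) : Prop :=
  Pre d a ∧ Pre d b ∧ ∀ c ∈ Pos n, Pre c a → Pre c b → Pre c d

/-- `σ_i` with a natural number index (`1` out of range). -/
def gen (n i : ℕ) : Braid n := if h : i < n - 1 then σ ⟨i, h⟩ else 1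

/-- Garside's element `Δ = (σ_0 σ_1 ⋯ σ_{n-2}) (σ_0 ⋯ σ_{n-3}) ⋯ (σ_0 σ_1) σ_0`. -/
def Δ (n : ℕ) : Braid n :=
  ((List.range n).reverse.flatMap fun k => (List.range k).map (gen n)).prod

/-- Simple elements, i.e. permutation braids: the positive prefixes of `Δ`. -/
def IsSimple {n : ℕ} (s : Braid n) : Prop := s ∈ Pos n ∧ Pre s (Δ n)

/-- `x = Δ ^ p x_1 ⋯ x_r` is the left normal form of `x`, where `l = [x_1, …, x_r]`: each `x_i` is a
permutation braid different from `1` and `Δ`, and is the greatest common prefix of `Δ` and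
`x_i x_{i+1} ⋯ x_r`. -/
def IsLNF {n : ℕ} (x : Braid n) (p : ℤ) (l : List (Braid n)) : Prop :=
  x = Δ n ^ p * l.prod ∧ (∀ a ∈ l, IsSimple a ∧ a ≠ 1 ∧ a ≠ Δ n) ∧
    ∀ l₁ l₂ : List (Braid n), ∀ a : Braid n, l = l₁ ++ a :: l₂ → IsGcd (Δ n) (a * l₂.prod) a

/-- `x` has canonical length `r`. -/
def HasCanonicalLength {n : ℕ} (x : Braid n) (r : ℕ) : Prop :=
  ∃ (p : ℤ) (l : List (Braid n)), IsLNF x p l ∧ l.length = r

/-- `d` is the preferred prefix of `x`: if `x = Δ ^ p x_1 ⋯ x_r` in left normal form, then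
`d = (Δ ^ p x_1 Δ ^ (-p)) ∧ (x_r⁻¹ Δ)`, and `d = 1` if `r = 0`. -/
def IsPreferredPrefix {n : ℕ} (x d : Braid n) : Prop :=
  ∃ (p : ℤ) (l : List (Braid n)), IsLNF x p l ∧
    ((l = [] ∧ d = 1) ∨
      ∃ a b : Braid n, l.head? = some a ∧ l.getLast? = some b ∧
        IsGcd (Δ n ^ p * a * Δ n ^ (-p)) (b⁻¹ * Δ n) d)

/-! ### Curves -/

/-- Free homotopy classes of oriented loops in the punctured disc `D_n`. -/
abbrev Loop (n : ℕ) : Type := ConjClasses (FreeGroup (Fin n))

/-- The right action `C * β` of braids. -/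
def act {n : ℕ} (C : Loop n) (β : Braid n) : Loop n :=
  ConjClasses.map ((artin n β)⁻¹ : MulAut (FreeGroup (Fin n))).toMonoidHom C

/-- The class of the round curve, oriented positively, which encloses exactly the punctures
`k` with `i ≤ k ≤ j`: the class of `x_i x_{i+1} ⋯ x_j`. -/
def roundCurve (n i j : ℕ) : Loop n :=
  ConjClasses.mk (((List.finRange n).filter fun k => i ≤ k.val ∧ k.val ≤ j).map of).prod

/-- `i ≤ k ≤ j` is an interval of at least `2` and at most `n - 1` punctures. -/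
def IsInterval (n i j : ℕ) : Prop := i < j ∧ j < n ∧ j - i + 1 < n

/-- `C` is a nondegenerate round curve. -/
def IsRound {n : ℕ} (C : Loop n) : Prop :=
  ∃ i j : ℕ, IsInterval n i j ∧ C = roundCurve n i j

/-- `C` is (the positively oriented class of) a nondegenerate simple closed curve. -/
def IsCurve {n : ℕ} (C : Loop n) : Prop := ∃ β : Braid n, IsRound (act C β)

/-- `C` and `D` do not cross: some braid makes both round, and the two round curves are nested or
enclose disjoint sets of punctures. -/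
def NonCrossing {n : ℕ} (C D : Loop n) : Prop :=
  ∃ (β : Braid n) (i j k l : ℕ), IsInterval n i j ∧ IsInterval n k l ∧
    act C β = roundCurve n i j ∧ act D β = roundCurve n k l ∧
    (j < k ∨ l < i ∨ (i ≤ k ∧ l ≤ j) ∨ (k ≤ i ∧ j ≤ l))

/-- The complexity of a curve: the least canonical length of a positive braid which makes it
round. -/
noncomputable def complexity {n : ℕ} (C : Loop n) : ℕ :=
  sInf {r : ℕ | ∃ α ∈ Pos n, HasCanonicalLength α r ∧ IsRound (act C α)}

/-- `x` is periodic: some positive power of `x` is a power of `Δ`. -/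
def IsPeriodic {n : ℕ} (x : Braid n) : Prop :=
  ∃ k : ℕ, 0 < k ∧ ∃ m : ℤ, x ^ k = Δ n ^ m

/-- `C` belongs to a family of nondegenerate curves, pairwise not crossing, which `x` preserves
setwise. -/
def IsReductionCurve {n : ℕ} (x : Braid n) (C : Loop n) : Prop :=
  ∃ S : Set (Loop n), S.Finite ∧ (∀ D ∈ S, IsCurve D) ∧ (∀ D ∈ S, ∀ E ∈ S, NonCrossing D E) ∧
    (fun D => act D x) '' S = S ∧ C ∈ S

/-- `x` is reducible. -/
def IsReducible {n : ℕ} (x : Braid n) : Prop :=
  ¬ IsPeriodic x ∧ ∃ C : Loop n, IsReductionCurve x C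

/-- `C` is an essential reduction curve of `x`: it crosses no reduction curve. -/
def IsEssential {n : ℕ} (x : Braid n) (C : Loop n) : Prop :=
  IsReductionCurve x C ∧ ∀ D : Loop n, IsReductionCurve x D → NonCrossing C D

/-- `(xs k, Cs k)` is the orbit of `(x, C)` under iterated cyclic sliding:
`xs (k+1) = d⁻¹ (xs k) d` and `Cs (k+1) = (Cs k) * d`, where `d` is the preferred prefix of
`xs k`. -/
def IsSlidingOrbit {n : ℕ} (x : Braid n) (C : Loop n) (xs : ℕ → Braid n) (Cs : ℕ → Loop n) :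
    Prop :=
  xs 0 = x ∧ Cs 0 = C ∧ ∀ k : ℕ, ∃ d : Braid n, IsPreferredPrefix (xs k) d ∧
    xs (k + 1) = d⁻¹ * xs k * d ∧ Cs (k + 1) = act (Cs k) d

end Pool.Agent.BraidSliding
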