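import Pool.Agent.BraidSliding.Complexity

set_option autoImplicit false
set_option linter.unusedSimpArgs false

namespace Pool.Agent.BraidSliding

open FreeGroup (of lift lift_apply_of)

lemma a20 : artin 5 (s 2) (of 0) = of 0 := artin_s_of 2 0
lemma a21 : artin 5 (s 2) (of 1) = of 1 := artin_s_of 2 1
lemma a22 : artin 5 (s 2) (of 2) = of 2 * of 3 * (of 2)⁻¹ := artin_s_of 2 2
lemma a23 : artin 5 (s 2) (of 3) = of 2 := artin_s_of 2 3
lemma a24 : artin 5 (s 2) (of 4) = of 4 := artin_s_of 2 4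

/-! ### the action of `Δ` -/

lemma Δ_apply (g : FreeGroup (Fin 5)) :
    artin 5 (Δ 5) g = artin 5 (s 0) (artin 5 (s 1) (artin 5 (s 2) (artin 5 (s 3)
      (artin 5 (s 0) (artin 5 (s 1) (artin 5 (s 2) (artin 5 (s 0) (artin 5 (s 1)
        (artin 5 (s 0) g))))))))) := by
  rw [Δ_eq]
  simp only [ev_cons, ev_nil, mul_one, map_mul, MulAut.mul_apply]

lemma Δ0 : artin 5 (Δ 5) (of 0) =
    of 0 * of 1 * of 2 * of 3 * of 4 * (of 0 * of 1 * of 2 * of 3)⁻¹ := by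
  rw [Δ_apply]
  simp [a00, a01, a02, a03, a04, a10, a11, a12, a13, a14, a20, a21, a22, a23, a24, a30, a31, a32,
    a33, a34, mul_assoc]
lemma Δ1 : artin 5 (Δ 5) (of 1) = of 0 * of 1 * of 2 * of 3 * (of 0 * of 1 * of 2)⁻¹ := by
  rw [Δ_apply]
  simp [a00, a01, a02, a03, a04, a10, a11, a12, a13, a14, a20, a21, a22, a23, a24, a30, a31, a32,
    a33, a34, mul_assoc]
lemma Δ2 : artin 5 (Δ 5) (of 2) = of 0 * of 1 * of 2 * (of 0 * of 1)⁻¹ := by
  rw [Δ_apply]
  simp [a00, a01, a02, a03, a04, a10, a11, a12, a13, a14, a20, a21, a22, a23, a24, a30, a31, a32,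
    a33, a34, mul_assoc]
lemma Δ3 : artin 5 (Δ 5) (of 3) = of 0 * of 1 * (of 0)⁻¹ := by
  rw [Δ_apply]
  simp [a00, a01, a02, a03, a04, a10, a11, a12, a13, a14, a20, a21, a22, a23, a24, a30, a31, a32,
    a33, a34, mul_assoc]
lemma Δ4 : artin 5 (Δ 5) (of 4) = of 0 := by
  rw [Δ_apply]
  simp [a00, a01, a02, a03, a04, a10, a11, a12, a13, a14, a20, a21, a22, a23, a24, a30, a31, a32,
    a33, a34, mul_assoc]

/-- boundary word -/
def bd : FreeGroup (Fin 5) := of 0 * of 1 * of 2 * of 3 * of 4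

lemma Δ_sq : artin 5 (Δ 5 ^ 2) = MulAut.conj bd := by
  apply aut_ext
  intro k
  rw [pow_two, map_mul, MulAut.mul_apply, MulAut.conj_apply]
  unfold bd
  match k with
  | 0 => simp [Δ0, Δ1, Δ2, Δ3, Δ4, mul_assoc]
  | 1 => simp [Δ0, Δ1, Δ2, Δ3, Δ4, mul_assoc]
  | 2 => simp [Δ0, Δ1, Δ2, Δ3, Δ4, mul_assoc]
  | 3 => simp [Δ0, Δ1, Δ2, Δ3, Δ4, mul_assoc]
  | 4 => simp [Δ0, Δ1, Δ2, Δ3, Δ4, mul_assoc]

lemma act_Δ_sq (C : Loop 5) : act C (Δ 5 ^ 2) = C := by
  obtain ⟨w, rfl⟩ := ConjClasses.mk_surjective C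
  refine act_mk_eq ?_
  rw [Δ_sq, MulAut.conj_apply]
  exact isConj_iff.mpr ⟨bd⁻¹, by group⟩

lemma act_Δ_zpow (C : Loop 5) (p : ℤ) :
    act C (Δ 5 ^ p) = C ∨ act C (Δ 5 ^ p) = act C (Δ 5) := by
  have h : Δ 5 ^ 2 ∈ Stab C := act_Δ_sq C
  have h2 : ∀ q : ℤ, act C (Δ 5 ^ (2 * q)) = C := by
    intro q
    rw [zpow_mul]
    exact zpow_mem h q
  rcases Int.even_or_odd' p with ⟨q, rfl | rfl⟩
  · exact Or.inl (h2 q)
  · right
    rw [zpow_add, zpow_one, ← act_mul, h2]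

/-! ### the four classes -/

lemma C0_eq : C0 = ConjClasses.mk (el w1) := by
  unfold C0
  rw [round01, act_mk, map_inv, inv_inv, pow_two, map_mul, MulAut.mul_apply]
  congr 1
  unfold γ w1
  simp [el, lt, a10, a11, a12, mul_assoc]

lemma C0_Δ : act C0 (Δ 5) = ConjClasses.mk (el w2) := by
  rw [C0_eq]
  refine act_mk_eq ?_
  have : artin 5 (Δ 5) (el w2) = el w1 := by
    unfold w1 w2
    simp [el, lt, Δ0, Δ1, Δ2, Δ3, Δ4, mul_assoc]
  rw [this]

lemma C0_D : act C0 D3 = ConjClasses.mk (el w3) := by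
  rw [C0_eq]
  refine act_mk_eq ?_
  have : artin 5 D3 (el w3) = el w1 := by
    rw [D3_apply]
    unfold w1 w3
    simp [el, lt, a00, a01, a02, a10, a11, a12, mul_assoc]
  rw [this]

lemma C0_DΔ : act (act C0 D3) (Δ 5) = ConjClasses.mk (el w4) := by
  rw [C0_D]
  refine act_mk_eq ?_
  have : artin 5 (Δ 5) (el w4) = el w3 := by
    unfold w3 w4
    simp [el, lt, Δ0, Δ1, Δ2, Δ3, Δ4, mul_assoc]
  rw [this]

lemma chk_split {e : List (ℕ × Q4)} (h : chk e = true) :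
    okw e w1 = true ∧ okw e w2 = true ∧ okw e w3 = true ∧ okw e w4 = true := by
  unfold chk at h
  rw [Bool.and_eq_true, Bool.and_eq_true, Bool.and_eq_true] at h
  exact ⟨h.1.1.1, h.1.1.2, h.1.2, h.2⟩

lemma NR1 : NR C0 := by rw [C0_eq]; exact NR_of fun e h => (chk_split h).1
lemma NR2 : NR (act C0 (Δ 5)) := by rw [C0_Δ]; exact NR_of fun e h => (chk_split h).2.1
lemma NR3 : NR (act C0 D3) := by rw [C0_D]; exact NR_of fun e h => (chk_split h).2.2.1
lemma NR4 : NR (act (act C0 D3) (Δ 5)) := by rw [C0_DΔ]; exact NR_of fun e h => (chk_split h).2.2.2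

lemma not_round_of_le_one {C : Loop 5} (h1 : NR C) (h2 : NR (act C (Δ 5))) {α : Braid 5} {r : ℕ}
    (hα : HasCanonicalLength α r) (hr : IsRound (act C α)) : 2 ≤ r := by
  obtain ⟨p, l, ⟨hx, hs, -⟩, hl⟩ := hα
  by_contra hlt
  rw [not_le] at hlt
  obtain ⟨a, ha, he⟩ : ∃ a, IsSimple a ∧ α = Δ 5 ^ p * a := by
    match l, hx, hs, hl with
    | [], hx, _, _ =>
      exact ⟨1, ⟨one_mem _, pre_one.mpr Δ_mem⟩, by simpa using hx⟩
    | [a], hx, hs, _ => exact ⟨a, (hs a (by simp)).1, by simpa using hx⟩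
    | a :: b :: l, _, _, hl => simp at hl; omega
  rw [he, ← act_mul] at hr
  rcases act_Δ_zpow C p with h3 | h3
  · rw [h3] at hr; exact h1 a ha hr
  · rw [h3] at hr; exact h2 a ha hr

/-! ### the left normal form of a square -/

lemma no_letter (t : Fin 4) (w : List (Fin 4)) (h : t ∉ w) (x y : Fin 5) (hx : x.val ≤ t.val)
    (hy : t.val < y.val) :
    wc w x y = 0 ∧ (wp w x).val ≤ t.val ∧ t.val < (wp w y).val := by
  induction w with
  | nil => simp [wc_nil, wp_nil, hx, hy]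
  | cons a w ih =>
    obtain ⟨i1, i2, i3⟩ := ih (fun hh => h (by simp [hh]))
    have ha : a ≠ t := fun hh => h (by simp [hh])
    rw [wc_cons, wp_cons, wp_cons, i1]
    generalize wp w x = x' at *
    generalize wp w y = y' at *
    have key : ∀ a t : Fin 4, a ≠ t → ∀ x y : Fin 5, x.val ≤ t.val → t.val < y.val →
        (CG.g a).cnt x y = 0 ∧ ((CG.g a).perm x).val ≤ t.val ∧
          t.val < ((CG.g a).perm y).val := by decide
    obtain ⟨k1, k2, k3⟩ := key a t ha x' y' i2 i3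
    exact ⟨by rw [k1, add_zero], k2, k3⟩

lemma only_letter {a : Fin 4} {n : ℕ} {u : List (Fin 4)} (h : ev u = ev (List.replicate n a)) :
    ∀ x ∈ u, x = a := by
  intro x hx
  by_contra hne
  have h1 : ∀ i j : Fin 5, i.val ≤ x.val → x.val < j.val → wc u i j = 0 := by
    intro i j hi hj
    have h2 : wc u i j = wc (List.replicate n a) i j := by unfold wc; rw [h]
    rw [h2]
    exact (no_letter x _ (fun hh => hne (List.eq_of_mem_replicate hh)) i j hi hj).1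
  exact (wall x u h1).1 hx

lemma pre_pow {a : Fin 4} {n : ℕ} {c : Braid 5} (hc : c ∈ Pos 5) (h1 : Pre c (Δ 5))
    (h2 : Pre c (ev (List.replicate n a))) : Pre c (s a) := by
  obtain ⟨w, rfl⟩ := exists_word hc
  obtain ⟨v, hv⟩ := pre_iff.mp h2
  rw [← ev_append] at hv
  have h3 := only_letter hv.symm
  have h4 : ∀ x ∈ w, x = a := fun x hx => h3 x (by simp [hx])
  match w, h1, h4 with
  | [], _, _ => exact pre_iff.mpr ⟨[a], by simp⟩
  | [b], _, h4 =>
    have : b = a := h4 b (by simp)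
    subst this
    exact pre_iff.mpr ⟨[], by simp⟩
  | b :: b' :: w', h1, h4 =>
    exfalso
    have e1 : b = a := h4 b (by simp)
    have e2 : b' = a := h4 b' (by simp)
    rw [e1, e2] at h1
    have h5 : Pre (ev [a, a]) (Δ 5) := pre_trans (pre_iff.mpr ⟨w', by simp [mul_assoc]⟩) h1
    have h6 := wc_le_one_of_pre_Δ h5 (lo (n := 5) a) (hi (n := 5) a)
    rw [wc_eq] at h6
    have key : ∀ a : Fin 4, ¬ (cw [a, a]).cnt (lo (n := 5) a) (hi (n := 5) a) ≤ 1 := by decide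
    exact key a h6

lemma hasCL_sq {a : Fin 4} (ha : Pre (s a) (Δ 5)) : HasCanonicalLength (s a ^ 2) 2 := by
  refine ⟨0, [s a, s a], ⟨by simp [pow_two], ?_, ?_⟩, rfl⟩
  · intro b hb
    have : b = s a := by simpa using hb
    subst this
    have e : s a = ev [a] := by simp
    refine ⟨⟨s_mem a, ha⟩, ?_, ?_⟩
    · rw [e]; intro h; simpa using ev_eq_one h
    · rw [e]; exact ev_ne_Δ (by simp)
  · have h : Chain [s a, s a] := by
      rw [chain_cons, chain_cons]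
      refine ⟨⟨ha, ?_, ?_⟩, ⟨ha, ?_, ?_⟩, chain_nil⟩
      · exact pre_iff.mpr ⟨[a], by simp⟩
      · intro c hc h1 h2
        refine pre_pow (n := 2) hc h1 ?_
        simpa [List.replicate_succ] using h2
      · exact pre_iff.mpr ⟨[], by simp⟩
      · intro c hc h1 h2
        refine pre_pow (n := 1) hc h1 ?_
        simpa [List.replicate_succ] using h2
    exact h

lemma pre_s0 : Pre (s 0) (Δ 5) := by
  refine pre_iff.mpr ⟨[1, 2, 3, 0, 1, 2, 0, 1, 0], ?_⟩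
  rw [Δ_eq, ev_cons]

lemma pre_s1 : Pre (s 1) (Δ 5) := by
  have h : Pre (ev [0, 1, 0]) (Δ 5) := by
    refine pre_trans (pre_iff.mpr ⟨[3], ?_⟩) simple_D
    rw [ev_single]
  refine pre_trans (pre_iff.mpr ⟨[0, 1], ?_⟩) h
  rw [← d1, ev_single]

lemma complexity_eq_two {C : Loop 5} (h1 : NR C) (h2 : NR (act C (Δ 5))) {a : Fin 4}
    (ha : Pre (s a) (Δ 5)) (hr : IsRound (act C (s a ^ 2))) : complexity C = 2 := by
  unfold complexity
  refine le_antisymm ?_ ?_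
  · exact Nat.sInf_le ⟨s a ^ 2, pow_mem (s_mem a) 2, hasCL_sq ha, hr⟩
  · refine le_csInf ⟨2, s a ^ 2, pow_mem (s_mem a) 2, hasCL_sq ha, hr⟩ ?_
    rintro r ⟨α, -, hα, hr'⟩
    exact not_round_of_le_one h1 h2 hα hr'

lemma complexity_C0 : complexity C0 = 2 :=
  complexity_eq_two NR1 NR2 pre_s1
    ⟨0, 1, ⟨by omega, by omega, by omega⟩, C0_act_s1⟩

lemma complexity_C0D : complexity (act C0 D3) = 2 := by
  refine complexity_eq_two NR3 NR4 pre_s0 ⟨1, 2, ⟨by omega, by omega, by omega⟩, ?_⟩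
  unfold C0
  have h : SemiconjBy D3 (s 0) (s 1) := semi (Or.inr ⟨rfl, rfl⟩)
  have h2 : SemiconjBy D3 (s 0 ^ 2) (s 1 ^ 2) := h.pow_right 2
  have e : (s 1 ^ 2)⁻¹ * (D3 * s 0 ^ 2) = D3 := by
    rw [h2.eq, inv_mul_cancel_left]
  rw [act_mul, act_mul, e, act_round_D3]

/-- the whole statement -/
theorem main : ∃ (x : Braid 5) (C : Loop 5), IsReducible x ∧ IsEssential x C ∧
    complexity C = 2 ∧ (∃ xs Cs, IsSlidingOrbit x C xs Cs) ∧
    ∀ xs Cs, IsSlidingOrbit x C xs Cs → ∀ k : ℕ, complexity (Cs k) = 2 := by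
  refine ⟨X 1 0, C0, ⟨not_periodic, C0, reduction_C0⟩, essential_C0, complexity_C0, orbit_exists,
    fun xs Cs h k => ?_⟩
  rcases orbit_alternates h k with ⟨-, h1⟩ | ⟨-, h1⟩
  · rw [h1]; exact complexity_C0
  · rw [h1]; exact complexity_C0D

end Pool.Agent.BraidSliding
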