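import Pool.Agent.BraidSliding.Count

set_option autoImplicit false

namespace Pool.Agent.BraidSliding

open FreeGroup (of lift lift_apply_of)

/-- generators of `B_5` -/
def s (i : Fin 4) : Braid 5 := σ (n := 5) i

/-- the positive braid of a word -/
def ev (w : List (Fin 4)) : Braid 5 := (w.map s).prod

@[simp] lemma ev_nil : ev [] = 1 := rfl
@[simp] lemma ev_cons (a : Fin 4) (w : List (Fin 4)) : ev (a :: w) = s a * ev w := by simp [ev]
@[simp] lemma ev_append (v w : List (Fin 4)) : ev (v ++ w) = ev v * ev w := by simp [ev]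

lemma s_mem (i : Fin 4) : s i ∈ Pos 5 := Submonoid.subset_closure ⟨i, rfl⟩

lemma ev_mem (w : List (Fin 4)) : ev w ∈ Pos 5 := by
  induction w with
  | nil => exact one_mem _
  | cons a w ih => rw [ev_cons]; exact mul_mem (s_mem a) ih

lemma exists_word {c : Braid 5} (hc : c ∈ Pos 5) : ∃ w, c = ev w := by
  unfold Pos at hc
  induction hc using Submonoid.closure_induction with
  | mem x hx =>
    obtain ⟨i, rfl⟩ := hx
    exact ⟨[i], by simp [s]⟩
  | one => exact ⟨[], rfl⟩
  | mul x y _ _ hx hy =>
    obtain ⟨v, rfl⟩ := hx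
    obtain ⟨w, rfl⟩ := hy
    exact ⟨v ++ w, by simp⟩

lemma s_far {i j : Fin 4} (h : i.val + 1 < j.val) : s i * s j = s j * s i := by
  have h1 : (PresentedGroup.mk (artinRels 5)) (of i * of j * (of j * of i)⁻¹) = 1 :=
    PresentedGroup.one_of_mem ⟨i, j, Or.inl ⟨h, rfl⟩⟩
  rw [map_mul, map_inv, mul_inv_eq_one, map_mul, map_mul] at h1
  exact h1

lemma s_braid {i j : Fin 4} (h : i.val + 1 = j.val) : s i * s j * s i = s j * s i * s j := by
  have h1 : (PresentedGroup.mk (artinRels 5))
      (of i * of j * of i * (of j * of i * of j)⁻¹) = 1 :=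
    PresentedGroup.one_of_mem ⟨i, j, Or.inr ⟨h, rfl⟩⟩
  rw [map_mul, map_inv, mul_inv_eq_one, map_mul, map_mul, map_mul, map_mul] at h1
  exact h1

/-- apply a braid relation at a given position -/
def mv : ℕ → List (Fin 4) → List (Fin 4)
  | 0, a :: b :: l =>
    if a.val + 1 < b.val ∨ b.val + 1 < a.val then b :: a :: l
    else match l with
      | [] => [a, b]
      | c :: l' => if (a.val + 1 = b.val ∨ b.val + 1 = a.val) ∧ c = a then b :: a :: b :: l'
        else a :: b :: c :: l'
  | k + 1, a :: l => a :: mv k l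
  | _, l => l

lemma ev_mv (k : ℕ) (w : List (Fin 4)) : ev (mv k w) = ev w := by
  induction k generalizing w with
  | zero =>
    match w with
    | [] => rfl
    | [a] => rfl
    | a :: b :: l =>
      unfold mv
      split_ifs with h
      · rcases h with h | h
        · simp only [ev_cons, ← mul_assoc, s_far h]
        · simp only [ev_cons, ← mul_assoc, s_far h]
      · match l with
        | [] => rfl
        | c :: l' =>
          dsimp only
          split_ifs with h2
          · obtain ⟨h3, rfl⟩ := h2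
            rcases h3 with h3 | h3
            · simp only [ev_cons, ← mul_assoc, s_braid h3]
            · simp only [ev_cons, ← mul_assoc, s_braid h3]
          · rfl
  | succ k ih =>
    match w with
    | [] => rfl
    | a :: l => simp only [mv, ev_cons, ih]

/-- apply a list of braid relations -/
def mvs (ks : List ℕ) (w : List (Fin 4)) : List (Fin 4) := ks.foldl (fun w k => mv k w) w

lemma ev_mvs (ks : List ℕ) (w : List (Fin 4)) : ev (mvs ks w) = ev w := by
  unfold mvs
  induction ks generalizing w with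
  | nil => rfl
  | cons k ks ih => rw [List.foldl_cons, ih, ev_mv]

lemma ev_eq_of_mvs (ks : List ℕ) {v w : List (Fin 4)} (h : mvs ks v = w) : ev v = ev w := by
  rw [← h, ev_mvs]

lemma Δ_eq : Δ 5 = ev [0, 1, 2, 3, 0, 1, 2, 0, 1, 0] := by
  have h0 : gen 5 0 = s 0 := by simp [gen, s]
  have h1 : gen 5 1 = s 1 := by simp [gen, s]
  have h2 : gen 5 2 = s 2 := by simp [gen, s]
  have h3 : gen 5 3 = s 3 := by simp [gen, s]
  have hr : (List.range 5).reverse = [4, 3, 2, 1, 0] := by decide
  have r4 : List.range 4 = [0, 1, 2, 3] := by decide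
  have r3 : List.range 3 = [0, 1, 2] := by decide
  have r2 : List.range 2 = [0, 1] := by decide
  have r1 : List.range 1 = [0] := by decide
  unfold Δ ev
  rw [hr]
  simp only [List.flatMap_cons, List.flatMap_nil, r4, r3, r2, r1, List.range_zero, List.map_cons,
    List.map_nil, h0, h1, h2, h3]
  rfl

lemma cross_s (i : Fin 4) : cross (s i) = CG.g i := cross_σ i

/-- perm of a word -/
def wp (w : List (Fin 4)) : Equiv.Perm (Fin 5) := (cross (ev w)).perm
/-- crossing numbers of a word -/
def wc (w : List (Fin 4)) (i j : Fin 5) : ℤ := (cross (ev w)).cnt i j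

lemma wp_cons (a : Fin 4) (w : List (Fin 4)) (i : Fin 5) :
    wp (a :: w) i = (CG.g a).perm (wp w i) := by
  simp [wp, cross_s]

lemma wc_cons (a : Fin 4) (w : List (Fin 4)) (i j : Fin 5) :
    wc (a :: w) i j = wc w i j + (CG.g a).cnt (wp w i) (wp w j) := by
  simp [wc, wp, cross_s]

lemma wp_nil (i : Fin 5) : wp [] i = i := by simp [wp]
lemma wc_nil (i j : Fin 5) : wc [] i j = 0 := by simp [wc]

lemma g_cnt_nonneg (a : Fin 4) (i j : Fin 5) : 0 ≤ (CG.g a).cnt i j := by
  revert a i j; decide

lemma wc_nonneg (w : List (Fin 4)) (i j : Fin 5) : 0 ≤ wc w i j := by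
  induction w with
  | nil => rw [wc_nil]
  | cons a w ih => rw [wc_cons]; exact add_nonneg ih (g_cnt_nonneg _ _ _)

lemma g_block (a t : Fin 4) (h : a ≠ t) (i : Fin 5) :
    ((CG.g a).perm i).val ≤ t.val ↔ i.val ≤ t.val := by
  revert a t i; decide

/-- If no strand crosses the wall between positions `t` and `t+1`, the letter `t` does not occur. -/
lemma wall (t : Fin 4) (w : List (Fin 4))
    (h : ∀ i j : Fin 5, i.val ≤ t.val → t.val < j.val → wc w i j = 0) :
    t ∉ w ∧ ∀ i : Fin 5, (wp w i).val ≤ t.val ↔ i.val ≤ t.val := by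
  induction w with
  | nil => exact ⟨by simp, fun i => by rw [wp_nil]⟩
  | cons a w ih =>
    have h1 : ∀ i j : Fin 5, i.val ≤ t.val → t.val < j.val → wc w i j = 0 := by
      intro i j hi hj
      have h2 := h i j hi hj
      rw [wc_cons] at h2
      have h3 := wc_nonneg w i j
      have h4 := g_cnt_nonneg a (wp w i) (wp w j)
      omega
    obtain ⟨h5, h6⟩ := ih h1
    have hat : a ≠ t := by
      rintro rfl
      have e1 := h6 ((wp w).symm (lo (n := 5) a))
      have e2 := h6 ((wp w).symm (hi (n := 5) a))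
      rw [Equiv.apply_symm_apply] at e1 e2
      have e3 : (lo (n := 5) a).val ≤ a.val := le_refl _
      have e4 : ¬ (hi (n := 5) a).val ≤ a.val := by simp [hi]
      have h2 := h _ _ (e1.mp e3) (not_le.mp fun hh => e4 (e2.mpr hh))
      rw [wc_cons, Equiv.apply_symm_apply, Equiv.apply_symm_apply] at h2
      have h3 := wc_nonneg w ((wp w).symm (lo (n := 5) a)) ((wp w).symm (hi (n := 5) a))
      have h4 : (CG.g a).cnt (lo (n := 5) a) (hi (n := 5) a) = 1 := by simp [CG.g]
      omega
    refine ⟨by simp [h5, hat.symm], fun i => ?_⟩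
    rw [wp_cons, g_block a t hat, h6]

lemma g_triple (a : Fin 4) (x y z : Fin 5) (h1 : x < y) (h2 : y < z)
    (h3 : (CG.g a).cnt x y = 0) (h4 : (CG.g a).cnt y z = 0) :
    (CG.g a).cnt x z = 0 ∧ (CG.g a).perm x < (CG.g a).perm y ∧
      (CG.g a).perm y < (CG.g a).perm z := by
  revert a x y z; decide

/-- If the middle one of three strands crosses neither of the others, these do not cross. -/
lemma triple (w : List (Fin 4)) (x y z : Fin 5) (h1 : x < y) (h2 : y < z)
    (h3 : wc w x y = 0) (h4 : wc w y z = 0) :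
    wc w x z = 0 ∧ wp w x < wp w y ∧ wp w y < wp w z := by
  induction w with
  | nil => simp [wc_nil, wp_nil, h1, h2]
  | cons a w ih =>
    rw [wc_cons] at h3 h4
    have n1 := wc_nonneg w x y
    have n2 := wc_nonneg w y z
    have n3 := g_cnt_nonneg a (wp w x) (wp w y)
    have n4 := g_cnt_nonneg a (wp w y) (wp w z)
    obtain ⟨i1, i2, i3⟩ := ih (by omega) (by omega)
    obtain ⟨j1, j2, j3⟩ := g_triple a _ _ _ i2 i3 (by omega) (by omega)
    rw [wc_cons, wp_cons, wp_cons, wp_cons]
    exact ⟨by omega, j2, j3⟩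

end Pool.Agent.BraidSliding
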