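import Pool.Agent.BraidSliding.Blocks
import Pool.Agent.BraidSliding.Words

set_option autoImplicit false

namespace Pool.Agent.BraidSliding

open FreeGroup (of lift lift_apply_of)

/-! ### the action on generators -/

lemma artin_s (k : Fin 4) : artin 5 (s k) = artinAut (n := 5) k := PresentedGroup.toGroup.of _

lemma artin_s_of (k : Fin 4) (i : Fin 5) : artin 5 (s k) (of i) = artinFun (n := 5) k i := by
  rw [artin_s, artinAut_apply, lift_apply_of]

/-- forgetting all punctures except `a` and `b` -/
def K (a b : Fin 5) : FreeGroup (Fin 5) →* FreeGroup (Fin 2) :=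
  lift fun i => if i = a then of 0 else if i = b then of 1 else 1

lemma K_of (a b i : Fin 5) : K a b (of i) = if i = a then of 0 else if i = b then of 1 else 1 :=
  lift_apply_of

/-- Admissible classes in the free group of rank two -/
def Q (z : FreeGroup (Fin 2)) : Prop :=
  IsConj z 1 ∨ IsConj z (of 0) ∨ IsConj z (of 1) ∨ IsConj z (of 0 * of 1)

lemma Q_conj {z z' : FreeGroup (Fin 2)} (h : IsConj z z') (hz : Q z') : Q z := by
  rcases hz with hz | hz | hz | hz
  · exact Or.inl (h.trans hz)
  · exact Or.inr (Or.inl (h.trans hz))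
  · exact Or.inr (Or.inr (Or.inl (h.trans hz)))
  · exact Or.inr (Or.inr (Or.inr (h.trans hz)))

/-- all two-puncture shadows are admissible -/
def P (w : FreeGroup (Fin 5)) : Prop := ∀ a b : Fin 5, a < b → Q (K a b w)

lemma P_conj {w w' : FreeGroup (Fin 5)} (h : IsConj w w') (hw : P w') : P w :=
  fun a b hab => Q_conj (MonoidHom.map_isConj (K a b) h) (hw a b hab)

/-- artin automorphism of rank two -/
def B2 : MulAut (FreeGroup (Fin 2)) := artinAut (n := 2) (0 : Fin 1)

lemma B2_0 : B2 (of 0) = of 0 * of 1 * (of 0)⁻¹ := by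
  unfold B2; rw [artinAut_apply, lift_apply_of]; rfl
lemma B2_1 : B2 (of 1) = of 0 := by
  unfold B2; rw [artinAut_apply, lift_apply_of]; rfl

lemma Q_B2 (z : FreeGroup (Fin 2)) : Q (B2 z) ↔ Q z := by
  have k0 : ∀ q : FreeGroup (Fin 2), IsConj z q → IsConj (B2 z) (B2 q) :=
    fun q h => MonoidHom.map_isConj B2.toMonoidHom h
  have k1 : ∀ q : FreeGroup (Fin 2), IsConj (B2 z) (B2 q) → IsConj z q := by
    intro q h
    have := MonoidHom.map_isConj B2.symm.toMonoidHom h
    simpa using this
  have e1 : IsConj (of 0 * of 1 * (of 0)⁻¹ : FreeGroup (Fin 2)) (of 1) :=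
    isConj_iff.mpr ⟨(of 0)⁻¹, by group⟩
  have e2 : B2 (of 0 * of 1) = of 0 * of 1 := by rw [map_mul, B2_0, B2_1]; group
  constructor
  · rintro (h | h | h | h)
    · exact Or.inl (k1 1 (by rw [map_one]; exact h))
    · exact Or.inr (Or.inr (Or.inl (k1 _ (by rw [B2_1]; exact h))))
    · exact Or.inr (Or.inl (k1 _ (by rw [B2_0]; exact h.trans e1.symm)))
    · exact Or.inr (Or.inr (Or.inr (k1 _ (by rw [e2]; exact h))))
  · rintro (h | h | h | h)
    · exact Or.inl (by have := k0 _ h; rwa [map_one] at this)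
    · exact Or.inr (Or.inr (Or.inl (by have := k0 _ h; rw [B2_0] at this; exact this.trans e1)))
    · exact Or.inr (Or.inl (by have := k0 _ h; rwa [B2_1] at this))
    · exact Or.inr (Or.inr (Or.inr (by have := k0 _ h; rwa [e2] at this)))

/-- transposition -/
def sw (k : Fin 4) (a : Fin 5) : Fin 5 :=
  if a = lo (n := 5) k then hi (n := 5) k else if a = hi (n := 5) k then lo (n := 5) k else a

lemma sw_sw (k : Fin 4) (a : Fin 5) : sw k (sw k a) = a := by
  revert k a; decide

lemma sw_lt (k : Fin 4) (a b : Fin 5) (hab : a < b)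
    (h : ¬ (a = lo (n := 5) k ∧ b = hi (n := 5) k)) :
    sw k a < sw k b ∧ ¬ (sw k a = lo (n := 5) k ∧ sw k b = hi (n := 5) k) := by
  revert k a b; decide

lemma K_A_ne (k : Fin 4) (a b : Fin 5) (hab : a < b)
    (h : ¬ (a = lo (n := 5) k ∧ b = hi (n := 5) k)) (w : FreeGroup (Fin 5)) :
    K a b (artin 5 (s k) w) = K (sw k a) (sw k b) w := by
  have key : ∀ k : Fin 4, ∀ a b : Fin 5, a < b → ¬ (a = lo (n := 5) k ∧ b = hi (n := 5) k) →
      ∀ i : Fin 5, K a b (artinFun (n := 5) k i) = K (sw k a) (sw k b) (of i) := by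
    decide +kernel
  have : (K a b).comp (artin 5 (s k)).toMonoidHom = K (sw k a) (sw k b) := by
    ext i
    have h1 := key k a b hab h i
    rw [← artin_s_of] at h1
    exact h1
  exact DFunLike.congr_fun this w

lemma K_A_eq (k : Fin 4) (w : FreeGroup (Fin 5)) :
    K (lo (n := 5) k) (hi (n := 5) k) (artin 5 (s k) w) =
      B2 (K (lo (n := 5) k) (hi (n := 5) k) w) := by
  have key : ∀ k : Fin 4, ∀ i : Fin 5, K (lo (n := 5) k) (hi (n := 5) k) (artinFun (n := 5) k i) =
      B2 (K (lo (n := 5) k) (hi (n := 5) k) (of i)) := by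
    decide +kernel
  have : (K (lo (n := 5) k) (hi (n := 5) k)).comp (artin 5 (s k)).toMonoidHom =
      B2.toMonoidHom.comp (K (lo (n := 5) k) (hi (n := 5) k)) := by
    ext i
    have h1 := key k i
    rw [← artin_s_of] at h1
    exact h1
  exact DFunLike.congr_fun this w

lemma P_s (k : Fin 4) (w : FreeGroup (Fin 5)) : P (artin 5 (s k) w) ↔ P w := by
  constructor
  · intro h a b hab
    by_cases h1 : a = lo (n := 5) k ∧ b = hi (n := 5) k
    · obtain ⟨rfl, rfl⟩ := h1
      have := h _ _ hab
      rwa [K_A_eq, Q_B2] at this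
    · obtain ⟨h2, h3⟩ := sw_lt k a b hab h1
      have := h _ _ h2
      rwa [K_A_ne k _ _ h2 h3, sw_sw, sw_sw] at this
  · intro h a b hab
    by_cases h1 : a = lo (n := 5) k ∧ b = hi (n := 5) k
    · obtain ⟨rfl, rfl⟩ := h1
      rw [K_A_eq, Q_B2]
      exact h _ _ hab
    · rw [K_A_ne k _ _ hab h1]
      exact h _ _ (sw_lt k a b hab h1).1

/-- induction over the braid group -/
lemma braid_induction {S : Subgroup (Braid 5)} (h : ∀ k : Fin 4, s k ∈ S) (β : Braid 5) :
    β ∈ S := by
  have h1 : Subgroup.closure (Set.range (PresentedGroup.of (rels := artinRels 5))) = ⊤ :=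
    PresentedGroup.closure_range_of _
  have h2 : Subgroup.closure (Set.range (PresentedGroup.of (rels := artinRels 5))) ≤ S := by
    rw [Subgroup.closure_le]
    rintro _ ⟨k, rfl⟩
    exact h k
  rw [h1] at h2
  exact h2 (Subgroup.mem_top β)

lemma P_braid (β : Braid 5) (w : FreeGroup (Fin 5)) : P (artin 5 β w) ↔ P w := by
  let S : Subgroup (Braid 5) :=
    { carrier := {β | ∀ w, P (artin 5 β w) ↔ P w}
      one_mem' := by intro w; rw [map_one, MulAut.one_apply]
      mul_mem' := by
        intro x y hx hy w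
        rw [map_mul, MulAut.mul_apply, hx, hy]
      inv_mem' := by
        intro x hx w
        have h1 := hx ((artin 5 x)⁻¹ w)
        rw [MulAut.apply_inv_self] at h1
        rw [map_inv]
        exact h1.symm }
  exact braid_induction (S := S) (fun k w => P_s k w) β w

lemma esum_braid (β : Braid 5) (w : FreeGroup (Fin 5)) : esum (artin 5 β w) = esum w := by
  let S : Subgroup (Braid 5) :=
    { carrier := {β | ∀ w, esum (artin 5 β w) = esum w}
      one_mem' := by intro w; rw [map_one, MulAut.one_apply]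
      mul_mem' := by
        intro x y hx hy w
        rw [map_mul, MulAut.mul_apply, hx, hy]
      inv_mem' := by
        intro x hx w
        have h1 := hx ((artin 5 x)⁻¹ w)
        rw [MulAut.apply_inv_self] at h1
        rw [map_inv]
        exact h1.symm }
  refine braid_induction (S := S) (fun k w => ?_) β w
  have key : ∀ k : Fin 4, ∀ i : Fin 5, esum (artinFun (n := 5) k i) = esum (of i) := by
    intro k i
    unfold artinFun
    split_ifs <;> simp [esum_of]
  have : (esum (ι := Fin 5)).comp (artin 5 (s k)).toMonoidHom = esum := by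
    ext i
    have h1 := key k i
    rw [← artin_s_of] at h1
    exact congrArg _ h1
  exact DFunLike.congr_fun this w

end Pool.Agent.BraidSliding
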