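import Pool.Agent.BraidSliding.Words

set_option autoImplicit false

namespace Pool.Agent.BraidSliding

open FreeGroup (of lift lift_apply_of)

/-! ### Length, antisymmetry -/

/-- exponent sum -/
def len : Braid 5 →* Multiplicative ℤ :=
  PresentedGroup.toGroup (f := fun _ => Multiplicative.ofAdd (1 : ℤ)) (by
    rintro r ⟨i, j, ⟨hij, rfl⟩ | ⟨hij, rfl⟩⟩ <;> simp)

lemma len_s (i : Fin 4) : len (s i) = Multiplicative.ofAdd 1 := PresentedGroup.toGroup.of _

lemma len_ev (w : List (Fin 4)) : len (ev w) = Multiplicative.ofAdd (w.length : ℤ) := by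
  induction w with
  | nil => simp
  | cons a w ih =>
    rw [ev_cons, map_mul, ih, len_s, ← ofAdd_add, List.length_cons]
    push_cast
    rw [add_comm]

lemma length_eq_of_ev {v w : List (Fin 4)} (h : ev v = ev w) : v.length = w.length := by
  have h1 := congrArg len h
  rw [len_ev, len_ev] at h1
  exact_mod_cast Multiplicative.ofAdd.injective h1

lemma ev_eq_one {w : List (Fin 4)} (h : ev w = 1) : w = [] := by
  have h1 : ev w = ev [] := h
  have := length_eq_of_ev h1
  simpa using this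

lemma pre_iff {a b : Braid 5} : Pre a b ↔ ∃ w, b = a * ev w := by
  constructor
  · intro h
    obtain ⟨w, hw⟩ := exists_word h
    exact ⟨w, by rw [← hw]; group⟩
  · rintro ⟨w, rfl⟩
    unfold Pre
    have : a⁻¹ * (a * ev w) = ev w := by group
    rw [this]
    exact ev_mem w

lemma pre_refl (a : Braid 5) : Pre a a := pre_iff.mpr ⟨[], by simp⟩

lemma pre_trans {a b c : Braid 5} (h1 : Pre a b) (h2 : Pre b c) : Pre a c := by
  obtain ⟨v, rfl⟩ := pre_iff.mp h1
  obtain ⟨w, rfl⟩ := pre_iff.mp h2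
  exact pre_iff.mpr ⟨v ++ w, by rw [ev_append, mul_assoc]⟩

lemma pre_antisymm {a b : Braid 5} (h1 : Pre a b) (h2 : Pre b a) : a = b := by
  obtain ⟨v, rfl⟩ := pre_iff.mp h1
  obtain ⟨w, hw⟩ := pre_iff.mp h2
  have h3 : ev (v ++ w) = 1 := by
    rw [ev_append]
    have : a * 1 = a * (ev v * ev w) := by rw [mul_one, ← mul_assoc]; exact hw
    exact (mul_left_cancel this).symm
  have h4 := ev_eq_one h3
  have h5 : v = [] := (List.append_eq_nil_iff.mp h4).1
  rw [h5]; simp

lemma pos_of_pre {a b : Braid 5} (ha : a ∈ Pos 5) (h : Pre a b) : b ∈ Pos 5 := by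
  obtain ⟨w, rfl⟩ := pre_iff.mp h
  exact mul_mem ha (ev_mem w)

lemma pre_one {a : Braid 5} : Pre 1 a ↔ a ∈ Pos 5 := by
  unfold Pre
  simp

lemma pre_mul_left (c : Braid 5) {a b : Braid 5} : Pre (c * a) (c * b) ↔ Pre a b := by
  unfold Pre
  have : (c * a)⁻¹ * (c * b) = a⁻¹ * b := by group
  rw [this]

lemma gcd_unique {a b d d' : Braid 5} (hd : d ∈ Pos 5) (hd' : d' ∈ Pos 5) (h : IsGcd a b d)
    (h' : IsGcd a b d') : d = d' :=
  pre_antisymm (h'.2.2 d hd h.1 h.2.1) (h.2.2 d' hd' h'.1 h'.2.1)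

lemma gcd_pos {a b d : Braid 5} (ha : a ∈ Pos 5) (hb : b ∈ Pos 5) (h : IsGcd a b d) :
    d ∈ Pos 5 :=
  pre_one.mp (h.2.2 1 (one_mem _) (pre_one.mpr ha) (pre_one.mpr hb))

lemma Δ_mem : Δ 5 ∈ Pos 5 := by rw [Δ_eq]; exact ev_mem _

/-! ### Uniqueness of left normal forms -/

/-- the gcd condition -/
def Chain (l : List (Braid 5)) : Prop :=
  ∀ l₁ l₂ : List (Braid 5), ∀ a : Braid 5, l = l₁ ++ a :: l₂ → IsGcd (Δ 5) (a * l₂.prod) a

lemma chain_cons {a : Braid 5} {l : List (Braid 5)} :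
    Chain (a :: l) ↔ IsGcd (Δ 5) (a * l.prod) a ∧ Chain l := by
  constructor
  · intro h
    refine ⟨h [] l a rfl, fun l₁ l₂ b hb => h (a :: l₁) l₂ b (by rw [hb]; rfl)⟩
  · rintro ⟨h1, h2⟩ l₁ l₂ b hb
    cases l₁ with
    | nil =>
      simp only [List.nil_append, List.cons.injEq] at hb
      obtain ⟨rfl, rfl⟩ := hb
      exact h1
    | cons c l₁ =>
      simp only [List.cons_append, List.cons.injEq] at hb
      exact h2 l₁ l₂ b hb.2

lemma chain_nil : Chain [] := by
  intro l₁ l₂ a h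
  simp at h

lemma prod_pos {l : List (Braid 5)} (h : ∀ a ∈ l, a ∈ Pos 5) : l.prod ∈ Pos 5 :=
  Submonoid.list_prod_mem _ h

lemma chain_unique {l l' : List (Braid 5)} (h : Chain l) (h' : Chain l')
    (hl : ∀ a ∈ l, IsSimple a ∧ a ≠ 1 ∧ a ≠ Δ 5) (hl' : ∀ a ∈ l', IsSimple a ∧ a ≠ 1 ∧ a ≠ Δ 5)
    (hp : l.prod = l'.prod) : l = l' := by
  induction l generalizing l' with
  | nil =>
    cases l' with
    | nil => rfl
    | cons b l' =>
      exfalso
      rw [List.prod_nil, List.prod_cons] at hp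
      obtain ⟨v, hv⟩ := exists_word (hl' b (by simp)).1.1
      obtain ⟨w, hw⟩ := exists_word (prod_pos fun a ha => (hl' a (by simp [ha])).1.1 :
        l'.prod ∈ Pos 5)
      rw [hv, hw, ← ev_append] at hp
      have := (List.append_eq_nil_iff.mp (ev_eq_one hp.symm)).1
      rw [this] at hv
      exact (hl' b (by simp)).2.1 (by rw [hv]; rfl)
  | cons a l ih =>
    cases l' with
    | nil =>
      exfalso
      rw [List.prod_nil, List.prod_cons] at hp
      obtain ⟨v, hv⟩ := exists_word (hl a (by simp)).1.1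
      obtain ⟨w, hw⟩ := exists_word (prod_pos fun a ha => (hl a (by simp [ha])).1.1 :
        l.prod ∈ Pos 5)
      rw [hv, hw, ← ev_append] at hp
      have := (List.append_eq_nil_iff.mp (ev_eq_one hp)).1
      rw [this] at hv
      exact (hl a (by simp)).2.1 (by rw [hv]; rfl)
    | cons b l' =>
      rw [chain_cons] at h h'
      rw [List.prod_cons, List.prod_cons] at hp
      have hab : a = b := by
        have h1 := h.1
        rw [hp] at h1
        exact gcd_unique (hl a (by simp)).1.1 (hl' b (by simp)).1.1 h1 h'.1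
      subst hab
      have := ih h.2 h'.2 (fun a ha => hl a (by simp [ha])) (fun a ha => hl' a (by simp [ha]))
        (mul_left_cancel hp)
      rw [this]

lemma not_pre_Δ {l : List (Braid 5)} (h : Chain l) (hl : ∀ a ∈ l, IsSimple a ∧ a ≠ 1 ∧ a ≠ Δ 5) :
    ¬ Pre (Δ 5) l.prod := by
  intro hpre
  cases l with
  | nil =>
    obtain ⟨w, hw⟩ := pre_iff.mp hpre
    rw [List.prod_nil, Δ_eq, ← ev_append] at hw
    have := ev_eq_one hw.symm
    simp at this
  | cons a l =>
    rw [chain_cons] at h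
    have h1 := h.1.2.2 (Δ 5) Δ_mem (pre_refl _) (by simpa using hpre)
    exact (hl a (by simp)).2.2 (pre_antisymm h.1.1 h1)

lemma lnf_aux {x : Braid 5} {p p' : ℤ} {l l' : List (Braid 5)} (h : IsLNF x p l)
    (h' : IsLNF x p' l') : p' ≤ p := by
  by_contra hlt
  rw [not_le] at hlt
  obtain ⟨h1, h2, h3⟩ := h
  obtain ⟨h1', h2', h3'⟩ := h'
  refine not_pre_Δ h3 h2 ?_
  obtain ⟨k, hk⟩ : ∃ k : ℕ, p' = p + 1 + k := ⟨(p' - p - 1).toNat, by omega⟩
  have h4 : l.prod = Δ 5 * (Δ 5 ^ k * l'.prod) := by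
    have h5 : Δ 5 ^ p * l.prod = Δ 5 ^ p * (Δ 5 * (Δ 5 ^ k * l'.prod)) := by
      rw [← h1, h1', hk, zpow_add, zpow_add, zpow_one, zpow_natCast]
      simp only [mul_assoc]
    exact mul_left_cancel h5
  unfold Pre
  rw [h4, inv_mul_cancel_left]
  exact mul_mem (pow_mem Δ_mem k) (prod_pos fun a ha => (h2' a ha).1.1)

lemma lnf_unique {x : Braid 5} {p p' : ℤ} {l l' : List (Braid 5)} (h : IsLNF x p l)
    (h' : IsLNF x p' l') : p = p' ∧ l = l' := by
  have hp : p = p' := le_antisymm (lnf_aux h' h) (lnf_aux h h')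
  subst hp
  refine ⟨rfl, chain_unique h.2.2 h'.2.2 h.2.1 h'.2.1 ?_⟩
  have := h.1.symm.trans h'.1
  exact mul_left_cancel this

end Pool.Agent.BraidSliding
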