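import Pool.Agent.BraidSliding.Defs1

set_option autoImplicit false

namespace Pool.Agent.BraidSliding

open FreeGroup (of lift)

lemma lo_ne_hi {n : ℕ} (i : Fin (n - 1)) : lo i ≠ hi i := by
  simp [lo, hi]

lemma artin_left_inv {n : ℕ} (i : Fin (n - 1)) :
    (lift (artinInvFun i)).comp (lift (artinFun i)) = MonoidHom.id (FreeGroup (Fin n)) := by
  ext k
  have h := lo_ne_hi i
  by_cases h1 : k = lo i
  · subst h1; simp [artinFun, artinInvFun, h.symm]; group
  · by_cases h2 : k = hi i
    · subst h2; simp [artinFun, artinInvFun, h.symm]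
    · simp [artinFun, artinInvFun, h1, h2]

lemma artin_right_inv {n : ℕ} (i : Fin (n - 1)) :
    (lift (artinFun i)).comp (lift (artinInvFun i)) = MonoidHom.id (FreeGroup (Fin n)) := by
  ext k
  have h := lo_ne_hi i
  by_cases h1 : k = lo i
  · subst h1; simp [artinFun, artinInvFun, h.symm]
  · by_cases h2 : k = hi i
    · subst h2; simp [artinFun, artinInvFun, h.symm]; group
    · simp [artinFun, artinInvFun, h1, h2]

end Pool.Agent.BraidSliding
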