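import Pool.Agent.BraidSliding.Defs2

set_option autoImplicit false
set_option linter.unusedSimpArgs false

namespace Pool.Agent.BraidSliding

open FreeGroup (of lift lift_apply_of)

lemma artinAut_apply {n : ℕ} (i : Fin (n - 1)) (w : FreeGroup (Fin n)) :
    artinAut i w = lift (artinFun i) w := rfl

lemma artinAut_inv_apply {n : ℕ} (i : Fin (n - 1)) (w : FreeGroup (Fin n)) :
    (artinAut i)⁻¹ w = lift (artinInvFun i) w := rfl

lemma aut_ext {n : ℕ} {f g : MulAut (FreeGroup (Fin n))} (h : ∀ k, f (of k) = g (of k)) :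
    f = g := by
  apply MulEquiv.toMonoidHom_injective
  ext k
  exact h k

lemma artinAut_far {n : ℕ} {i j : Fin (n - 1)} (hij : i.val + 1 < j.val) :
    artinAut i * artinAut j = artinAut j * artinAut i := by
  have h1 : lo i ≠ hi i := lo_ne_hi i
  have h2 : lo j ≠ hi j := lo_ne_hi j
  have h3 : lo i ≠ lo j := by simp only [lo, ne_eq, Fin.mk.injEq]; omega
  have h4 : lo i ≠ hi j := by simp only [lo, hi, ne_eq, Fin.mk.injEq]; omega
  have h5 : hi i ≠ lo j := by simp only [lo, hi, ne_eq, Fin.mk.injEq]; omega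
  have h6 : hi i ≠ hi j := by simp only [hi, ne_eq, Fin.mk.injEq]; omega
  apply aut_ext
  intro k
  simp only [MulAut.mul_apply, artinAut_apply, lift_apply_of]
  by_cases k1 : k = lo i
  · subst k1; simp [artinFun, h1, h2, h3, h4, h5, h6, h1.symm, h3.symm]
  by_cases k2 : k = hi i
  · subst k2; simp [artinFun, h1, h2, h3, h4, h5, h6, h1.symm]
  by_cases k3 : k = lo j
  · subst k3; simp [artinFun, h2, h3.symm, h4.symm, h5.symm, h6.symm]
  by_cases k4 : k = hi j
  · subst k4; simp [artinFun, h2.symm, h3.symm, h4.symm, h5.symm, h6.symm]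
  simp [artinFun, k1, k2, k3, k4]

lemma artinAut_braid {n : ℕ} {i j : Fin (n - 1)} (hij : i.val + 1 = j.val) :
    artinAut i * artinAut j * artinAut i = artinAut j * artinAut i * artinAut j := by
  have h1 : lo i ≠ hi i := lo_ne_hi i
  have h2 : lo j ≠ hi j := lo_ne_hi j
  have h3 : lo j = hi i := by simp only [lo, hi, Fin.mk.injEq]; omega
  have h4 : lo i ≠ hi j := by simp only [lo, hi, ne_eq, Fin.mk.injEq]; omega
  rw [h3] at h2
  apply aut_ext
  intro k
  simp only [MulAut.mul_apply, artinAut_apply, lift_apply_of]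
  by_cases k1 : k = lo i
  · subst k1; simp [artinFun, h1, h2, h3, h4, h1.symm, h2.symm, h4.symm, mul_assoc]
  by_cases k2 : k = hi i
  · subst k2; simp [artinFun, h1, h2, h3, h4, h1.symm, h2.symm, h4.symm, mul_assoc]
  by_cases k4 : k = hi j
  · subst k4; simp [artinFun, h1, h2, h3, h4, h1.symm, h2.symm, h4.symm, mul_assoc]
  simp [artinFun, k1, k2, h3, k4]

lemma artin_rels {n : ℕ} (r : FreeGroup (Fin (n - 1))) (hr : r ∈ artinRels n) :
    lift (artinAut (n := n)) r = 1 := by
  obtain ⟨i, j, ⟨hij, rfl⟩ | ⟨hij, rfl⟩⟩ := hr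
  · simp only [map_mul, map_inv, lift_apply_of]
    rw [artinAut_far hij, mul_inv_cancel]
  · simp only [map_mul, map_inv, lift_apply_of]
    rw [artinAut_braid hij, mul_inv_cancel]

end Pool.Agent.BraidSliding
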