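import Pool.Agent.BraidSliding.Garside

set_option autoImplicit false

namespace Pool.Agent.BraidSliding

/-- words in the first two generators -/
def L2 (w : List (Fin 4)) : Prop := ∀ x ∈ w, x = 0 ∨ x = 1

instance (w : List (Fin 4)) : Decidable (L2 w) := by unfold L2; infer_instance

lemma L2.append {v w : List (Fin 4)} (hv : L2 v) (hw : L2 w) : L2 (v ++ w) := by
  intro x hx
  rcases List.mem_append.mp hx with h | h
  · exact hv x h
  · exact hw x h

lemma s3_comm_s {a : Fin 4} (h : a = 0 ∨ a = 1) : s 3 * s a = s a * s 3 := by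
  rcases h with rfl | rfl
  · exact (s_far (by decide)).symm
  · exact (s_far (by decide)).symm

lemma s3_comm {w : List (Fin 4)} (h : L2 w) : s 3 * ev w = ev w * s 3 := by
  induction w with
  | nil => simp
  | cons a w ih =>
    rw [ev_cons, ← mul_assoc, s3_comm_s (h a (by simp)), mul_assoc, ih fun x hx => h x (by simp [hx]),
      mul_assoc]

lemma s3_pow_comm {w : List (Fin 4)} (h : L2 w) (j : ℕ) : s 3 ^ j * ev w = ev w * s 3 ^ j := by
  induction j with
  | zero => simp
  | succ j ih => rw [pow_succ, mul_assoc, s3_comm h, ← mul_assoc, ih, mul_assoc]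

lemma ev_replicate (j : ℕ) (a : Fin 4) : ev (List.replicate j a) = s a ^ j := by
  simp [ev]

/-- A word without the letter `2` splits. -/
lemma split_word (w : List (Fin 4)) (h : (2 : Fin 4) ∉ w) :
    ∃ u : List (Fin 4), ∃ j : ℕ, L2 u ∧ ev w = ev u * s 3 ^ j := by
  induction w with
  | nil => exact ⟨[], 0, by intro x hx; simp at hx, by simp⟩
  | cons a w ih =>
    obtain ⟨u, j, hu, he⟩ := ih fun hh => h (by simp [hh])
    have ha : a ≠ 2 := fun hh => h (by simp [hh])
    by_cases h3 : a = 3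
    · subst h3
      refine ⟨u, j + 1, hu, ?_⟩
      rw [ev_cons, he, ← mul_assoc, s3_comm hu, mul_assoc, pow_succ']
    · refine ⟨a :: u, j, ?_, ?_⟩
      · intro x hx
        rcases List.mem_cons.mp hx with rfl | hx
        · have key : ∀ x : Fin 4, x ≠ 2 → x ≠ 3 → x = 0 ∨ x = 1 := by decide
          exact key _ ha h3
        · exact hu x hx
      · rw [ev_cons, he, ev_cons, mul_assoc]

lemma cross_pow3 (j : ℕ) : ∀ x : Fin 5, x.val < 3 → (cross (s 3 ^ j)).perm x = x ∧
    ∀ y : Fin 5, y.val < 3 → (cross (s 3 ^ j)).cnt x y = 0 := by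
  induction j with
  | zero => intro x _; simp
  | succ j ih =>
    intro x hx
    have hp : ∀ z : Fin 5, z.val < 3 → (CG.g 3).perm z = z := by decide
    have hc : ∀ z w : Fin 5, z.val < 3 → w.val < 3 → (CG.g 3).cnt z w = 0 := by decide
    rw [pow_succ', map_mul, cross_s]
    refine ⟨?_, fun y hy => ?_⟩
    · rw [CG.mul_perm, Equiv.Perm.mul_apply, (ih x hx).1, hp x hx]
    · rw [CG.mul_cnt, (ih x hx).2 y hy, (ih x hx).1, (ih y hy).1, hc x y hx hy, add_zero]

/-- computable version of the crossing data -/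
def cw (w : List (Fin 4)) : CG := (w.map CG.g).prod

lemma cross_ev (w : List (Fin 4)) : cross (ev w) = cw w := by
  unfold ev cw
  rw [map_list_prod, List.map_map]
  congr 1
  apply List.map_congr_left
  intro a _
  exact cross_s a

lemma wc_eq (w : List (Fin 4)) (x y : Fin 5) : wc w x y = (cw w).cnt x y := by
  rw [wc, cross_ev]

lemma wp_eq (w : List (Fin 4)) (x : Fin 5) : wp w x = (cw w).perm x := by
  rw [wp, cross_ev]

/-- the condition that shows `¬ s a ≼ ev W * s 3 ^ j` -/
def Bad (a : Fin 4) (W : List (Fin 4)) : Prop :=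
  ((CG.g a)⁻¹ * cw W).cnt 0 1 < 0 ∨ ((CG.g a)⁻¹ * cw W).cnt 1 2 < 0 ∨
    (((CG.g a)⁻¹ * cw W).cnt 0 1 = 0 ∧ ((CG.g a)⁻¹ * cw W).cnt 1 2 = 0 ∧
      0 < ((CG.g a)⁻¹ * cw W).cnt 0 2)

instance (a : Fin 4) (W : List (Fin 4)) : Decidable (Bad a W) := by unfold Bad; infer_instance

lemma not_pre_of_bad {a : Fin 4} {W : List (Fin 4)} (h : Bad a W) (j : ℕ) :
    ¬ Pre (s a) (ev W * s 3 ^ j) := by
  intro hp
  obtain ⟨w, hw⟩ := pre_iff.mp hp
  have h1 : ∀ x y : Fin 5, x.val < 3 → y.val < 3 → wc w x y = ((CG.g a)⁻¹ * cw W).cnt x y := by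
    intro x y hx hy
    have h2 : ev w = (s a)⁻¹ * (ev W * s 3 ^ j) := by rw [hw]; group
    have h3 : cross (ev w) = ((CG.g a)⁻¹ * cw W) * cross (s 3 ^ j) := by
      rw [h2, map_mul, map_mul, map_inv, cross_s, cross_ev, mul_assoc]
    rw [wc, h3, CG.mul_cnt, (cross_pow3 j x hx).2 y hy, (cross_pow3 j x hx).1,
      (cross_pow3 j y hy).1, zero_add]
  rcases h with h | h | ⟨h2, h3, h4⟩
  · have := wc_nonneg w 0 1
    rw [h1 0 1 (by decide) (by decide)] at this
    omega
  · have := wc_nonneg w 1 2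
    rw [h1 1 2 (by decide) (by decide)] at this
    omega
  · rw [← h1 0 1 (by decide) (by decide)] at h2
    rw [← h1 1 2 (by decide) (by decide)] at h3
    rw [← h1 0 2 (by decide) (by decide)] at h4
    have := (triple w 0 1 2 (by decide) (by decide) h2 h3).1
    omega

/-! ### Common prefixes of `Δ` and of a braid in the block subgroup -/

lemma wc_le_one_of_pre_Δ {w : List (Fin 4)} (h : Pre (ev w) (Δ 5)) (x y : Fin 5) :
    wc w x y ≤ 1 := by
  obtain ⟨v, hv⟩ := pre_iff.mp h
  have h1 : ∀ i j : Fin 5, (cw [0, 1, 2, 3, 0, 1, 2, 0, 1, 0]).cnt i j ≤ 1 := by decide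
  rw [Δ_eq] at hv
  have h2 : cw [0, 1, 2, 3, 0, 1, 2, 0, 1, 0] = cross (ev w) * cross (ev v) := by
    rw [← cross_ev, hv, map_mul]
  have h3 := h1 ((wp v).symm x) ((wp v).symm y)
  rw [h2, CG.mul_cnt] at h3
  have h4 := wc_nonneg v ((wp v).symm x) ((wp v).symm y)
  have e : ∀ z, (cross (ev v)).perm ((wp v).symm z) = z := fun z => (wp v).apply_symm_apply z
  rw [e, e] at h3
  unfold wc at h4 ⊢
  omega

lemma wc_split {v w : List (Fin 4)} (x y : Fin 5) :
    wc (v ++ w) x y = wc w x y + wc v (wp w x) (wp w y) := by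
  unfold wc wp
  rw [ev_append, map_mul, CG.mul_cnt]

lemma block_of_L2 {W : List (Fin 4)} (hW : L2 W) (j : ℕ) (x y : Fin 5) (hx : x.val ≤ 2)
    (hy : 2 < y.val) : wc (W ++ List.replicate j 3) x y = 0 := by
  have hno : ∀ w : List (Fin 4), (2 : Fin 4) ∉ w → ∀ x y : Fin 5, x.val ≤ 2 → 2 < y.val →
      wc w x y = 0 ∧ (wp w x).val ≤ 2 ∧ 2 < (wp w y).val := by
    intro w
    induction w with
    | nil => intro _ x y hx hy; simp [wc_nil, wp_nil, hx, hy]
    | cons a w ih =>
      intro h x y hx hy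
      obtain ⟨i1, i2, i3⟩ := ih (fun hh => h (by simp [hh])) x y hx hy
      have ha : a ≠ 2 := fun hh => h (by simp [hh])
      rw [wc_cons, wp_cons, wp_cons, i1]
      generalize wp w x = x' at *
      generalize wp w y = y' at *
      revert ha i2 i3
      clear ih h i1
      revert a x' y'
      decide
  refine (hno _ ?_ x y hx hy).1
  intro h
  rcases List.mem_append.mp h with h | h
  · rcases hW _ h with h | h <;> exact absurd h (by decide)
  · exact absurd (List.eq_of_mem_replicate h) (by decide)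

lemma small_L2 {u : List (Fin 4)} (hu : L2 u) (hc : ∀ x y : Fin 5, wc u x y ≤ 1) :
    ∃ t ∈ [[], [0], [1], [0, 1], [1, 0], [0, 1, 0]], ev u = ev t := by
  -- the length is the number of crossings
  have hlen : ∀ u : List (Fin 4), L2 u →
      (u.length : ℤ) = wc u 0 1 + wc u 0 2 + wc u 1 2 ∧
      ((wp u 0).val < 3 ∧ (wp u 1).val < 3 ∧ (wp u 2).val < 3) := by
    intro u
    induction u with
    | nil => intro _; simp [wc_nil, wp_nil]
    | cons a u ih =>
      intro h
      obtain ⟨i1, i2, i3, i4⟩ := ih fun x hx => h x (by simp [hx])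
      have ha := h a (by simp)
      rw [wc_cons, wc_cons, wc_cons, wp_cons, wp_cons, wp_cons, List.length_cons]
      have hne1 : wp u 0 ≠ wp u 1 := by simp
      have hne2 : wp u 0 ≠ wp u 2 := by simp
      have hne3 : wp u 1 ≠ wp u 2 := by simp
      generalize wp u 0 = p at *
      generalize wp u 1 = q at *
      generalize wp u 2 = r at *
      have key : ∀ a : Fin 4, (a = 0 ∨ a = 1) → ∀ p q r : Fin 5, p ≠ q → p ≠ r → q ≠ r →
          p.val < 3 → q.val < 3 → r.val < 3 →
          (CG.g a).cnt p q + (CG.g a).cnt p r + (CG.g a).cnt q r = 1 ∧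
          ((CG.g a).perm p).val < 3 ∧ ((CG.g a).perm q).val < 3 ∧
            ((CG.g a).perm r).val < 3 := by decide
      obtain ⟨k1, k2⟩ := key a ha p q r hne1 hne2 hne3 i2 i3 i4
      refine ⟨?_, k2⟩
      push_cast
      omega
  have h3 : u.length ≤ 3 := by
    have := (hlen u hu).1
    have h1 := hc 0 1
    have h2 := hc 0 2
    have h3 := hc 1 2
    omega
  have hd : ∀ w : List (Fin 4), (∀ x y : Fin 5, wc w x y ≤ 1) → ∀ x y : Fin 5,
      (cw w).cnt x y ≤ 1 := fun w h x y => by rw [← wc_eq]; exact h x y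
  have hcu := hd u hc
  match u, hu, h3, hcu with
  | [], _, _, _ => exact ⟨[], by simp, rfl⟩
  | [a], hu, _, _ =>
    rcases hu a (by simp) with rfl | rfl
    · exact ⟨[0], by simp, rfl⟩
    · exact ⟨[1], by simp, rfl⟩
  | [a, b], hu, _, hcu =>
    rcases hu a (by simp) with rfl | rfl <;> rcases hu b (by simp) with rfl | rfl
    · exact absurd (hcu 0 1) (by decide)
    · exact ⟨[0, 1], by simp, rfl⟩
    · exact ⟨[1, 0], by simp, rfl⟩
    · exact absurd (hcu 1 2) (by decide)
  | [a, b, c], hu, _, hcu =>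
    rcases hu a (by simp) with rfl | rfl <;> rcases hu b (by simp) with rfl | rfl <;>
      rcases hu c (by simp) with rfl | rfl
    · exact absurd (hcu 0 1) (by decide)
    · exact absurd (hcu 0 2) (by decide)
    · exact ⟨[0, 1, 0], by simp, rfl⟩
    · exact absurd (hcu 1 2) (by decide)
    · exact absurd (hcu 0 1) (by decide)
    · exact ⟨[0, 1, 0], by simp, ev_eq_of_mvs [0] (by decide)⟩
    · exact absurd (hcu 0 2) (by decide)
    · exact absurd (hcu 1 2) (by decide)
  | a :: b :: c :: d :: l, _, h3, _ => simp at h3; omega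

/-- Common prefixes of `Δ` and `ev W * s 3 ^ j`. -/
lemma common_prefix {c : Braid 5} (hc : c ∈ Pos 5) {W : List (Fin 4)} (hW : L2 W) (j : ℕ)
    (h1 : Pre c (Δ 5)) (h2 : Pre c (ev W * s 3 ^ j)) :
    ∃ t ∈ [[], [0], [1], [0, 1], [1, 0], [0, 1, 0]], ∃ i : ℕ, i ≤ 1 ∧ c = ev t * s 3 ^ i := by
  obtain ⟨w, rfl⟩ := exists_word hc
  obtain ⟨v, hv⟩ := pre_iff.mp h2
  rw [← ev_replicate, ← ev_append, ← ev_append] at hv
  have hwc : ∀ x y, wc (w ++ v) x y = wc (W ++ List.replicate j 3) x y := by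
    intro x y; unfold wc; rw [hv]
  -- the second factor preserves the blocks
  have hvz : ∀ x y : Fin 5, x.val ≤ (2 : Fin 4).val → (2 : Fin 4).val < y.val → wc v x y = 0 := by
    intro x y hx hy
    have h3 := hwc x y
    rw [block_of_L2 hW j x y hx hy, wc_split] at h3
    have h4 := wc_nonneg v x y
    have h5 := wc_nonneg w (wp v x) (wp v y)
    omega
  have hvb := (wall 2 v hvz).2
  have hwz : ∀ x y : Fin 5, x.val ≤ (2 : Fin 4).val → (2 : Fin 4).val < y.val → wc w x y = 0 := by
    intro x y hx hy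
    have hx' := (hvb ((wp v).symm x))
    have hy' := (hvb ((wp v).symm y))
    rw [Equiv.apply_symm_apply] at hx' hy'
    have hx2 := hx'.mp hx
    have hy2 : (2 : Fin 4).val < ((wp v).symm y).val := by
      by_contra hcon
      exact absurd (hy'.mpr (not_lt.mp hcon)) (not_le.mpr hy)
    have h3 := hwc ((wp v).symm x) ((wp v).symm y)
    rw [block_of_L2 hW j _ _ hx2 hy2, wc_split, Equiv.apply_symm_apply,
      Equiv.apply_symm_apply] at h3
    have h4 := wc_nonneg v ((wp v).symm x) ((wp v).symm y)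
    have h5 := wc_nonneg w x y
    omega
  obtain ⟨u, i, hu, he⟩ := split_word w (wall 2 w hwz).1
  have hle := wc_le_one_of_pre_Δ h1
  have hwu : ∀ x y, wc w x y = wc (u ++ List.replicate i 3) x y := by
    intro x y
    unfold wc
    rw [he, ev_append, ev_replicate]
  -- the exponent of `s 3`
  have hpow : ∀ i : ℕ, wc (List.replicate i 3) 3 4 = i ∧
      ((wp (List.replicate i 3) 3 = 3 ∧ wp (List.replicate i 3) 4 = 4) ∨
       (wp (List.replicate i 3) 3 = 4 ∧ wp (List.replicate i 3) 4 = 3)) := by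
    intro i
    induction i with
    | zero => simp [wc_nil, wp_nil]
    | succ i ih =>
      rw [List.replicate_succ, wc_cons, wp_cons, wp_cons]
      have k1 : (CG.g 3).cnt 3 4 = 1 := by decide
      have k2 : (CG.g 3).cnt 4 3 = 1 := by decide
      have k3 : (CG.g 3).perm 3 = 4 := by decide
      have k4 : (CG.g 3).perm 4 = 3 := by decide
      obtain ⟨i1, ⟨i2, i3⟩ | ⟨i2, i3⟩⟩ := ih
      · rw [i1, i2, i3, k1, k3, k4]; simp
      · rw [i1, i2, i3, k2, k3, k4]; simp
  have hi : i ≤ 1 := by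
    have h3 := hle 3 4
    rw [hwu, wc_split, (hpow i).1] at h3
    have h4 := wc_nonneg u (wp (List.replicate i 3) 3) (wp (List.replicate i 3) 4)
    omega
  have hfix : ∀ x : Fin 5, x.val < 3 → wp (List.replicate i 3) x = x := by
    intro x hx
    have := (cross_pow3 i x hx).1
    unfold wp
    rw [ev_replicate]
    exact this
  have huc : ∀ x y : Fin 5, wc u x y ≤ 1 := by
    intro x y
    have h3 := hle ((wp (List.replicate i 3)).symm x) ((wp (List.replicate i 3)).symm y)
    rw [hwu, wc_split, Equiv.apply_symm_apply, Equiv.apply_symm_apply] at h3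
    have h4 := wc_nonneg (List.replicate i 3) ((wp (List.replicate i 3)).symm x)
      ((wp (List.replicate i 3)).symm y)
    omega
  obtain ⟨t, ht, he2⟩ := small_L2 hu huc
  exact ⟨t, ht, i, hi, by rw [he, he2]⟩

end Pool.Agent.BraidSliding
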