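import Pool.Agent.BraidSliding.Core

set_option autoImplicit false
set_option linter.unusedSimpArgs false

namespace Pool.Agent.BraidSliding

open FreeGroup (of lift lift_apply_of)

/-! ### the boundary words -/

def γ : FreeGroup (Fin 5) := of 0 * of 1
def δ : FreeGroup (Fin 5) := of 0 * of 1 * of 2
def ε : FreeGroup (Fin 5) := of 3 * of 4

def cA (i : Fin 5) : Bool := decide (i.val ≤ 2)
def cB (i : Fin 5) : Bool := decide (i.val ≤ 1)

lemma a00 : artin 5 (s 0) (of 0) = of 0 * of 1 * (of 0)⁻¹ := artin_s_of 0 0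
lemma a01 : artin 5 (s 0) (of 1) = of 0 := artin_s_of 0 1
lemma a02 : artin 5 (s 0) (of 2) = of 2 := artin_s_of 0 2
lemma a03 : artin 5 (s 0) (of 3) = of 3 := artin_s_of 0 3
lemma a04 : artin 5 (s 0) (of 4) = of 4 := artin_s_of 0 4
lemma a10 : artin 5 (s 1) (of 0) = of 0 := artin_s_of 1 0
lemma a11 : artin 5 (s 1) (of 1) = of 1 * of 2 * (of 1)⁻¹ := artin_s_of 1 1
lemma a12 : artin 5 (s 1) (of 2) = of 1 := artin_s_of 1 2
lemma a13 : artin 5 (s 1) (of 3) = of 3 := artin_s_of 1 3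
lemma a14 : artin 5 (s 1) (of 4) = of 4 := artin_s_of 1 4
lemma a30 : artin 5 (s 3) (of 0) = of 0 := artin_s_of 3 0
lemma a31 : artin 5 (s 3) (of 1) = of 1 := artin_s_of 3 1
lemma a32 : artin 5 (s 3) (of 2) = of 2 := artin_s_of 3 2
lemma a33 : artin 5 (s 3) (of 3) = of 3 * of 4 * (of 3)⁻¹ := artin_s_of 3 3
lemma a34 : artin 5 (s 3) (of 4) = of 3 := artin_s_of 3 4

/-- the three twists -/
def T0 : MulAut (FreeGroup (Fin 5)) := artin 5 (s 0 ^ 2)
def TD : MulAut (FreeGroup (Fin 5)) := artin 5 (D3 ^ 2)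
def T3 : MulAut (FreeGroup (Fin 5)) := artin 5 (s 3 ^ 2)

lemma T0_apply (g : FreeGroup (Fin 5)) : T0 g = artin 5 (s 0) (artin 5 (s 0) g) := by
  unfold T0; rw [pow_two, map_mul, MulAut.mul_apply]
lemma T3_apply (g : FreeGroup (Fin 5)) : T3 g = artin 5 (s 3) (artin 5 (s 3) g) := by
  unfold T3; rw [pow_two, map_mul, MulAut.mul_apply]
lemma TD_apply (g : FreeGroup (Fin 5)) :
    TD g = artin 5 (s 0) (artin 5 (s 1) (artin 5 (s 0) (artin 5 (s 0) (artin 5 (s 1)
      (artin 5 (s 0) g))))) := by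
  unfold TD D3
  simp only [ev_cons, ev_nil, mul_one, pow_two, map_mul, MulAut.mul_apply]

lemma agree {c : Fin 5 → Bool} {b : Bool} {f : MulAut (FreeGroup (Fin 5))}
    {h : FreeGroup (Fin 5) →* FreeGroup (Fin 5)}
    (hg : ∀ i, c i = b → f (of i) = h (of i)) : ∀ g ∈ Col c b, f g = h g := by
  intro g hgc
  exact (col_induction (S := MonoidHom.eqLocus f.toMonoidHom h) hg) hgc

lemma T0_true : ∀ g ∈ Col cB true, T0 g = γ * g * γ⁻¹ := by
  refine agree (h := (MulAut.conj γ).toMonoidHom) ?_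
  intro i hi
  change T0 (of i) = γ * of i * γ⁻¹
  fin_cases i
  · rw [T0_apply]; unfold γ; simp only [a00, a01, map_mul, map_inv]; simp [mul_assoc, a00, a01]
  · rw [T0_apply]; unfold γ; simp [a00, a01, mul_assoc]
  · exact absurd hi (by decide)
  · exact absurd hi (by decide)
  · exact absurd hi (by decide)

lemma T0_false : ∀ g ∈ Col cB false, T0 g = g := by
  refine agree (h := MonoidHom.id _) ?_
  intro i hi
  change T0 (of i) = of i
  fin_cases i
  · exact absurd hi (by decide)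
  · exact absurd hi (by decide)
  · rw [T0_apply]; simp [a02]
  · rw [T0_apply]; simp [a03]
  · rw [T0_apply]; simp [a04]

lemma TD_true : ∀ g ∈ Col cA true, TD g = δ * g * δ⁻¹ := by
  refine agree (h := (MulAut.conj δ).toMonoidHom) ?_
  intro i hi
  change TD (of i) = δ * of i * δ⁻¹
  fin_cases i
  · rw [TD_apply]; unfold δ; simp [a00, a01, a02, a10, a11, a12, mul_assoc]
  · rw [TD_apply]; unfold δ; simp [a00, a01, a02, a10, a11, a12, mul_assoc]
  · rw [TD_apply]; unfold δ; simp [a00, a01, a02, a10, a11, a12, mul_assoc]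
  · exact absurd hi (by decide)
  · exact absurd hi (by decide)

lemma TD_false : ∀ g ∈ Col cA false, TD g = g := by
  refine agree (h := MonoidHom.id _) ?_
  intro i hi
  change TD (of i) = of i
  fin_cases i
  · exact absurd hi (by decide)
  · exact absurd hi (by decide)
  · exact absurd hi (by decide)
  · rw [TD_apply]; simp [a03, a13]
  · rw [TD_apply]; simp [a04, a14]

lemma T3_true : ∀ g ∈ Col cA true, T3 g = g := by
  refine agree (h := MonoidHom.id _) ?_
  intro i hi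
  change T3 (of i) = of i
  fin_cases i
  · rw [T3_apply]; simp [a30]
  · rw [T3_apply]; simp [a31]
  · rw [T3_apply]; simp [a32]
  · exact absurd hi (by decide)
  · exact absurd hi (by decide)

lemma T3_false : ∀ g ∈ Col cA false, T3 g = ε * g * ε⁻¹ := by
  refine agree (h := (MulAut.conj ε).toMonoidHom) ?_
  intro i hi
  change T3 (of i) = ε * of i * ε⁻¹
  fin_cases i
  · exact absurd hi (by decide)
  · exact absurd hi (by decide)
  · exact absurd hi (by decide)
  · rw [T3_apply]; unfold ε; simp [a33, a34, mul_assoc]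
  · rw [T3_apply]; unfold ε; simp [a33, a34, mul_assoc]

lemma conj_pow_on {S : Subgroup (FreeGroup (Fin 5))} {f : MulAut (FreeGroup (Fin 5))}
    {d : FreeGroup (Fin 5)} (hd : d ∈ S) (h : ∀ g ∈ S, f g = d * g * d⁻¹) (n : ℕ) :
    ∀ g ∈ S, (f ^ n) g = d ^ n * g * (d ^ n)⁻¹ := by
  induction n with
  | zero => intro g _; simp
  | succ n ih =>
    intro g hg
    rw [pow_succ', MulAut.mul_apply, ih g hg,
      h _ (mul_mem (mul_mem (pow_mem hd n) hg) (inv_mem (pow_mem hd n)))]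
    rw [pow_succ']
    group

lemma id_pow_on {S : Subgroup (FreeGroup (Fin 5))} {f : MulAut (FreeGroup (Fin 5))}
    (h : ∀ g ∈ S, f g = g) (n : ℕ) : ∀ g ∈ S, (f ^ n) g = g := by
  intro g hg
  have := conj_pow_on (one_mem S) (f := f) (fun g hg => by rw [h g hg]; group) n g hg
  rw [this]
  simp

lemma inv_on {S : Subgroup (FreeGroup (Fin 5))} {f : MulAut (FreeGroup (Fin 5))}
    {d : FreeGroup (Fin 5)} (hd : d ∈ S) (h : ∀ g ∈ S, f g = d * g * d⁻¹) :
    ∀ g ∈ S, f⁻¹ g = d⁻¹ * g * (d⁻¹)⁻¹ := by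
  intro g hg
  apply f.injective
  rw [MulAut.apply_inv_self, h _ (mul_mem (mul_mem (inv_mem hd) hg) (inv_mem (inv_mem hd)))]
  group

lemma inv_id_on {S : Subgroup (FreeGroup (Fin 5))} {f : MulAut (FreeGroup (Fin 5))}
    (h : ∀ g ∈ S, f g = g) : ∀ g ∈ S, f⁻¹ g = g := by
  intro g hg
  apply f.injective
  rw [MulAut.apply_inv_self, h g hg]

/-- the inner factor -/
def τ : MulAut (FreeGroup (Fin 5)) := T0⁻¹

lemma γ_mem : γ ∈ Col cB true :=
  mul_mem (of_mem_col (by decide)) (of_mem_col (by decide))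
lemma δ_mem : δ ∈ Col cA true :=
  mul_mem (mul_mem (of_mem_col (by decide)) (of_mem_col (by decide))) (of_mem_col (by decide))
lemma ε_mem : ε ∈ Col cA false :=
  mul_mem (of_mem_col (by decide)) (of_mem_col (by decide))

lemma τ_true : ∀ g ∈ Col cB true, τ g = γ⁻¹ * g * (γ⁻¹)⁻¹ := inv_on γ_mem T0_true
lemma τ_false : ∀ g ∈ Col cB false, τ g = g := inv_id_on T0_false

lemma τ_of_true {i : Fin 5} (h : cB i = true) : τ (of i) ∈ Col cB true := by
  rw [τ_true _ (of_mem_col h)]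
  exact mul_mem (mul_mem (inv_mem γ_mem) (of_mem_col h)) (inv_mem (inv_mem γ_mem))

lemma cB_le_cA {i : Fin 5} (h : cB i = true) : cA i = true := by
  revert i; decide

lemma col_mono : Col cB true ≤ Col cA true := by
  refine col_induction fun i hi => of_mem_col (cB_le_cA hi)

lemma τ_cA_true : ∀ g ∈ Col cA true, τ g ∈ Col cA true := by
  have h : Col cA true ≤ Subgroup.comap τ.toMonoidHom (Col cA true) := by
    refine col_induction fun i hi => ?_
    change τ (of i) ∈ Col cA true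
    by_cases hB : cB i = true
    · exact col_mono (τ_of_true hB)
    · rw [τ_false _ (of_mem_col (by simpa using hB))]
      exact of_mem_col hi
  intro g hg
  exact h hg

lemma τ_cA_false : ∀ g ∈ Col cA false, τ g = g := by
  intro g hg
  refine τ_false g ?_
  revert g
  change Col cA false ≤ Col cB false
  refine col_induction fun i hi => of_mem_col ?_
  revert i; decide

lemma τ_δ : τ δ = δ := by
  unfold δ
  rw [map_mul, τ_false (of 2) (of_mem_col (by decide))]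
  have h := τ_true (of 0 * of 1) γ_mem
  rw [h]
  unfold γ
  group

/-- the canonical reducible braid -/
def x0 : Braid 5 := D3 ^ 4 * (s 0)⁻¹ * s 3 ^ 7

lemma comm_D0 : Commute (D3 ^ 2) (s 0) := by
  have h1 : SemiconjBy D3 (s 0) (s 1) := semi (Or.inr ⟨rfl, rfl⟩)
  have h2 : SemiconjBy D3 (s 1) (s 0) := semi (Or.inl ⟨rfl, rfl⟩)
  have h3 := h2.mul_left h1
  rw [pow_two]
  exact h3

lemma comm_D1 : Commute (D3 ^ 2) (s 1) := by
  have h1 : SemiconjBy D3 (s 0) (s 1) := semi (Or.inr ⟨rfl, rfl⟩)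
  have h2 : SemiconjBy D3 (s 1) (s 0) := semi (Or.inl ⟨rfl, rfl⟩)
  have h3 := h1.mul_left h2
  rw [pow_two]
  exact h3

lemma comm_D3 : Commute D3 (s 3) := (s3_comm (by decide : L2 [0, 1, 0])).symm

lemma comm_03 : Commute (s 0) (s 3) := s_far (by decide)
lemma comm_13 : Commute (s 1) (s 3) := s_far (by decide)

lemma x0_sq : x0 ^ 2 = (D3 ^ 2) ^ 4 * (s 0 ^ 2)⁻¹ * (s 3 ^ 2) ^ 7 := by
  unfold x0
  have c1 : Commute (D3 ^ 4) (s 0)⁻¹ := by
    have : D3 ^ 4 = (D3 ^ 2) ^ 2 := by rw [← pow_mul]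
    rw [this]
    exact (comm_D0.pow_left 2).inv_right
  have c2 : Commute (D3 ^ 4) (s 3 ^ 7) := comm_D3.pow_pow 4 7
  have c3 : Commute (s 0)⁻¹ (s 3 ^ 7) := (comm_03.pow_right 7).inv_left
  rw [(c2.mul_left c3).mul_pow, c1.mul_pow, ← pow_mul, ← pow_mul, ← pow_mul, ← pow_mul, inv_pow]

/-- the pure automorphism -/
def φ : MulAut (FreeGroup (Fin 5)) := artin 5 (x0 ^ 2)

lemma φ_eq : φ = TD ^ 4 * τ * T3 ^ 7 := by
  unfold φ TD τ T0 T3
  rw [x0_sq]
  simp only [map_mul, map_pow, map_inv]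

lemma φ_true : ∀ g ∈ Col cA true, φ g = δ ^ 4 * τ g * (δ ^ 4)⁻¹ := by
  intro g hg
  rw [φ_eq, MulAut.mul_apply, MulAut.mul_apply, id_pow_on T3_true 7 g hg,
    conj_pow_on δ_mem TD_true 4 _ (τ_cA_true g hg)]

lemma φ_false : ∀ g ∈ Col cA false, φ g = ε ^ 7 * g * (ε ^ 7)⁻¹ := by
  intro g hg
  rw [φ_eq, MulAut.mul_apply, MulAut.mul_apply, conj_pow_on ε_mem T3_false 7 g hg]
  have h1 : ε ^ 7 * g * (ε ^ 7)⁻¹ ∈ Col cA false :=
    mul_mem (mul_mem (pow_mem ε_mem 7) hg) (inv_mem (pow_mem ε_mem 7))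
  rw [τ_cA_false _ h1, id_pow_on TD_false 4 _ h1]

lemma φ_pow_false (n : ℕ) : ∀ g ∈ Col cA false,
    (φ ^ n) g = (ε ^ 7) ^ n * g * ((ε ^ 7) ^ n)⁻¹ :=
  conj_pow_on (pow_mem ε_mem 7) φ_false n

lemma τ_pow_cA (n : ℕ) : ∀ g ∈ Col cA true, (τ ^ n) g ∈ Col cA true :=
  fun _ hg => pow_mem_col τ_cA_true n hg

lemma τ_pow_δ (n : ℕ) : (τ ^ n) δ = δ := by
  induction n with
  | zero => simp
  | succ n ih => rw [pow_succ', MulAut.mul_apply, ih, τ_δ]

lemma φ_pow_true (n : ℕ) : ∀ g ∈ Col cA true,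
    (φ ^ n) g = (δ ^ 4) ^ n * (τ ^ n) g * ((δ ^ 4) ^ n)⁻¹ := by
  induction n with
  | zero => intro g _; simp
  | succ n ih =>
    intro g hg
    have h1 : (δ ^ 4) ^ n ∈ Col cA true := pow_mem (pow_mem δ_mem 4) n
    rw [pow_succ', MulAut.mul_apply, ih g hg,
      φ_true _ (mul_mem (mul_mem h1 (τ_pow_cA n g hg)) (inv_mem h1)), map_mul, map_mul, map_inv,
      map_pow, map_pow, τ_δ, pow_succ' τ, MulAut.mul_apply, pow_succ' (δ ^ 4)]
    group

lemma φ_cA_true : ∀ g ∈ Col cA true, φ g ∈ Col cA true := by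
  intro g hg
  rw [φ_true g hg]
  exact mul_mem (mul_mem (pow_mem δ_mem 4) (τ_cA_true g hg)) (inv_mem (pow_mem δ_mem 4))

lemma φ_cA_false : ∀ g ∈ Col cA false, φ g ∈ Col cA false := by
  intro g hg
  rw [φ_false g hg]
  exact mul_mem (mul_mem (pow_mem ε_mem 7) hg) (inv_mem (pow_mem ε_mem 7))

end Pool.Agent.BraidSliding
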